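import Pool.Agent.H15.NX.Acts
import Pool.Agent.H36.NX.SepB

/-!
# Cht : the three charts `x ≠ 0`, `τ ≠ 0` (`τ = u^3 s`, degree 3) and their intersection

A chart is a system `T` of subspaces of `F` (piece `s`, weight `n`), equal to the union of the
`τ^(-m) * C.pc s (n + m d)`; on the piece `e` the weight `n` part is `g^n B` and on the piece `e'` it is the same
as on the overlap.
-/

set_option autoImplicit false

open NC

noncomputable section

namespace H36.NX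

variable {k : Type} [Field k] {t : k} {R : Type} [CommRing R] [Algebra k R]
  {K : Type} [Field K] [Algebra k K] {F : Type} [Field F] [Algebra k F]

/-- a chart -/
structure Cht (C : CubicRing k t R) (j : R →ₐ[k] F) where
  T : PS C j
  τ : R
  d : ℕ
  e : Pc
  e' : Pc
  g : F
  B : Subalgebra k F
  c : F
  s0 : R
  s1 : R
  jinj : Function.Injective j
  he : (e = Pc.X ∧ e' = Pc.Y) ∨ (e = Pc.Y ∧ e' = Pc.X)
  g0 : g ≠ 0
  τ0 : j τ ≠ 0
  hτ : ∀ s : Pc, τ ∈ C.pc s d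
  hloc : ∀ (s : Pc) (n : ℤ) (x : F), x ∈ T.S s n ↔
    ∃ (m : ℕ) (r : R), r ∈ C.pc s (n + m * d) ∧ (j τ) ^ m * x = j r
  hB : ∀ (n : ℤ) (x : F), x ∈ T.S e n ↔ g ^ (-n) * x ∈ B
  hac : ∀ n : ℤ, T.S Pc.R n ≤ T.S e' n
  hg : g = 1 ∨ g = j (C.u : R)
  hs0 : ∀ s : Pc, s0 ∈ C.pc s 1
  hs1 : ∀ s : Pc, s1 ∈ C.pc s 1
  js0 : j s0 = g
  js1 : j s1 = g * c
  cB : c ∈ B
  sep : SepOver k B ⟨c, cB⟩

private theorem cht_zpow (C : CubicRing k t R) (j : R →ₐ[k] F) (n : ℤ) :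
    j ((C.u ^ n : Rˣ) : R) = j (C.u : R) ^ n := by
  have h1 : j ((C.u ^ n : Rˣ) : R) = ((Units.map (j : R →* F) (C.u ^ n) : Fˣ) : F) := rfl
  rw [h1, map_zpow, Units.val_zpow_eq_zpow_val]
  rfl

private theorem cht_ju_ne (C : CubicRing k t R) (j : R →ₐ[k] F) : j (C.u : R) ≠ 0 := by
  intro h
  have h1 : j ((C.u : R) * ((C.u⁻¹ : Rˣ) : R)) = 0 := by rw [map_mul, h, zero_mul]
  rw [Units.mul_inv, map_one] at h1
  exact one_ne_zero h1

private theorem cht_j_mem_RUV (C : CubicRing k t R) (j : R →ₐ[k] F) (r : R) : j r ∈ C.RUV j :=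
  Algebra.subset_adjoin (Or.inl ⟨r, rfl⟩)

private theorem cht_j_mem_RV (C : CubicRing k t R) (j : R →ₐ[k] F) {r : R} (h : r ∈ C.Y 0) :
    j r ∈ C.RV j :=
  Algebra.subset_adjoin (Or.inl ⟨r, h, rfl⟩)

private theorem cht_zpow_mem_RUV (C : CubicRing k t R) (j : R →ₐ[k] F) (n : ℤ) :
    j (C.u : R) ^ n ∈ C.RUV j := by
  rw [← cht_zpow]
  exact cht_j_mem_RUV C j _

private theorem cht_RV_RUV (C : CubicRing k t R) (j : R →ₐ[k] F) (n : ℤ) (x : F)
    (h : j (C.u : R) ^ (-n) * x ∈ C.RV j) : x ∈ C.RUV j := by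
  have h1 := (C.RUV j).mul_mem (cht_zpow_mem_RUV C j n) (C.RV_le_RUV j h)
  rw [← mul_assoc, ← zpow_add₀ (cht_ju_ne C j), add_neg_cancel, zpow_zero, one_mul] at h1
  exact h1

section

variable (C : CubicRing k t R) (E : CubeRoot k t K) (j : R →ₐ[k] F)

/-- the piece system of the chart `x ≠ 0` -/
def chXT : PS C j where
  S s _ := match s with
    | Pc.X => (C.RX j).toSubmodule
    | Pc.Y => LinearMap.range j.toLinearMap
    | Pc.R => LinearMap.range j.toLinearMap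
  mul := by
    intro s m n r x hr hx
    cases s with
    | X =>
      have h1 : j r ∈ C.RX j := ⟨r, hr, rfl⟩
      exact (C.RX j).mul_mem h1 hx
    | Y =>
      obtain ⟨y, rfl⟩ := hx
      exact ⟨r * y, map_mul j r y⟩
    | R =>
      obtain ⟨y, rfl⟩ := hx
      exact ⟨r * y, map_mul j r y⟩
  le := by
    intro s n
    cases s with
    | X =>
      rintro _ ⟨r, _, rfl⟩
      exact ⟨r, rfl⟩
    | Y => exact le_rfl
    | R => exact le_rfl

/-- the piece system of the chart `τ ≠ 0` -/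
def chVT : PS C j where
  S s n := match s with
    | Pc.X => (C.RUV j).toSubmodule
    | Pc.Y => (C.RV j).toSubmodule.comap (LinearMap.mulLeft k (j (C.u : R) ^ (-n)))
    | Pc.R => (C.RUV j).toSubmodule
  mul := by
    intro s m n r x hr hx
    cases s with
    | X => exact (C.RUV j).mul_mem (cht_j_mem_RUV C j r) hx
    | Y =>
      have hx' : j (C.u : R) ^ (-n) * x ∈ C.RV j := hx
      have hr' : r ∈ C.Y m := hr
      change j (C.u : R) ^ (-(m + n)) * (j r * x) ∈ C.RV j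
      have h1 : ((C.u ^ (-m) : Rˣ) : R) * r ∈ C.Y 0 := by
        have h2 := C.mul_mem_Y (C.upow_mem_Y (le_refl (-m))) hr'
        rwa [neg_add_cancel] at h2
      have h3 := (C.RV j).mul_mem (cht_j_mem_RV C j h1) hx'
      rw [map_mul, cht_zpow] at h3
      have e1 : j (C.u : R) ^ (-(m + n)) * (j r * x)
          = j (C.u : R) ^ (-m) * j r * (j (C.u : R) ^ (-n) * x) := by
        rw [neg_add, zpow_add₀ (cht_ju_ne C j)]
        ring
      rw [e1]
      exact h3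
    | R => exact (C.RUV j).mul_mem (cht_j_mem_RUV C j r) hx
  le := by
    intro s n
    cases s with
    | X => exact le_rfl
    | Y => exact fun x hx => cht_RV_RUV C j n x hx
    | R => exact le_rfl

/-- the piece system of the intersection -/
def chWT : PS C j where
  S _ _ := (C.RUV j).toSubmodule
  mul := by
    intro s m n r x _ hx
    exact (C.RUV j).mul_mem (cht_j_mem_RUV C j r) hx
  le := fun _ _ => le_rfl

theorem mem_chXT_X (n : ℤ) (x : F) : x ∈ (chXT C j).S Pc.X n ↔ x ∈ C.RX j := Iff.rfl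
theorem mem_chXT_Y (n : ℤ) (x : F) : x ∈ (chXT C j).S Pc.Y n ↔ ∃ r, j r = x := Iff.rfl
theorem mem_chXT_R (n : ℤ) (x : F) : x ∈ (chXT C j).S Pc.R n ↔ ∃ r, j r = x := Iff.rfl
theorem mem_chVT_X (n : ℤ) (x : F) : x ∈ (chVT C j).S Pc.X n ↔ x ∈ C.RUV j := Iff.rfl
theorem mem_chVT_Y (n : ℤ) (x : F) :
    x ∈ (chVT C j).S Pc.Y n ↔ j (C.u : R) ^ (-n) * x ∈ C.RV j := Iff.rfl
theorem mem_chVT_R (n : ℤ) (x : F) : x ∈ (chVT C j).S Pc.R n ↔ x ∈ C.RUV j := Iff.rfl
theorem mem_chWT (s : Pc) (n : ℤ) (x : F) : x ∈ (chWT C j).S s n ↔ x ∈ C.RUV j := Iff.rfl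

/-- `τ = u^3 s` -/
def tauR : R := (C.u : R) ^ 3 * C.s

private theorem cht_tau_eq : tauR C = C.bas (3, 0) - C.bas (1, 1) := by
  have h1 : (C.u : R) ^ 3 * ((C.u ^ (-2 : ℤ) : Rˣ) : R) = ((C.u ^ (1 : ℤ) : Rˣ) : R) := by
    have h2 := CubicRing.Mul_upow_add C (-2) 3
    rw [mul_comm, ← h2]
    norm_num
  have h3 : ((C.u ^ (3 : ℤ) : Rˣ) : R) = (C.u : R) ^ 3 := by
    rw [show (3 : ℤ) = ((3 : ℕ) : ℤ) by rfl, zpow_natCast, Units.val_pow_eq_pow_val]
  rw [tauR, CubicRing.s, CubicRing.Mul_bas0, CubicRing.Mul_bas1, mul_sub, mul_one, ← mul_assoc, h1,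
    h3]

private theorem cht_tau_eq' : tauR C = (C.u : R) * ((C.u : R) ^ 2 - C.w) := by
  rw [cht_tau_eq, CubicRing.Mul_bas0, CubicRing.Mul_bas1, zpow_one]
  have h3 : ((C.u ^ (3 : ℤ) : Rˣ) : R) = (C.u : R) ^ 3 := by
    rw [show (3 : ℤ) = ((3 : ℕ) : ℤ) by rfl, zpow_natCast, Units.val_pow_eq_pow_val]
  rw [h3]
  ring

private theorem cht_tau_Y : tauR C ∈ C.Y 3 := by
  rw [cht_tau_eq]
  exact (C.Y 3).sub_mem (C.bas_mem_Y 3 3 0 (by simp)) (C.bas_mem_Y 3 1 1 (by simp))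

private theorem cht_pow_Y {r : R} {m : ℤ} (h : r ∈ C.Y m) (n : ℕ) : r ^ n ∈ C.Y (n * m) := by
  induction n with
  | zero => simpa using C.one_mem_Y (le_refl 0)
  | succ n ih =>
    rw [pow_succ]
    have h1 := C.mul_mem_Y ih h
    rwa [show ((n + 1 : ℕ) : ℤ) * m = n * m + m by push_cast; ring]

private theorem cht_pow_X {r : R} (h : r ∈ C.X) (n : ℕ) : r ^ n ∈ C.X :=
  C.AX.pow_mem (show r ∈ C.AX from h) n

private theorem cht_jtau : j (tauR C) = j (C.u : R) ^ 3 * j C.s := by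
  rw [tauR, map_mul, map_pow]

variable (hj : Function.Injective j)
include E hj

theorem j_tauR_ne : j (tauR C) ≠ 0 := by
  rw [cht_jtau]
  exact mul_ne_zero (pow_ne_zero _ (cht_ju_ne C j)) (C.s_ne_zero_aux j hj)

omit E in
private theorem cht_tau_cancel (m : ℕ) (r : R) (x : F) (h : (j (tauR C)) ^ m * x = j r) :
    x = j (C.u : R) ^ (-(3 * m : ℤ)) * j r * ((j C.s)⁻¹) ^ m := by
  have hu := cht_ju_ne C j
  have hs : j C.s ≠ 0 := C.s_ne_zero_aux j hj
  rw [← h, cht_jtau, mul_pow, ← pow_mul, zpow_neg, inv_pow,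
    show (3 * (m : ℤ)) = ((3 * m : ℕ) : ℤ) by push_cast; ring, zpow_natCast]
  field_simp

private theorem cht_back (m : ℕ) (r : R) (x : F) (h : (j (tauR C)) ^ m * x = j r) :
    x ∈ C.RUV j := by
  rw [C.mem_RUV_iff E j hj]
  refine ⟨((C.u ^ (-(3 * m : ℤ)) : Rˣ) : R) * r, m, ?_⟩
  rw [map_mul, cht_zpow]
  exact cht_tau_cancel C j hj m r x h

omit E in
private theorem cht_forth (r : R) (n : ℕ) :
    (j (tauR C)) ^ n * (j r * ((j C.s)⁻¹) ^ n) = j ((C.u : R) ^ (3 * n) * r) := by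
  have hs : j C.s ≠ 0 := C.s_ne_zero_aux j hj
  rw [cht_jtau, mul_pow, ← pow_mul, map_mul, map_pow, inv_pow]
  field_simp

theorem tauR_mem (s : Pc) {n : ℤ} (hn : 3 ≤ n) : tauR C ∈ C.pc s n := by
  cases s with
  | X =>
    change tauR C ∈ C.X
    rw [cht_tau_eq]
    exact C.X.sub_mem (C.bas_mem_X 3 0 (by norm_num)) (C.bas_mem_X 1 1 (by norm_num))
  | Y => exact C.Y_mono hn (cht_tau_Y C)
  | R => exact Submodule.mem_top

private theorem cht_X (x : F) (hx : x ∈ C.RUV j) :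
    ∃ (m : ℕ) (r : R), r ∈ C.X ∧ (j (tauR C)) ^ m * x = j r := by
  obtain ⟨r, n, rfl⟩ := (C.mem_RUV_iff E j hj x).1 hx
  obtain ⟨N, hN⟩ := C.exists_upow_mul_mem_X r
  refine ⟨N + n, ((C.u : R) ^ 2 - C.w) ^ N * ((C.u : R) ^ (3 * n) * ((C.u : R) ^ N * r)), ?_, ?_⟩
  · refine C.mul_mem_X (cht_pow_X C (C.X.sub_mem (cht_pow_X C C.u_mem_X 2) C.w_mem_X) N) ?_
    exact C.mul_mem_X (cht_pow_X C C.u_mem_X _) hN
  · rw [pow_add, mul_assoc, cht_forth C j hj, ← map_pow, ← map_mul, cht_tau_eq', mul_pow]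
    congr 1
    ring

private theorem cht_Y (x : F) (hx : x ∈ C.RUV j) (n : ℤ) :
    ∃ (m : ℕ) (r : R), r ∈ C.Y (n + m * (4 : ℕ)) ∧ (j (tauR C)) ^ m * x = j r := by
  obtain ⟨r, N, rfl⟩ := (C.mem_RUV_iff E j hj x).1 hx
  obtain ⟨M, hM⟩ := C.exists_mem_Y r
  refine ⟨(M - n).toNat + N, tauR C ^ (M - n).toNat * ((C.u : R) ^ (3 * N) * r), ?_, ?_⟩
  · have h1 := cht_pow_Y C (cht_tau_Y C) (M - n).toNat
    have h2 : (C.u : R) ^ (3 * N) ∈ C.Y (3 * N) := by
      have h3 := C.upow_mem_Y (m := ((3 * N : ℕ) : ℤ)) (n := ((3 * N : ℕ) : ℤ)) le_rfl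
      rw [zpow_natCast, Units.val_pow_eq_pow_val] at h3
      exact_mod_cast h3
    have h4 := C.mul_mem_Y h1 (C.mul_mem_Y h2 hM)
    refine C.Y_mono ?_ h4
    push_cast
    have := Int.self_le_toNat (M - n)
    have h5 : (0 : ℤ) ≤ N := Int.natCast_nonneg N
    linarith
  · rw [pow_add, mul_assoc, cht_forth C j hj, ← map_pow, ← map_mul]

theorem chX_hloc (s : Pc) (n : ℤ) (x : F) : x ∈ (chXT C j).S s n ↔
    ∃ (m : ℕ) (r : R), r ∈ C.pc s (n + m * (1 : ℕ)) ∧ (j 1) ^ m * x = j r := by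
  constructor
  · intro hx
    cases s with
    | X =>
      obtain ⟨r, hr, rfl⟩ := hx
      exact ⟨0, r, hr, by rw [pow_zero, one_mul]; rfl⟩
    | Y =>
      obtain ⟨r, rfl⟩ := hx
      obtain ⟨N, hN⟩ := C.exists_mem_Y r
      refine ⟨(N - n).toNat, r, ?_, by rw [map_one, one_pow, one_mul]; rfl⟩
      refine C.Y_mono ?_ hN
      have := Int.self_le_toNat (N - n)
      push_cast
      linarith
    | R =>
      obtain ⟨r, rfl⟩ := hx
      exact ⟨0, r, Submodule.mem_top, by rw [pow_zero, one_mul]; rfl⟩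
  · rintro ⟨m, r, hr, h⟩
    rw [map_one, one_pow, one_mul] at h
    rw [h]
    cases s with
    | X => exact ⟨r, hr, rfl⟩
    | Y => exact ⟨r, rfl⟩
    | R => exact ⟨r, rfl⟩

theorem chV_hloc (s : Pc) (n : ℤ) (x : F) : x ∈ (chVT C j).S s n ↔
    ∃ (m : ℕ) (r : R), r ∈ C.pc s (n + m * (3 : ℕ)) ∧ (j (tauR C)) ^ m * x = j r := by
  constructor
  · intro hx
    cases s with
    | X => exact cht_X C E j hj x hx
    | Y =>
      have hx' : j (C.u : R) ^ (-n) * x ∈ C.RV j := hx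
      obtain ⟨r, hr, N, h⟩ := (C.mem_RV_iff E j hj _).1 hx'
      have hx2 : x = j (C.u : R) ^ n * (j r * ((j C.s)⁻¹) ^ N) := by
        rw [← h, ← mul_assoc, ← zpow_add₀ (cht_ju_ne C j), add_neg_cancel, zpow_zero, one_mul]
      refine ⟨N, ((C.u ^ n : Rˣ) : R) * ((C.u : R) ^ (3 * N) * r), ?_, ?_⟩
      · have h2 : (C.u : R) ^ (3 * N) ∈ C.Y (3 * N) := by
          have h3 := C.upow_mem_Y (m := ((3 * N : ℕ) : ℤ)) (n := ((3 * N : ℕ) : ℤ)) le_rfl
          rw [zpow_natCast, Units.val_pow_eq_pow_val] at h3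
          exact_mod_cast h3
        have h4 := C.mul_mem_Y (C.upow_mem_Y (le_refl n)) (C.mul_mem_Y h2 hr)
        refine C.Y_mono ?_ h4
        push_cast
        linarith
      · rw [hx2, mul_left_comm, cht_forth C j hj, map_mul j ((C.u ^ n : Rˣ) : R), cht_zpow]
    | R =>
      obtain ⟨m, r, _, h⟩ := cht_X C E j hj x hx
      exact ⟨m, r, Submodule.mem_top, h⟩
  · rintro ⟨m, r, hr, h⟩
    cases s with
    | X => exact cht_back C E j hj m r x h
    | Y =>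
      change j (C.u : R) ^ (-n) * x ∈ C.RV j
      refine (C.mem_RV_iff E j hj _).2 ⟨((C.u ^ (-n + -(3 * m : ℤ)) : Rˣ) : R) * r, ?_, m, ?_⟩
      · have hr' : r ∈ C.Y (n + m * (3 : ℕ)) := hr
        have h4 := C.mul_mem_Y (C.upow_mem_Y (le_refl (-n + -(3 * m : ℤ)))) hr'
        refine C.Y_mono ?_ h4
        push_cast
        linarith
      · have h5 := cht_tau_cancel C j hj m r x h
        rw [map_mul, cht_zpow, zpow_add₀ (cht_ju_ne C j), h5]
        ring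
    | R => exact cht_back C E j hj m r x h

theorem chW_hloc (s : Pc) (n : ℤ) (x : F) : x ∈ (chWT C j).S s n ↔
    ∃ (m : ℕ) (r : R), r ∈ C.pc s (n + m * (4 : ℕ)) ∧ (j (tauR C)) ^ m * x = j r := by
  constructor
  · intro hx
    have hx' : x ∈ C.RUV j := hx
    cases s with
    | X => exact cht_X C E j hj x hx'
    | Y => exact cht_Y C E j hj x hx' n
    | R =>
      obtain ⟨m, r, _, h⟩ := cht_X C E j hj x hx'
      exact ⟨m, r, Submodule.mem_top, h⟩
  · rintro ⟨m, r, _, h⟩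
    exact cht_back C E j hj m r x h

omit E hj in
theorem ju_ne : j (C.u : R) ≠ 0 := by
  intro h
  have h1 : j ((C.u : R) * ((C.u⁻¹ : Rˣ) : R)) = 0 := by rw [map_mul, h, zero_mul]
  rw [Units.mul_inv, map_one] at h1
  exact one_ne_zero h1

/-- the chart `x ≠ 0` -/
def chX [CharP k 3] (ht : t ≠ 0) : Cht C j where
  T := chXT C j
  τ := 1
  d := 1
  e := Pc.X
  e' := Pc.Y
  g := 1
  B := C.RX j
  c := j (C.u : R)
  s0 := 1
  s1 := (C.u : R)
  jinj := hj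
  he := Or.inl ⟨rfl, rfl⟩
  g0 := one_ne_zero
  τ0 := by rw [map_one]; exact one_ne_zero
  hτ s := C.one_mem_pc s (by norm_num)
  hloc := chX_hloc C E j hj
  hB n x := by
    rw [one_zpow, one_mul]
    exact Iff.rfl
  hac _ := le_rfl
  hg := Or.inl rfl
  hs0 s := C.one_mem_pc s (by norm_num)
  hs1 s := C.u_mem_pc s le_rfl
  js0 := map_one j
  js1 := (one_mul _).symm
  cB := C.ju_mem_RX j
  sep := CubicRing.sepOver_RX C E j hj ht

/-- the chart `τ ≠ 0` -/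
def chV [CharP k 3] (ht : t ≠ 0) : Cht C j where
  T := chVT C j
  τ := tauR C
  d := 3
  e := Pc.Y
  e' := Pc.X
  g := j (C.u : R)
  B := C.RV j
  c := j (((C.u⁻¹ : Rˣ) : R) * C.w)
  s0 := (C.u : R)
  s1 := C.w
  jinj := hj
  he := Or.inr ⟨rfl, rfl⟩
  g0 := ju_ne C j
  τ0 := j_tauR_ne C E j hj
  hτ s := tauR_mem C E j hj s (by norm_num)
  hloc := chV_hloc C E j hj
  hB n x := Iff.rfl
  hac _ := le_rfl
  hg := Or.inr rfl
  hs0 s := C.u_mem_pc s le_rfl
  hs1 s := C.w_mem_pc s le_rfl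
  js0 := rfl
  js1 := by rw [← map_mul, ← mul_assoc, Units.mul_inv, one_mul]
  cB := C.jw'_mem_RV j
  sep := CubicRing.sepOver_RV C E j hj ht

/-- the intersection of the charts -/
def chW [CharP k 3] (ht : t ≠ 0) : Cht C j where
  T := chWT C j
  τ := tauR C
  d := 4
  e := Pc.X
  e' := Pc.Y
  g := 1
  B := C.RUV j
  c := j (C.u : R)
  s0 := 1
  s1 := (C.u : R)
  jinj := hj
  he := Or.inl ⟨rfl, rfl⟩
  g0 := one_ne_zero
  τ0 := j_tauR_ne C E j hj
  hτ s := tauR_mem C E j hj s (by norm_num)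
  hloc := chW_hloc C E j hj
  hB n x := by
    rw [one_zpow, one_mul]
    exact Iff.rfl
  hac _ := le_rfl
  hg := Or.inl rfl
  hs0 s := C.one_mem_pc s (by norm_num)
  hs1 s := C.u_mem_pc s le_rfl
  js0 := map_one j
  js1 := (one_mul _).symm
  cB := C.ju_mem_RUV j
  sep := CubicRing.sepOver_RUV C E j hj ht

end

end H36.NX
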