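import Pool.Agent.H15.NX.EpsC
import Pool.Agent.H36.NX.Coker

/-!
# ClK : the augmentation is a quasi-isomorphism for all column modules `L n`, `n ≥ 0` (Koszul induction)
-/

set_option autoImplicit false

open NC
open scoped TensorProduct

noncomputable section

namespace NC

variable {k : Type} [Field k] {A : DGA k} {X Y Z : SD k}

/-- product of two left modules -/
def LA.prod (a : LA A X) (b : LA A Y) : LA A (X.prod Y) where
  act := LinearMap.mk₂ k (fun r (v : X.V × Y.V) => ((a.act r v.1, b.act r v.2) : X.V × Y.V))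
    (fun _ _ _ => Prod.ext (by simp) (by simp)) (fun _ _ _ => Prod.ext (by simp) (by simp))
    (fun r v v' => Prod.ext (map_add _ _ _) (map_add _ _ _))
    (fun c r v => Prod.ext (map_smul _ _ _) (map_smul _ _ _))
  mul_act := fun r s v => Prod.ext (a.mul_act r s v.1) (b.mul_act r s v.2)
  P_act := fun r v => Prod.ext (a.P_act r v.1) (b.P_act r v.2)
  D_act := fun r v => Prod.ext (a.D_act r v.1) (b.D_act r v.2)

@[simp] theorem LA.prod_act (a : LA A X) (b : LA A Y) (r : A.V) (v : X.V × Y.V) :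
    (a.prod b).act r v = ((a.act r v.1, b.act r v.2) : X.V × Y.V) := rfl

/-- the pair of two maps -/
def SD.Hom.pair (f : SD.Hom Z X) (g : SD.Hom Z Y) : SD.Hom Z (X.prod Y) where
  f := f.f.prod g.f
  D := fun v => Prod.ext (f.D v) (g.D v)
  P := fun v => Prod.ext (f.P v) (g.P v)

/-- first projection -/
def SD.fst (X Y : SD k) : SD.Hom (X.prod Y) X where
  f := LinearMap.fst k X.V Y.V
  D := fun _ => rfl
  P := fun _ => rfl

/-- second projection -/
def SD.snd (X Y : SD k) : SD.Hom (X.prod Y) Y where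
  f := LinearMap.snd k X.V Y.V
  D := fun _ => rfl
  P := fun _ => rfl

/-- first inclusion -/
def SD.inl (X Y : SD k) : SD.Hom X (X.prod Y) where
  f := LinearMap.inl k X.V Y.V
  D := fun v => Prod.ext rfl (map_zero Y.D).symm
  P := fun v => Prod.ext rfl (map_zero Y.P).symm

theorem SD.inl_snd_SES (X Y : SD k) : SD.SES (SD.inl X Y) (SD.snd X Y) where
  inj := fun _ h => congrArg Prod.fst h
  surj := fun z => ⟨(0, z), rfl⟩
  zero := fun _ => rfl
  exact := by
    rintro ⟨x, y⟩ hy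
    have hy' : y = 0 := hy
    subst hy'
    exact ⟨x, rfl⟩

end NC

namespace H36.NX

variable {k : Type} [Field k] {t : k} {R : Type} [CommRing R] [Algebra k R]
  {F : Type} [Field F] [Algebra k F] {C : CubicRing k t R} {j : R →ₐ[k] F}

/-! ### the Koszul sequence of column modules -/

private theorem clk_lU_D (n : ℤ) (v : (Lc C n).V) :
    lU C n ((Lc C n).D v) = (Lc C (n + 1)).D (lU C n v) := q_ext C (by
  unfold lU
  rw [qv_qU, qv_D, qv_D, qv_qU, smulR_D])

private theorem clk_lIn_D (n : ℤ) (v : (Lc C n).V) :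
    lIn C n ((Lc C n).D v) = (Lc C (n + 1)).D (lIn C n v) := q_ext C (by
  unfold lIn
  rw [qv_qIn, qv_D, qv_D, qv_qIn])

private theorem clk_lU_P (n : ℤ) (v : (Lc C n).V) :
    lU C n ((Lc C n).P v) = (Lc C (n + 1)).P (lU C n v) := q_ext C (by
  unfold lU
  rw [qv_qU, qv_P, qv_P, qv_qU, smulR_P])

private theorem clk_lIn_P (n : ℤ) (v : (Lc C n).V) :
    lIn C n ((Lc C n).P v) = (Lc C (n + 1)).P (lIn C n v) := q_ext C (by
  unfold lIn
  rw [qv_qIn, qv_P, qv_P, qv_qIn])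

/-- `c ↦ (- u c, c)` -/
def kz1 (C : CubicRing k t R) (n : ℤ) : SD.Hom (Lc C n) ((Lc C (n + 1)).prod (Lc C (n + 1))) where
  f := (-(lU C n)).prod (lIn C n)
  D := fun v => Prod.ext
    (by
      change -(lU C n ((Lc C n).D v)) = (Lc C (n + 1)).D (-(lU C n v))
      rw [map_neg, clk_lU_D])
    (clk_lIn_D n v)
  P := fun v => Prod.ext
    (by
      change -(lU C n ((Lc C n).P v)) = (Lc C (n + 1)).P (-(lU C n v))
      rw [map_neg, clk_lU_P])
    (clk_lIn_P n v)

/-- `(c, c') ↦ c + u c'` -/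
def kz2 (C : CubicRing k t R) (n : ℤ) : SD.Hom ((Lc C n).prod (Lc C n)) (Lc C (n + 1)) where
  f := (lIn C n).coprod (lU C n)
  D := fun v => by
    change lIn C n ((Lc C n).D v.1) + lU C n ((Lc C n).D v.2)
      = (Lc C (n + 1)).D (lIn C n v.1 + lU C n v.2)
    rw [map_add, clk_lIn_D, clk_lU_D]
  P := fun v => by
    change lIn C n ((Lc C n).P v.1) + lU C n ((Lc C n).P v.2)
      = (Lc C (n + 1)).P (lIn C n v.1 + lU C n v.2)
    rw [map_add, clk_lIn_P, clk_lU_P]

private theorem clk_qv_kz2 (n : ℤ) (v : (Lc C n).V × (Lc C n).V) :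
    qv C wt (fun _ : Unit => n + 1) ((kz2 C n).f v)
      = qv C wt (fun _ : Unit => n) v.1 + smulR k (Fin 2) Unit (C.u : R)
        (qv C wt (fun _ : Unit => n) v.2) := by
  change qv C wt (fun _ : Unit => n + 1) (lIn C n v.1 + lU C n v.2) = _
  unfold lIn lU
  rw [map_add, qv_qIn, qv_qU]

private theorem clk_qv_kz1 (n : ℤ) (v : (Lc C n).V) :
    qv C wt (fun _ : Unit => n + 1) ((kz1 C n).f v).1
      = -(smulR k (Fin 2) Unit (C.u : R) (qv C wt (fun _ : Unit => n) v)) := by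
  change qv C wt (fun _ : Unit => n + 1) (-(lU C n v)) = _
  unfold lU
  rw [map_neg, qv_qU]

private theorem clk_qv_kz1' (n : ℤ) (v : (Lc C n).V) :
    qv C wt (fun _ : Unit => n + 1) ((kz1 C n).f v).2
      = qv C wt (fun _ : Unit => n) v := by
  change qv C wt (fun _ : Unit => n + 1) (lIn C n v) = qv C wt (fun _ : Unit => n) v
  unfold lIn
  rw [qv_qIn]

private theorem clk_inj (n : ℤ) (x : (Lc C n).V) (hx : (kz1 C n).f x = 0) : x = 0 := q_ext C (by
    have h := clk_qv_kz1' n x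
    rw [hx] at h
    rw [← h]
    exact (map_zero (qv C wt (fun _ : Unit => n + 1))).trans
      (map_zero (qv C wt (fun _ : Unit => n))).symm)

private theorem clk_surj (n : ℤ) (z : (Lc C (n + 1)).V) : ∃ y, (kz2 C n).f y = z := by
  obtain ⟨c, hc, c', hc', h⟩ := koszul_right C (α₁ := wt) (α₂ := wt)
    (β₁ := fun _ : Unit => n) (β₂ := fun _ : Unit => n + 1) (fun i l => by ring)
    (qv_mem C z)
  refine ⟨(qmk C _ _ c hc, qmk C _ _ c' hc'), q_ext C ?_⟩
  rw [clk_qv_kz2, qv_qmk, qv_qmk]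
  exact h.symm

private theorem clk_exact (n : ℤ) (y : (Lc C (n + 1)).V × (Lc C (n + 1)).V)
    (hy : (kz2 C (n + 1)).f y = 0) : ∃ x, (kz1 C n).f x = y := by
  have h0 : qv C wt (fun _ : Unit => n + 1) y.1 + smulR k (Fin 2) Unit (C.u : R)
      (qv C wt (fun _ : Unit => n + 1) y.2) = 0 := by
    rw [← clk_qv_kz2, hy, map_zero]
  obtain ⟨h1, h2⟩ := koszul_mid C (α₀ := wt) (α₁ := wt)
    (β₀ := fun _ : Unit => n) (β₁ := fun _ : Unit => n + 1) (fun i l => by ring)
    (qv_mem C y.1) (qv_mem C y.2) h0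
  refine ⟨qmk C _ _ _ h1, Prod.ext (q_ext C ?_) (q_ext C ?_)⟩
  · rw [clk_qv_kz1, qv_qmk]
    exact h2.symm
  · rw [clk_qv_kz1', qv_qmk]

/-- use `koszul_mid` and `koszul_right` -/
theorem kz_SES (n : ℤ) : SD.SES (kz1 C n) (kz2 C (n + 1)) where
  inj x hx := clk_inj n x hx
  surj z := clk_surj (n + 1) z
  zero x := q_ext C (by
    rw [clk_qv_kz2, clk_qv_kz1, clk_qv_kz1', neg_add_cancel, map_zero])
  exact y hy := clk_exact n y hy

theorem kz1_isHom (n : ℤ) : (qLA C (fun _ : Unit => n)).IsHom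
    ((qLA C (fun _ : Unit => n + 1)).prod (qLA C (fun _ : Unit => n + 1))) (kz1 C n) := by
  intro a v
  refine Prod.ext (q_ext C ?_) (q_ext C ?_)
  · rw [clk_qv_kz1, qv_qLA, LA.prod_act, qv_qLA, clk_qv_kz1, map_neg, ← smulR_right]
  · rw [clk_qv_kz1', LA.prod_act, qv_qLA, qv_qLA, clk_qv_kz1']

theorem kz2_isHom (n : ℤ) : ((qLA C (fun _ : Unit => n)).prod (qLA C (fun _ : Unit => n))).IsHom
    (qLA C (fun _ : Unit => n + 1)) (kz2 C n) := by
  intro a v
  refine q_ext C ?_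
  rw [clk_qv_kz2, LA.prod_act, qv_qLA, qv_qLA, qv_qLA, clk_qv_kz2, map_add, ← smulR_right]

variable (U : Cht C j)

theorem ginv_mem : U.g⁻¹ ∈ U.B := by
  have h := (U.hB 1 1).1 (by
    have h1 := j_mem_S U (C.one_mem_pc U.e (n := 1) (by norm_num))
    rwa [map_one] at h1)
  rwa [zpow_neg, zpow_one, mul_one] at h

theorem ginv_u_mem : U.g⁻¹ * j (C.u : R) ∈ U.B := by
  have h := (U.hB 1 (j (C.u : R))).1 (j_mem_S U (C.u_mem_pc U.e (n := 1) le_rfl))
  rwa [zpow_neg, zpow_one] at h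

/-- `b ↦ (- g⁻¹ u b, g⁻¹ b)` -/
def bk1 : SD.Hom (BU U) ((BU U).prod (BU U)) where
  f := (-(LinearMap.mulLeft k (⟨_, ginv_u_mem U⟩ : U.B))).prod
    (LinearMap.mulLeft k (⟨_, ginv_mem U⟩ : U.B))
  D := fun _ => Prod.ext (map_zero _) (map_zero _)
  P := fun _ => rfl

/-- `(b, b') ↦ g⁻¹ b + g⁻¹ u b'` -/
def bk2 : SD.Hom ((BU U).prod (BU U)) (BU U) where
  f := (LinearMap.mulLeft k (⟨_, ginv_mem U⟩ : U.B)).coprod
    (LinearMap.mulLeft k (⟨_, ginv_u_mem U⟩ : U.B))
  D := fun _ => by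
    change (LinearMap.mulLeft k (⟨_, ginv_mem U⟩ : U.B)) 0
      + (LinearMap.mulLeft k (⟨_, ginv_u_mem U⟩ : U.B)) 0 = 0
    rw [map_zero, map_zero, add_zero]
  P := fun _ => rfl

private theorem clk_bk1 (b : U.B) : (bk1 U).f b
    = ((-((⟨_, ginv_u_mem U⟩ : U.B) * b), (⟨_, ginv_mem U⟩ : U.B) * b) : U.B × U.B) := rfl

private theorem clk_bk2 (b : U.B × U.B) : (bk2 U).f b
    = (⟨_, ginv_mem U⟩ : U.B) * b.1 + (⟨_, ginv_u_mem U⟩ : U.B) * b.2 := rfl

private theorem clk_hg : (⟨_, ginv_mem U⟩ : U.B) = 1 ∨ (⟨_, ginv_u_mem U⟩ : U.B) = 1 := by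
  rcases U.hg with h | h
  · left
    refine Subtype.ext ?_
    change U.g⁻¹ = 1
    rw [h, inv_one]
  · right
    refine Subtype.ext ?_
    change U.g⁻¹ * j (C.u : R) = 1
    rw [← h, inv_mul_cancel₀ U.g0]

theorem bk_SES : SD.SES (bk1 U) (bk2 U) where
  inj b hb := by
    rw [clk_bk1] at hb
    have h1 : -((⟨_, ginv_u_mem U⟩ : U.B) * b) = 0 := congrArg Prod.fst hb
    have h2 : (⟨_, ginv_mem U⟩ : U.B) * b = 0 := congrArg Prod.snd hb
    rcases clk_hg U with h | h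
    · rwa [h, one_mul] at h2
    · rwa [h, one_mul, neg_eq_zero] at h1
  surj z := by
    rcases clk_hg U with h | h
    · refine ⟨(z, (0 : U.B)), ?_⟩
      rw [clk_bk2, h]
      change (1 : U.B) * z + _ * (0 : U.B) = z
      rw [one_mul, mul_zero, add_zero]
    · refine ⟨((0 : U.B), z), ?_⟩
      rw [clk_bk2, h]
      change _ * (0 : U.B) + (1 : U.B) * z = z
      rw [one_mul, mul_zero, zero_add]
  zero b := by
    rw [clk_bk2, clk_bk1]
    generalize (⟨_, ginv_u_mem U⟩ : U.B) = q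
    generalize (⟨_, ginv_mem U⟩ : U.B) = p
    change p * (-(q * (b : U.B))) + q * (p * (b : U.B)) = (0 : U.B)
    ring
  exact b hb := by
    rw [clk_bk2] at hb
    rcases clk_hg U with h | h
    · refine ⟨b.2, ?_⟩
      rw [clk_bk1]
      rw [h] at hb ⊢
      have hb' : (1 : U.B) * (b.1 : U.B) + (⟨_, ginv_u_mem U⟩ : U.B) * b.2 = 0 := hb
      refine Prod.ext ?_ (one_mul _)
      change -((⟨_, ginv_u_mem U⟩ : U.B) * b.2) = b.1
      rw [one_mul] at hb'
      exact (eq_neg_of_add_eq_zero_left hb').symm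
    · refine ⟨-(b.1 : U.B), ?_⟩
      rw [clk_bk1]
      rw [h] at hb ⊢
      have hb' : (⟨_, ginv_mem U⟩ : U.B) * (b.1 : U.B) + (1 : U.B) * b.2 = 0 := hb
      rw [one_mul] at hb'
      refine Prod.ext ?_ ?_
      · change -((1 : U.B) * (-(b.1 : U.B))) = b.1
        rw [one_mul, neg_neg]
      · change (⟨_, ginv_mem U⟩ : U.B) * (-(b.1 : U.B)) = b.2
        rw [mul_neg]
        exact (eq_neg_of_add_eq_zero_right hb').symm

/-- the augmentation of the product of two copies of a column module -/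
def epsQ2 (β : Unit → ℤ) :
    SD.Hom (HC (bPQ U ((qLA C β).prod (qLA C β)))) ((BU U).prod (BU U)) :=
  SD.Hom.pair
    ((epsQ U β).comp (hcT U (l := (qLA C β).prod (qLA C β)) (l' := qLA C β)
      (SD.fst (qSD C wt β) (qSD C wt β)) (fun _ _ => rfl)))
    ((epsQ U β).comp (hcT U (l := (qLA C β).prod (qLA C β)) (l' := qLA C β)
      (SD.snd (qSD C wt β) (qSD C wt β)) (fun _ _ => rfl)))

private theorem clk_h1 (β : Unit → ℤ) : ((qLA C β).prod (qLA C β)).IsHom (colA U Unit)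
    ((evQ U wt β).comp (SD.fst (qSD C wt β) (qSD C wt β))) :=
  fun a v => evQ_isHomL U β a v.1

private theorem clk_h2 (β : Unit → ℤ) : ((qLA C β).prod (qLA C β)).IsHom (colA U Unit)
    ((evQ U wt β).comp (SD.snd (qSD C wt β) (qSD C wt β))) :=
  fun a v => evQ_isHomL U β a v.2

/-- the two components of `epsQ2` -/
private def clkE1 (β : Unit → ℤ) : SD.Hom (HC (bPQ U ((qLA C β).prod (qLA C β)))) (BU U) :=
  eps U ((qLA C β).prod (qLA C β)) ((evQ U wt β).comp (SD.fst (qSD C wt β) (qSD C wt β)))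
    (clk_h1 U β)

private def clkE2 (β : Unit → ℤ) : SD.Hom (HC (bPQ U ((qLA C β).prod (qLA C β)))) (BU U) :=
  eps U ((qLA C β).prod (qLA C β)) ((evQ U wt β).comp (SD.snd (qSD C wt β) (qSD C wt β)))
    (clk_h2 U β)

private theorem clk_epsQ2_fst (β : Unit → ℤ)
    (x : Wd k (((qSD C wt β).prod (qSD C wt β)).tens (QU U)).V (AA C).V) :
    (((epsQ2 U β).f x).1 : U.B) = (clkE1 U β).f x := by
  refine (eps_hcT U ((evQ U wt β).comp (SD.fst (qSD C wt β) (qSD C wt β))) (clk_h1 U β)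
    (evQ U wt β) (evQ_isHomL U β) (SD.fst (qSD C wt β) (qSD C wt β)) (fun _ _ => rfl) 1
    (fun p => ?_) x).trans (one_mul _)
  exact (one_smul U.B _).symm

private theorem clk_epsQ2_snd (β : Unit → ℤ)
    (x : Wd k (((qSD C wt β).prod (qSD C wt β)).tens (QU U)).V (AA C).V) :
    (((epsQ2 U β).f x).2 : U.B) = (clkE2 U β).f x := by
  refine (eps_hcT U ((evQ U wt β).comp (SD.snd (qSD C wt β) (qSD C wt β))) (clk_h2 U β)
    (evQ U wt β) (evQ_isHomL U β) (SD.snd (qSD C wt β) (qSD C wt β)) (fun _ _ => rfl) 1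
    (fun p => ?_) x).trans (one_mul _)
  exact (one_smul U.B _).symm

/-- additivity of the augmentation in the map to the columns -/
private theorem clk_eps_add {P : SD k} {l : LA (AA C) P} (v v1 v2 : SD.Hom P (PU U))
    (hv : l.IsHom (colA U Unit) v) (hv1 : l.IsHom (colA U Unit) v1)
    (hv2 : l.IsHom (colA U Unit) v2) (b1 b2 : U.B)
    (h : ∀ p, (v.f p : Matrix (Fin 2) Unit U.B) = b1 • (v1.f p : Matrix (Fin 2) Unit U.B)
      + b2 • (v2.f p : Matrix (Fin 2) Unit U.B))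
    (x : Wd k (P.tens (QU U)).V (AA C).V) :
    ((eps U l v hv).f x : U.B)
      = b1 * ((eps U l v1 hv1).f x : U.B) + b2 * ((eps U l v2 hv2).f x : U.B) := by
  refine Wd.ext_apply (f := (eps U l v hv).f)
    (g := (LinearMap.mulLeft k b1) ∘ₗ (eps U l v1 hv1).f
      + (LinearMap.mulLeft k b2) ∘ₗ (eps U l v2 hv2).f) (fun n => ?_) (fun w _ r => ?_) x
  · rw [eps_nil]
    change epsL U v n = b1 * ((eps U l v1 hv1).f (Wd.nil n) : U.B)
      + b2 * ((eps U l v2 hv2).f (Wd.nil n) : U.B)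
    rw [eps_nil, eps_nil]
    refine tens_ext (f := epsL U v) (g := LinearMap.mulLeft k b1 ∘ₗ epsL U v1
      + LinearMap.mulLeft k b2 ∘ₗ epsL U v2) (fun p q => ?_) n
    change rowCol U q (v.f p : Matrix (Fin 2) Unit U.B)
      = b1 * rowCol U q (v1.f p : Matrix (Fin 2) Unit U.B)
        + b2 * rowCol U q (v2.f p : Matrix (Fin 2) Unit U.B)
    rw [h p, rowCol_apply, rowCol_apply, rowCol_apply, Matrix.mul_add, Matrix.mul_smul,
      Matrix.mul_smul]
    rfl
  · rw [eps_snoc]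
    change (0 : U.B) = b1 * ((eps U l v1 hv1).f (Wd.snoc w r) : U.B)
      + b2 * ((eps U l v2 hv2).f (Wd.snoc w r) : U.B)
    rw [eps_snoc, eps_snoc]
    change (0 : U.B) = b1 * (0 : U.B) + b2 * (0 : U.B)
    rw [mul_zero, mul_zero, add_zero]

private theorem clk_inl_isHom (β : Unit → ℤ) :
    (qLA C β).IsHom ((qLA C β).prod (qLA C β)) (SD.inl (qSD C wt β) (qSD C wt β)) :=
  fun a _ => Prod.ext rfl (map_zero ((qLA C β).act a)).symm

private theorem clk_snd_isHom (β : Unit → ℤ) :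
    ((qLA C β).prod (qLA C β)).IsHom (qLA C β) (SD.snd (qSD C wt β) (qSD C wt β)) :=
  fun _ _ => rfl

/-- five lemma for `0 → L → L × L → L → 0` -/
theorem epsQ2_QI (β : Unit → ℤ) (h : (epsQ U β).QI) : (epsQ2 U β).QI := by
  have S := hcT_SES U (clk_inl_isHom (C := C) β) (clk_snd_isHom (C := C) β)
    (SD.inl_snd_SES (qSD C wt β) (qSD C wt β))
  refine S.qi_mid (SD.inl_snd_SES (BU U) (BU U)) (a := epsQ U β) (b := epsQ2 U β)
    (c := epsQ U β) (fun x => Prod.ext ?_ ?_) (fun y => rfl) h h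
  · refine (clk_epsQ2_fst U β _).trans ?_
    refine (eps_hcT U (evQ U wt β) (evQ_isHomL U β)
      ((evQ U wt β).comp (SD.fst (qSD C wt β) (qSD C wt β))) (clk_h1 U β)
      (SD.inl (qSD C wt β) (qSD C wt β)) (clk_inl_isHom β) 1 (fun p => ?_) x).trans (one_mul _)
    exact (one_smul U.B _).symm
  · refine (clk_epsQ2_snd U β _).trans ?_
    refine (eps_hcT U (evQ U wt β) (evQ_isHomL U β)
      ((evQ U wt β).comp (SD.snd (qSD C wt β) (qSD C wt β))) (clk_h2 U β)
      (SD.inl (qSD C wt β) (qSD C wt β)) (clk_inl_isHom β) 0 (fun p => ?_) x).trans (zero_mul _)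
    change ((evQ U wt β).f 0 : Matrix (Fin 2) Unit U.B) = _
    rw [map_zero, zero_smul]

private theorem clk_ev_in (n : ℤ) (p : (Lc C n).V) :
    ((evQ U wt (fun _ : Unit => n + 1)).f (lIn C n p) : Matrix (Fin 2) Unit U.B)
      = (⟨_, ginv_mem U⟩ : U.B) • ((evQ U wt (fun _ : Unit => n)).f p :
        Matrix (Fin 2) Unit U.B) := by
  ext i l
  change U.g ^ (-(n + 1 - wt i)) * j (qv C wt (fun _ : Unit => n + 1) (lIn C n p) U.e i l)
    = U.g⁻¹ * (U.g ^ (-(n - wt i)) * j (qv C wt (fun _ : Unit => n) p U.e i l))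
  unfold lIn
  rw [qv_qIn, ← mul_assoc]
  congr 1
  rw [← zpow_neg_one, ← zpow_add₀ U.g0]
  congr 1
  ring

private theorem clk_ev_U (n : ℤ) (p : (Lc C n).V) :
    ((evQ U wt (fun _ : Unit => n + 1)).f (lU C n p) : Matrix (Fin 2) Unit U.B)
      = (⟨_, ginv_u_mem U⟩ : U.B) • ((evQ U wt (fun _ : Unit => n)).f p :
        Matrix (Fin 2) Unit U.B) := by
  ext i l
  change U.g ^ (-(n + 1 - wt i)) * j (qv C wt (fun _ : Unit => n + 1) (lU C n p) U.e i l)
    = U.g⁻¹ * j (C.u : R) * (U.g ^ (-(n - wt i)) * j (qv C wt (fun _ : Unit => n) p U.e i l))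
  unfold lU
  rw [qv_qU, smulR_apply, map_mul]
  have h : U.g ^ (-(n + 1 - wt i)) = U.g⁻¹ * U.g ^ (-(n - wt i)) := by
    rw [← zpow_neg_one, ← zpow_add₀ U.g0]
    congr 1
    ring
  rw [h]
  ring

/-- five lemma (`SD.SES.qi_right`) for the Koszul sequence -/
theorem cl_step (n : ℤ) (h0 : (epsQ U (fun _ : Unit => n)).QI)
    (h1 : (epsQ U (fun _ : Unit => n + 1)).QI) : (epsQ U (fun _ : Unit => n + 1 + 1)).QI := by
  have S := hcT_SES U (kz1_isHom (C := C) n) (kz2_isHom (C := C) (n + 1)) (kz_SES n)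
  refine S.qi_right (bk_SES U) (a := epsQ U (fun _ : Unit => n))
    (b := epsQ2 U (fun _ : Unit => n + 1)) (c := epsQ U (fun _ : Unit => n + 1 + 1))
    (fun x => ?_) (fun y => ?_) h0 (epsQ2_QI U _ h1)
  · rw [clk_bk1]
    refine Prod.ext ?_ ?_
    · refine (clk_epsQ2_fst U _ _).trans ?_
      refine (eps_hcT U (evQ U wt (fun _ : Unit => n)) (evQ_isHomL U (fun _ : Unit => n))
        ((evQ U wt (fun _ : Unit => n + 1)).comp (SD.fst (Lc C (n + 1)) (Lc C (n + 1))))
        (clk_h1 U _) (kz1 C n) (kz1_isHom n) (-(⟨_, ginv_u_mem U⟩ : U.B)) (fun p => ?_) x).trans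
        (neg_mul _ _)
      change ((evQ U wt (fun _ : Unit => n + 1)).f (-(lU C n p)) : Matrix (Fin 2) Unit U.B) = _
      rw [map_neg, clk_ev_U, neg_smul]
    · refine (clk_epsQ2_snd U _ _).trans ?_
      refine eps_hcT U (evQ U wt (fun _ : Unit => n)) (evQ_isHomL U (fun _ : Unit => n))
        ((evQ U wt (fun _ : Unit => n + 1)).comp (SD.snd (Lc C (n + 1)) (Lc C (n + 1))))
        (clk_h2 U _) (kz1 C n) (kz1_isHom n) (⟨_, ginv_mem U⟩ : U.B) (fun p => ?_) x
      exact clk_ev_in U n p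
  · rw [clk_bk2]
    have hv : ((qLA C (fun _ : Unit => n + 1)).prod (qLA C (fun _ : Unit => n + 1))).IsHom
        (colA U Unit) ((evQ U wt (fun _ : Unit => n + 1 + 1)).comp (kz2 C (n + 1))) := by
      intro a p
      change (evQ U wt (fun _ : Unit => n + 1 + 1)).f ((kz2 C (n + 1)).f _) = _
      rw [kz2_isHom (n + 1) a p, evQ_isHomL U (fun _ : Unit => n + 1 + 1) a]
      rfl
    refine (eps_hcT U ((evQ U wt (fun _ : Unit => n + 1 + 1)).comp (kz2 C (n + 1))) hv
      (evQ U wt (fun _ : Unit => n + 1 + 1)) (evQ_isHomL U (fun _ : Unit => n + 1 + 1))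
      (kz2 C (n + 1)) (kz2_isHom (n + 1)) 1 (fun p => (one_smul U.B _).symm) y).trans ?_
    rw [one_mul]
    refine (clk_eps_add U _ _ _ hv (clk_h1 U (fun _ : Unit => n + 1))
      (clk_h2 U (fun _ : Unit => n + 1)) (⟨_, ginv_mem U⟩ : U.B) (⟨_, ginv_u_mem U⟩ : U.B)
      (fun p => ?_) y).trans ?_
    · change ((evQ U wt (fun _ : Unit => n + 1 + 1)).f (lIn C (n + 1) p.1 + lU C (n + 1) p.2) :
        Matrix (Fin 2) Unit U.B) = _
      rw [map_add, clk_ev_in, clk_ev_U]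
      rfl
    · have e1 := clk_epsQ2_fst U (fun _ : Unit => n + 1) y
      have e2 := clk_epsQ2_snd U (fun _ : Unit => n + 1) y
      rw [e1, e2]
      rfl

/-- **the augmentation is a quasi-isomorphism for the column module `L n`** -/
theorem cl_nat (n : ℕ) : (epsQ U (fun _ : Unit => (n : ℤ))).QI := by
  have key : (epsQ U (fun _ : Unit => (n : ℤ))).QI ∧ (epsQ U (fun _ : Unit => (n : ℤ) + 1)).QI := by
    induction n with
    | zero =>
      refine ⟨?_, ?_⟩
      · have h := cl_col U 0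
        have e : wt 0 = ((0 : ℕ) : ℤ) := rfl
        rwa [e] at h
      · have h := cl_col U 1
        have e : wt 1 = ((0 : ℕ) : ℤ) + 1 := rfl
        rwa [e] at h
    | succ n ih =>
      have e : ((n + 1 : ℕ) : ℤ) = (n : ℤ) + 1 := by push_cast; rfl
      rw [e]
      exact ⟨ih.2, cl_step U n ih.1 ih.2⟩
  exact key.1

end H36.NX
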