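import Pool.Agent.H15.NX.ClK
import Pool.Agent.H15.NC.Chase

/-!
# ClU : localisation, the augmentation for the left module of columns over the chart

`P∞ = fSD U.T wt 0` is the union of the images of `f ↦ τ^(-m) f : L (m d) → P∞`, and evaluation `P∞ → P_U` is a
quasi-isomorphism.
-/

set_option autoImplicit false

open NC
open scoped TensorProduct

noncomputable section

namespace NC

variable {k : Type} [Field k]

theorem tens_exhaust {X : Type} [AddCommGroup X] [Module k X] {Y : ℕ → Type}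
    [∀ m, AddCommGroup (Y m)] [∀ m, Module k (Y m)] (f : ∀ m, Y m →ₗ[k] X)
    (hm : ∀ m, LinearMap.range (f m) ≤ LinearMap.range (f (m + 1)))
    (he : ∀ x, ∃ m, x ∈ LinearMap.range (f m)) (Q : Type) [AddCommGroup Q] [Module k Q] :
    (∀ m, LinearMap.range (TensorProduct.map (f m) (LinearMap.id : Q →ₗ[k] Q))
      ≤ LinearMap.range (TensorProduct.map (f (m + 1)) (LinearMap.id : Q →ₗ[k] Q))) ∧
    ∀ z : X ⊗[k] Q, ∃ m, z ∈ LinearMap.range (TensorProduct.map (f m) (LinearMap.id : Q →ₗ[k] Q)) := by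
  have hmono : ∀ m, LinearMap.range (TensorProduct.map (f m) (LinearMap.id : Q →ₗ[k] Q))
      ≤ LinearMap.range (TensorProduct.map (f (m + 1)) (LinearMap.id : Q →ₗ[k] Q)) := by
    rintro m _ ⟨w, rfl⟩
    induction w using TensorProduct.induction_on with
    | zero => rw [map_zero]; exact Submodule.zero_mem _
    | tmul y q =>
      obtain ⟨y', hy'⟩ := hm m ⟨y, rfl⟩
      refine ⟨y' ⊗ₜ q, ?_⟩
      rw [TensorProduct.map_tmul, TensorProduct.map_tmul, hy']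
    | add a b ha hb => rw [map_add]; exact Submodule.add_mem _ ha hb
  refine ⟨hmono, fun z => ?_⟩
  have hmono' := monotone_nat_of_le_succ (f := fun m => LinearMap.range
    (TensorProduct.map (f m) (LinearMap.id : Q →ₗ[k] Q))) hmono
  induction z using TensorProduct.induction_on with
  | zero => exact ⟨0, Submodule.zero_mem _⟩
  | tmul x q =>
    obtain ⟨m, y, hy⟩ := he x
    exact ⟨m, y ⊗ₜ q, by rw [TensorProduct.map_tmul, hy, LinearMap.id_apply]⟩
  | add a b ha hb =>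
    obtain ⟨m, ha⟩ := ha
    obtain ⟨n, hb⟩ := hb
    exact ⟨max m n, Submodule.add_mem _ (hmono' (le_max_left m n) ha)
      (hmono' (le_max_right m n) hb)⟩

theorem wd_exhaust {X : Type} [AddCommGroup X] [Module k X] {Y : ℕ → Type}
    [∀ m, AddCommGroup (Y m)] [∀ m, Module k (Y m)] (f : ∀ m, Y m →ₗ[k] X)
    (hm : ∀ m, LinearMap.range (f m) ≤ LinearMap.range (f (m + 1)))
    (he : ∀ x, ∃ m, x ∈ LinearMap.range (f m)) (Q : Type) [AddCommGroup Q] [Module k Q] :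
    ∀ w : Wd k X Q, ∃ m, w ∈ LinearMap.range (Wd.mh Q (f m)) := by
  have hmono : ∀ m, LinearMap.range (Wd.mh Q (f m)) ≤ LinearMap.range (Wd.mh Q (f (m + 1))) := by
    rintro m _ ⟨w, rfl⟩
    induction w using Wd.induction with
    | hadd a b ha hb => rw [map_add]; exact Submodule.add_mem _ ha hb
    | hnil n =>
      obtain ⟨y', hy'⟩ := hm m ⟨n, rfl⟩
      exact ⟨Wd.nil y', by rw [Wd.mh_nil, Wd.mh_nil, hy']⟩
    | hsnoc w hw r =>
      obtain ⟨w', hw'⟩ := hw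
      exact ⟨Wd.snoc w' r, by rw [Wd.mh_snoc, Wd.mh_snoc, hw']⟩
  have hmono' := monotone_nat_of_le_succ (f := fun m => LinearMap.range (Wd.mh Q (f m))) hmono
  intro w
  induction w using Wd.induction with
  | hadd a b ha hb =>
    obtain ⟨m, ha⟩ := ha
    obtain ⟨n, hb⟩ := hb
    exact ⟨max m n, Submodule.add_mem _ (hmono' (le_max_left m n) ha)
      (hmono' (le_max_right m n) hb)⟩
  | hnil n =>
    obtain ⟨m, y, hy⟩ := he n
    exact ⟨m, Wd.nil y, by rw [Wd.mh_nil, hy]⟩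
  | hsnoc w hw r =>
    obtain ⟨m, w', hw'⟩ := hw
    exact ⟨m, Wd.snoc w' r, by rw [Wd.mh_snoc, hw']⟩

end NC

namespace H36.NX

variable {k : Type} [Field k] {t : k} {R : Type} [CommRing R] [Algebra k R]
  {F : Type} [Field F] [Algebra k F] {C : CubicRing k t R} {j : R →ₐ[k] F} (U : Cht C j)

/-- weights of a column -/
abbrev cw (n : ℤ) : Unit → ℤ := fun _ => n

theorem iTau_mem (m : ℕ) (f : (qSD C wt (cw ((m : ℤ) * U.d))).V) (s : Pc) (i : Fin 2) (l : Unit) :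
    (j U.τ)⁻¹ ^ m * j (qv C wt (cw ((m : ℤ) * U.d)) f s i l) ∈ U.T.S s (cw 0 l - wt i) := by
  refine (U.hloc s _ _).2 ⟨m, qv C wt (cw ((m : ℤ) * U.d)) f s i l, ?_, ?_⟩
  · have h := qv_mem C f s i l
    have e : cw ((m : ℤ) * U.d) l - wt i = cw 0 l - wt i + m * U.d := by
      change (m : ℤ) * U.d - wt i = 0 - wt i + m * U.d
      ring
    rwa [e] at h
  · rw [← mul_assoc, ← mul_pow, mul_inv_cancel₀ U.τ0, one_pow, one_mul]

/-- `f ↦ τ^(-m) f` -/
def iTau (m : ℕ) : SD.Hom (qSD C wt (cw ((m : ℤ) * U.d))) (fSD U.T wt (cw 0)) where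
  f :=
    { toFun := fun f => fmk U.T wt (cw 0)
        (fun s => Matrix.of (fun i l => (j U.τ)⁻¹ ^ m * j (qv C wt (cw ((m : ℤ) * U.d)) f s i l)))
        (fun s i l => iTau_mem U m f s i l)
      map_add' := fun f f' => f_ext U.T (by
        funext s
        ext i l
        have e := map_add (qv C wt (cw ((m : ℤ) * U.d))) f f'
        change (j U.τ)⁻¹ ^ m * j (qv C wt (cw ((m : ℤ) * U.d)) (f + f') s i l)
          = (j U.τ)⁻¹ ^ m * j (qv C wt (cw ((m : ℤ) * U.d)) f s i l)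
            + (j U.τ)⁻¹ ^ m * j (qv C wt (cw ((m : ℤ) * U.d)) f' s i l)
        rw [e, ← mul_add]
        exact congrArg _ (map_add j _ _))
      map_smul' := fun c f => f_ext U.T (by
        funext s
        ext i l
        have e := map_smul (qv C wt (cw ((m : ℤ) * U.d))) c f
        change (j U.τ)⁻¹ ^ m * j (qv C wt (cw ((m : ℤ) * U.d)) (c • f) s i l)
          = c • ((j U.τ)⁻¹ ^ m * j (qv C wt (cw ((m : ℤ) * U.d)) f s i l))
        rw [e, ← mul_smul_comm]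
        exact congrArg _ (map_smul j _ _)) }
  D := fun f => f_ext U.T (by
    funext s
    ext i l
    cases s with
    | X =>
      change (j U.τ)⁻¹ ^ m * j 0 = 0
      rw [map_zero, mul_zero]
    | Y =>
      change (j U.τ)⁻¹ ^ m * j 0 = 0
      rw [map_zero, mul_zero]
    | R =>
      change (j U.τ)⁻¹ ^ m * j (qv C wt (cw ((m : ℤ) * U.d)) f Pc.Y i l
          - qv C wt (cw ((m : ℤ) * U.d)) f Pc.X i l)
        = (j U.τ)⁻¹ ^ m * j (qv C wt (cw ((m : ℤ) * U.d)) f Pc.Y i l)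
          - (j U.τ)⁻¹ ^ m * j (qv C wt (cw ((m : ℤ) * U.d)) f Pc.X i l)
      rw [map_sub, mul_sub])
  P := fun f => f_ext U.T (by
    funext s
    ext i l
    cases s with
    | X => rfl
    | Y => rfl
    | R =>
      change (j U.τ)⁻¹ ^ m * j 0 = 0
      rw [map_zero, mul_zero])

theorem ClU_fv (m : ℕ) (f : (qSD C wt (cw ((m : ℤ) * U.d))).V) (s : Pc) (i : Fin 2) (l : Unit) :
    fv U.T wt (cw 0) ((iTau U m).f f) s i l
      = (j U.τ)⁻¹ ^ m * j (qv C wt (cw ((m : ℤ) * U.d)) f s i l) := rfl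

private theorem ClU_qext {n : ℤ} {f g : (qSD C wt (cw n)).V}
    (h : ∀ s i l, qv C wt (cw n) f s i l = qv C wt (cw n) g s i l) : f = g :=
  q_ext C (by
    funext s
    ext i l
    exact h s i l)

private theorem ClU_fext {f g : (fSD U.T wt (cw 0)).V}
    (h : ∀ s i l, fv U.T wt (cw 0) f s i l = fv U.T wt (cw 0) g s i l) : f = g :=
  f_ext U.T (by
    funext s
    ext i l
    exact h s i l)

private theorem ClU_tpow_mem (s : Pc) (n : ℕ) : U.τ ^ n ∈ C.pc s ((n : ℤ) * U.d) := by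
  induction n with
  | zero =>
    rw [pow_zero]
    exact C.one_mem_pc s (by simp)
  | succ n ih =>
    rw [pow_succ]
    have h := C.pc_mul_mem s ih (U.hτ s)
    have e : (n : ℤ) * U.d + U.d = ((n + 1 : ℕ) : ℤ) * U.d := by push_cast; ring
    rwa [e] at h

theorem iTau_injective (m : ℕ) : Function.Injective (iTau U m).f := by
  intro f g h
  refine ClU_qext (fun s i l => ?_)
  have h1 : fv U.T wt (cw 0) ((iTau U m).f f) s i l = fv U.T wt (cw 0) ((iTau U m).f g) s i l := by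
    rw [h]
  rw [ClU_fv, ClU_fv] at h1
  exact U.jinj (mul_left_cancel₀ (pow_ne_zero m (inv_ne_zero U.τ0)) h1)

theorem iTau_isHom (m : ℕ) :
    (qLA C (cw ((m : ℤ) * U.d))).IsHom (fLA U.T (cw 0)) (iTau U m) := by
  intro a y
  refine ClU_fext U (fun s i l => ?_)
  have key : ∀ (M : Matrix (Fin 2) (Fin 2) R) (N : Matrix (Fin 2) Unit R),
      (j U.τ)⁻¹ ^ m * j ((M * N) i l)
        = (M.map j * Matrix.of (fun i l => (j U.τ)⁻¹ ^ m * j (N i l))) i l := by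
    intro M N
    rw [Matrix.mul_apply, Matrix.mul_apply, map_sum, Finset.mul_sum]
    refine Finset.sum_congr rfl (fun x _ => ?_)
    rw [map_mul, Matrix.map_apply, Matrix.of_apply]
    ring
  cases s with
  | X => exact key (qv C wt wt a Pc.X) (qv C wt (cw ((m : ℤ) * U.d)) y Pc.X)
  | Y => exact key (qv C wt wt a Pc.Y) (qv C wt (cw ((m : ℤ) * U.d)) y Pc.Y)
  | R =>
    have h1 := key (qv C wt wt a Pc.X) (qv C wt (cw ((m : ℤ) * U.d)) y Pc.R)
    have h2 := key (qv C wt wt a Pc.R) (qv C wt (cw ((m : ℤ) * U.d)) y Pc.Y)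
    have h3 := congrArg₂ (· + ·) h1 h2
    have h4 : (j U.τ)⁻¹ ^ m * j ((qv C wt wt a Pc.X * qv C wt (cw ((m : ℤ) * U.d)) y Pc.R) i l)
        + (j U.τ)⁻¹ ^ m * j ((qv C wt wt a Pc.R * qv C wt (cw ((m : ℤ) * U.d)) y Pc.Y) i l)
        = (j U.τ)⁻¹ ^ m * j ((qv C wt wt a Pc.X * qv C wt (cw ((m : ℤ) * U.d)) y Pc.R) i l
          + (qv C wt wt a Pc.R * qv C wt (cw ((m : ℤ) * U.d)) y Pc.Y) i l) := by
      rw [map_add, mul_add]
    exact h4.symm.trans h3

theorem iTau_mono (m : ℕ) :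
    LinearMap.range (iTau U m).f ≤ LinearMap.range (iTau U (m + 1)).f := by
  rintro _ ⟨f, rfl⟩
  refine ⟨qmk C wt (cw (((m + 1 : ℕ) : ℤ) * U.d))
    (fun s => Matrix.of (fun i l => U.τ * qv C wt (cw ((m : ℤ) * U.d)) f s i l)) ?_, ?_⟩
  · intro s i l
    have h := C.pc_mul_mem s (U.hτ s) (qv_mem C f s i l)
    have e : (U.d : ℤ) + (cw ((m : ℤ) * U.d) l - wt i)
        = cw (((m + 1 : ℕ) : ℤ) * U.d) l - wt i := by
      change (U.d : ℤ) + ((m : ℤ) * U.d - wt i) = ((m + 1 : ℕ) : ℤ) * U.d - wt i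
      push_cast
      ring
    rw [e] at h
    exact h
  · refine ClU_fext U (fun s i l => ?_)
    rw [ClU_fv, ClU_fv]
    change (j U.τ)⁻¹ ^ (m + 1) * j (U.τ * qv C wt (cw ((m : ℤ) * U.d)) f s i l) = _
    rw [map_mul, pow_succ, mul_assoc, inv_mul_cancel_left₀ U.τ0]

theorem iTau_exhaust (x : (fSD U.T wt (cw 0)).V) : ∃ m, x ∈ LinearMap.range (iTau U m).f := by
  have h1 : ∀ a : Pc × Fin 2 × Unit, ∃ (m : ℕ) (r : R),
      r ∈ C.pc a.1 (cw 0 a.2.2 - wt a.2.1 + m * U.d) ∧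
      (j U.τ) ^ m * fv U.T wt (cw 0) x a.1 a.2.1 a.2.2 = j r :=
    fun a => (U.hloc a.1 _ _).1 (fv_mem U.T x a.1 a.2.1 a.2.2)
  choose m r hr he using h1
  obtain ⟨N, hN⟩ : ∃ N : ℕ, ∀ a, m a ≤ N :=
    ⟨∑ a, m a, fun a => Finset.single_le_sum (fun _ _ => Nat.zero_le _) (Finset.mem_univ a)⟩
  refine ⟨N, qmk C wt (cw ((N : ℤ) * U.d))
    (fun s => Matrix.of (fun i l => U.τ ^ (N - m (s, i, l)) * r (s, i, l))) ?_, ?_⟩
  · intro s i l
    have h := C.pc_mul_mem s (ClU_tpow_mem U s (N - m (s, i, l))) (hr (s, i, l))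
    have e : ((N - m (s, i, l) : ℕ) : ℤ) * U.d
        + (cw 0 (s, i, l).2.2 - wt (s, i, l).2.1 + m (s, i, l) * U.d)
        = cw ((N : ℤ) * U.d) l - wt i := by
      change ((N - m (s, i, l) : ℕ) : ℤ) * U.d + (0 - wt i + m (s, i, l) * U.d)
        = (N : ℤ) * U.d - wt i
      rw [Nat.cast_sub (hN _)]
      ring
    rw [e] at h
    exact h
  · refine ClU_fext U (fun s i l => ?_)
    rw [ClU_fv]
    change (j U.τ)⁻¹ ^ N * j (U.τ ^ (N - m (s, i, l)) * r (s, i, l)) = _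
    rw [map_mul, ← he (s, i, l), map_pow, ← mul_assoc (j U.τ ^ (N - m (s, i, l))), ← pow_add,
      Nat.sub_add_cancel (hN _), ← mul_assoc, ← mul_pow, inv_mul_cancel₀ U.τ0, one_pow, one_mul]

/-- evaluation of `τ^(-m) f` -/
theorem evF_iTau (m : ℕ) : ∃ b b' : U.B, b * b' = 1 ∧
    ∀ f : (qSD C wt (cw ((m : ℤ) * U.d))).V,
      ((evF U wt (cw 0)).f ((iTau U m).f f) : Matrix (Fin 2) Unit U.B)
        = b • ((evQ U wt (cw ((m : ℤ) * U.d))).f f : Matrix (Fin 2) Unit U.B) := by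
  have hb : U.g ^ ((m : ℤ) * U.d) * (j U.τ)⁻¹ ^ m ∈ U.B := by
    have h1 : (j U.τ)⁻¹ ^ m ∈ U.T.S U.e (-((m : ℤ) * U.d)) := by
      refine (U.hloc U.e _ _).2 ⟨m, 1, C.one_mem_pc U.e (by simp), ?_⟩
      rw [← mul_pow, mul_inv_cancel₀ U.τ0, one_pow, map_one]
    have h2 := (U.hB _ _).1 h1
    rwa [neg_neg] at h2
  have hb' : U.g ^ (-((m : ℤ) * U.d)) * (j U.τ) ^ m ∈ U.B := by
    have h1 : j (U.τ ^ m) ∈ U.T.S U.e ((m : ℤ) * U.d) := j_mem_S U (ClU_tpow_mem U U.e m)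
    rw [map_pow] at h1
    exact (U.hB _ _).1 h1
  refine ⟨⟨_, hb⟩, ⟨_, hb'⟩, ?_, fun f => ?_⟩
  · apply Subtype.ext
    change (U.g ^ ((m : ℤ) * U.d) * (j U.τ)⁻¹ ^ m) * (U.g ^ (-((m : ℤ) * U.d)) * (j U.τ) ^ m) = 1
    have e1 : U.g ^ ((m : ℤ) * U.d) * U.g ^ (-((m : ℤ) * U.d)) = 1 := by
      rw [← zpow_add₀ U.g0, add_neg_cancel, zpow_zero]
    have e2 : (j U.τ)⁻¹ ^ m * (j U.τ) ^ m = 1 := by
      rw [← mul_pow, inv_mul_cancel₀ U.τ0, one_pow]
    calc (U.g ^ ((m : ℤ) * U.d) * (j U.τ)⁻¹ ^ m) * (U.g ^ (-((m : ℤ) * U.d)) * (j U.τ) ^ m)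
        = (U.g ^ ((m : ℤ) * U.d) * U.g ^ (-((m : ℤ) * U.d)))
          * ((j U.τ)⁻¹ ^ m * (j U.τ) ^ m) := by ring
      _ = 1 := by rw [e1, e2, one_mul]
  · ext i l
    change U.g ^ (-((0 : ℤ) - wt i)) * ((j U.τ)⁻¹ ^ m
        * j (qv C wt (cw ((m : ℤ) * U.d)) f U.e i l))
      = (U.g ^ ((m : ℤ) * U.d) * (j U.τ)⁻¹ ^ m)
        * (U.g ^ (-(((m : ℤ) * U.d) - wt i)) * j (qv C wt (cw ((m : ℤ) * U.d)) f U.e i l))
    have e1 : U.g ^ (-((0 : ℤ) - wt i))
        = U.g ^ ((m : ℤ) * U.d) * U.g ^ (-(((m : ℤ) * U.d) - wt i)) := by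
      rw [← zpow_add₀ U.g0]
      congr 1
      ring
    rw [e1]
    ring

/-- the augmentation of `P∞` -/
def epsInf : SD.Hom (HC (bPQ U (fLA U.T (cw 0)))) (BU U) :=
  eps U (fLA U.T (cw 0)) (evF U wt (cw 0)) (evF_isHomL U (cw 0))

/-- `SD.Hom.QI.of_union`, `eps_hcT`, `QI_of_mul`, `cl_nat` -/
theorem cl_inf : (epsInf U).QI := by
  have hte := tens_exhaust (fun m => (iTau U m).f) (fun m => iTau_mono U m)
    (fun x => iTau_exhaust U x) (Matrix Unit (Fin 2) U.B)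
  refine SD.Hom.QI.of_union (fun m : ℕ => HC (bPQ U (qLA C (cw ((m : ℤ) * U.d)))))
    (fun m => hcT U (iTau U m) (iTau_isHom U m)) (epsInf U) ?_ ?_ ?_
  · intro m
    refine Wd.mh_injective ?_
    obtain ⟨g, hg⟩ := (iTau U m).f.exists_leftInverse_of_injective
      (LinearMap.ker_eq_bot.2 (iTau_injective U m))
    intro a b hab
    have h := congrArg (TensorProduct.map g (LinearMap.id : Matrix Unit (Fin 2) U.B →ₗ[k] _)) hab
    have key : ∀ x : (qSD C wt (cw ((m : ℤ) * U.d))).V ⊗[k] Matrix Unit (Fin 2) U.B,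
        TensorProduct.map g (LinearMap.id : Matrix Unit (Fin 2) U.B →ₗ[k] _)
          (TensorProduct.map (iTau U m).f
            (LinearMap.id : Matrix Unit (Fin 2) U.B →ₗ[k] _) x) = x := by
      intro x
      rw [← LinearMap.comp_apply, ← TensorProduct.map_comp, hg, LinearMap.id_comp,
        TensorProduct.map_id, LinearMap.id_apply]
    exact (key a).symm.trans (h.trans (key b))
  · intro x
    obtain ⟨m, w, hw⟩ := wd_exhaust
      (fun m => TensorProduct.map (iTau U m).f (LinearMap.id : Matrix Unit (Fin 2) U.B →ₗ[k] _))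
      hte.1 hte.2 (AA C).V x
    exact ⟨m, w, hw⟩
  · intro m
    obtain ⟨b, b', hbb, hev⟩ := evF_iTau U m
    have hq : (epsQ U (cw ((m : ℤ) * U.d))).QI := by
      have h := cl_nat U (m * U.d)
      have e : ((m * U.d : ℕ) : ℤ) = (m : ℤ) * U.d := by push_cast; rfl
      rw [e] at h
      exact h
    refine QI_of_mul U (epsQ U (cw ((m : ℤ) * U.d))) _ b b' hbb ?_ hq
    intro x
    exact eps_hcT U (evQ U wt (cw ((m : ℤ) * U.d))) (evQ_isHomL U (cw ((m : ℤ) * U.d)))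
      (evF U wt (cw 0)) (evF_isHomL U (cw 0)) (iTau U m) (iTau_isHom U m) b hev x

theorem colA_id : (colA U Unit).IsHom (colA U Unit) (SD.Hom.id (PU U)) := fun _ _ => rfl

/-- the augmentation of `P_U` -/
def epsU : SD.Hom (HC (bPQ U (colA U Unit))) (BU U) :=
  eps U (colA U Unit) (SD.Hom.id (PU U)) (colA_id U)

@[simp] theorem epsU_nil (p : Matrix (Fin 2) Unit U.B) (q : Matrix Unit (Fin 2) U.B) :
    (epsU U).f (Wd.nil (p ⊗ₜ q)) = rowCol U q p :=
  (eps_nil U (colA U Unit) (SD.Hom.id (PU U)) (colA_id U) (p ⊗ₜ q)).trans rfl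

/-- **the augmentation `HC (P_U ⊗ Q_U) → B` is a quasi-isomorphism** (`cl_inf`, `evF_QI`, `hcT_QI`) -/
theorem cl_U : (epsU U).QI := by
  have h1 : (hcT U (evF U wt (cw 0)) (evF_isHomL U (cw 0))).QI :=
    hcT_QI U (evF_isHomL U (cw 0)) (evF_QI U wt (cw 0))
  refine SD.Hom.QI.of_comp_right h1 ((cl_inf U).congr (fun x => ?_))
  have h2 := eps_hcT U (evF U wt (cw 0)) (evF_isHomL U (cw 0)) (SD.Hom.id (PU U)) (colA_id U)
    (evF U wt (cw 0)) (evF_isHomL U (cw 0)) 1 (fun p => (one_smul U.B _).symm) x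
  rw [one_mul] at h2
  exact h2.symm

end H36.NX
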