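import Pool.Agent.H36.NX.Mul

/-!
# Der : the derivation `∂/∂u` of `R`, in characteristic 3: `∂ u = 1`, `∂ w = u`
-/

set_option autoImplicit false

namespace H36.NX

variable {k : Type} [Field k] {t : k} {R : Type} [CommRing R] [Algebra k R]

/-- Define `∂` on the basis by `∂ (u^m w^a) = m u^(m-1) w^a + a u^(m+1) w^(a-1)`. The same formula holds for
`a = 3, 4` (use the relation and `3 = 0`; for `a = 3` the second term is `0`), which gives the Leibniz rule on basis
elements. -/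
theorem exists_der (C : CubicRing k t R) [CharP k 3] : ∃ der : R →ₗ[k] R,
    (∀ a b, der (a * b) = a * der b + der a * b) ∧ der (C.u : R) = 1 ∧ der C.w = (C.u : R) := by
  classical
  let D : ℤ → ℕ → R := fun m j => (m : R) * ((C.u ^ (m - 1) : Rˣ) : R) * C.w ^ j +
    (j : R) * ((C.u ^ (m + 1) : Rˣ) : R) * C.w ^ (j - 1)
  have hDdef : ∀ m j, D m j = (m : R) * ((C.u ^ (m - 1) : Rˣ) : R) * C.w ^ j +
    (j : R) * ((C.u ^ (m + 1) : Rˣ) : R) * C.w ^ (j - 1) := fun _ _ => rfl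
  have h3 : (3 : R) = 0 := by
    have h : ((3 : ℕ) : k) = 0 := CharP.cast_eq_zero k 3
    have h' := congrArg (algebraMap k R) h
    rw [map_zero, map_natCast] at h'
    exact_mod_cast h'
  let der : R →ₗ[k] R := C.bas.constr k (fun q => D q.1 (q.2 : ℕ))
  have hb : ∀ (m : ℤ) (a : Fin 3), der (C.bas (m, a)) = D m (a : ℕ) := fun m a =>
    C.bas.constr_basis k _ _
  have hu1 : ∀ m : ℤ, ((C.u ^ m : Rˣ) : R) = ((C.u ^ (m - 1) : Rˣ) : R) * (C.u : R) := by
    intro m
    have h := CubicRing.Mul_upow_add C (m - 1) 1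
    rw [pow_one] at h
    rw [← h]
    congr 2
    push_cast
    ring
  have hu2 : ∀ m : ℤ, ∀ j : ℕ, ((C.u ^ (m + (j : ℤ)) : Rˣ) : R) =
      ((C.u ^ (m - 1) : Rˣ) : R) * (C.u : R) ^ (j + 1) := by
    intro m j
    rw [CubicRing.Mul_upow_add, hu1 m]
    ring
  have hu2' : ∀ m : ℤ, ∀ j : ℕ, ((C.u ^ (m + (j : ℤ) - 1) : Rˣ) : R) =
      ((C.u ^ (m - 1) : Rˣ) : R) * (C.u : R) ^ j := by
    intro m j
    rw [← CubicRing.Mul_upow_add]
    congr 2
    ring
  have hu2s : ∀ m : ℤ, ((C.u ^ (m + 1) : Rˣ) : R) =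
      ((C.u ^ (m - 1) : Rˣ) : R) * (C.u : R) ^ 2 := fun m => by
    have := hu2 m 1
    exact_mod_cast this
  have hD0 : ∀ m : ℤ, D m 0 = (m : R) * ((C.u ^ (m - 1) : Rˣ) : R) := by
    intro m; rw [hDdef]; push_cast; ring
  have hD1 : ∀ m : ℤ, D m 1 = (m : R) * ((C.u ^ (m - 1) : Rˣ) : R) * C.w +
      ((C.u ^ (m - 1) : Rˣ) : R) * (C.u : R) ^ 2 := by
    intro m; rw [hDdef, hu2s]; push_cast; ring
  have hD2 : ∀ m : ℤ, D m 2 = (m : R) * ((C.u ^ (m - 1) : Rˣ) : R) * C.w ^ 2 +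
      2 * (((C.u ^ (m - 1) : Rˣ) : R) * (C.u : R) ^ 2) * C.w := by
    intro m; rw [hDdef, hu2s]; push_cast; ring
  have hP : ∀ (m : ℤ) (j : ℕ), j ≤ 4 → der (((C.u ^ m : Rˣ) : R) * C.w ^ j) = D m j := by
    intro m j hj
    have hj5 : j = 0 ∨ j = 1 ∨ j = 2 ∨ j = 3 ∨ j = 4 := by omega
    have rel := C.rel
    rcases hj5 with rfl | rfl | rfl | rfl | rfl
    · rw [pow_zero, mul_one, ← CubicRing.Mul_bas0, hb]; rfl
    · rw [pow_one, ← CubicRing.Mul_bas1, hb]; rfl
    · rw [← CubicRing.Mul_bas2, hb]; rfl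
    · have e3 := hu2' m 3
      have e2 := hu2' m 2
      push_cast at e3 e2
      have k0 : der (C.bas (m, 0)) = D m 0 := hb _ _
      have k1 : der (C.bas (m, 1)) = D m 1 := hb _ _
      have k2 : der (C.bas (m + 3, 0)) = D (m + 3) 0 := hb _ _
      have k3 : der (C.bas (m + 2, 0)) = D (m + 2) 0 := hb _ _
      rw [CubicRing.Mul_w3, map_add, map_add, map_add, map_smul, map_smul, map_smul, map_smul,
        k0, k1, k2, k3, hD0, hD0, hD0, hD1, e3, e2, hDdef, hu2s]
      simp only [Algebra.smul_def]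
      generalize algebraMap k R (t ^ 2) = T2 at rel ⊢
      generalize algebraMap k R t = T at rel ⊢
      push_cast
      rw [rel]
      linear_combination (T * ((C.u ^ (m - 1) : Rˣ) : R) * (C.u : R) ^ 3 +
        T2 * ((C.u ^ (m - 1) : Rˣ) : R) * (C.u : R) ^ 2 -
        ((C.u ^ (m - 1) : Rˣ) : R) * (C.u : R) ^ 2 * C.w ^ 2) * h3
    · have e3 := hu2' m 3
      have e2 := hu2' m 2
      push_cast at e3 e2
      have k0 : der (C.bas (m, 1)) = D m 1 := hb _ _
      have k1 : der (C.bas (m, 2)) = D m 2 := hb _ _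
      have k2 : der (C.bas (m + 3, 1)) = D (m + 3) 1 := hb _ _
      have k3 : der (C.bas (m + 2, 1)) = D (m + 2) 1 := hb _ _
      rw [CubicRing.Mul_w4, map_add, map_add, map_add, map_smul, map_smul, map_smul, map_smul,
        k0, k1, k2, k3, hD1, hD1, hD1, hD2, e3, e2, hDdef, hu2s]
      simp only [Algebra.smul_def]
      generalize algebraMap k R (t ^ 2) = T2 at rel ⊢
      generalize algebraMap k R t = T at rel ⊢
      push_cast
      rw [pow_succ C.w 3, rel]
      linear_combination (T * ((C.u ^ (m - 1) : Rˣ) : R) * (C.u : R) ^ 3 * C.w -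
        T * ((C.u ^ (m - 1) : Rˣ) : R) * (C.u : R) ^ 5 -
        T2 * ((C.u ^ (m - 1) : Rˣ) : R) * ((C.u : R) ^ 2 + (C.u : R) ^ 4)) * h3
  refine ⟨der, ?_, ?_, ?_⟩
  · have key : (LinearMap.mul k R).compr₂ der =
        (LinearMap.mul k R).compl₂ der + (LinearMap.mul k R) ∘ₗ der := by
      refine C.bas.ext fun p => C.bas.ext fun q => ?_
      obtain ⟨m, a⟩ := p
      obtain ⟨n, b⟩ := q
      rw [LinearMap.compr₂_apply, LinearMap.add_apply, LinearMap.add_apply, LinearMap.compl₂_apply,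
        LinearMap.comp_apply, LinearMap.mul_apply', LinearMap.mul_apply', LinearMap.mul_apply',
        CubicRing.Mul_bas_mul, hP _ _ (by have := a.isLt; have := b.isLt; omega), hb, hb,
        C.bas_eq, C.bas_eq]
      have e1 : ((C.u ^ (m + n - 1) : Rˣ) : R) =
          ((C.u ^ (m - 1) : Rˣ) : R) * ((C.u ^ (n - 1) : Rˣ) : R) * (C.u : R) := by
        have h : m + n - 1 = (m - 1) + (n - 1) + 1 := by ring
        rw [h, zpow_add, zpow_add, zpow_one, Units.val_mul, Units.val_mul]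
      have e2 : ((C.u ^ (m + n + 1) : Rˣ) : R) =
          ((C.u ^ (m - 1) : Rˣ) : R) * ((C.u ^ (n - 1) : Rˣ) : R) * (C.u : R) ^ 3 := by
        rw [hu2s, e1]
        ring
      rw [hDdef, hDdef, hDdef, e1, e2, hu2s m, hu2s n, hu1 m, hu1 n]
      fin_cases a <;> fin_cases b <;> simp <;> ring
    intro a b
    have h := congrArg (fun L : R →ₗ[k] R →ₗ[k] R => L a b) key
    exact h
  · have h := hP 1 0 (by norm_num)
    rw [hD0, zpow_one, pow_zero, mul_one] at h
    rw [h]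
    simp
  · have h := hP 0 1 (by norm_num)
    rw [hD1, zpow_zero, pow_one, Units.val_one, one_mul] at h
    rw [h]
    have e := hu2' 0 2
    have e' := hu2s 0
    rw [← e']
    simp

end H36.NX
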