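import Pool.Agent.H15.NX.Eps
import Pool.Agent.H36.NX.HomsF
import Pool.Agent.H9.NC.Lin

/-!
# EpsC : the augmentation for the columns of `AA C`
-/

set_option autoImplicit false

open NC
open scoped TensorProduct

noncomputable section

namespace H36.NX

variable {k : Type} [Field k] {t : k} {R : Type} [CommRing R] [Algebra k R]
  {F : Type} [Field F] [Algebra k F] {C : CubicRing k t R} {j : R →ₐ[k] F} (U : Cht C j)

/-! ### the columns of `AA C` -/

theorem lGetH_lPutH (i0 : Fin 2) (f : (qSD C wt (fun _ : Unit => wt i0)).V) :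
    (lGetH C i0).f ((lPutH C i0).f f) = f := by
  refine q_ext C ?_
  change colGet R i0 (colPut R i0 (qv C wt (fun _ : Unit => wt i0) f))
    = qv C wt (fun _ : Unit => wt i0) f
  funext s
  refine Matrix.ext fun i l => ?_
  change (if i0 = i0 then qv C wt (fun _ : Unit => wt i0) f s i () else 0) = _
  rw [if_pos rfl]

/-- the augmentation on a column of `AA C` -/
def epsQ (β : Unit → ℤ) : SD.Hom (HC (bPQ U (qLA C β))) (BU U) :=
  eps U (qLA C β) (evQ U wt β) (evQ_isHomL U β)

/-- a number as a row -/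
def rowIn (i0 : Fin 2) : SD.Hom (BU U) (QU U) where
  f :=
    { toFun := fun b => (Matrix.of (fun _ l => if l = i0 then b else 0) :
        Matrix Unit (Fin 2) U.B)
      map_add' := fun b b' => Matrix.ext fun i l => by
        change (if l = i0 then b + b' else 0) = (if l = i0 then b else 0) + (if l = i0 then b' else 0)
        split_ifs
        · rfl
        · rw [add_zero]
      map_smul' := fun c b => Matrix.ext fun i l => by
        change (if l = i0 then c • b else 0) = c • (if l = i0 then b else 0)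
        split_ifs
        · rfl
        · rw [smul_zero] }
  D _ := map_zero _
  P _ := rfl

/-- an entry of a row -/
def rowOut (i0 : Fin 2) : SD.Hom (QU U) (BU U) where
  f :=
    { toFun := fun q => ((q : Matrix Unit (Fin 2) U.B) () i0 : U.B)
      map_add' := fun _ _ => rfl
      map_smul' := fun _ _ => rfl }
  D _ := rfl
  P _ := rfl

theorem rowIn_apply (i0 : Fin 2) (b : U.B) (l : Fin 2) :
    ((rowIn U i0).f b : Matrix Unit (Fin 2) U.B) () l = if l = i0 then b else 0 := rfl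

theorem rowOut_apply (i0 : Fin 2) (q : Matrix Unit (Fin 2) U.B) :
    ((rowOut U i0).f q : U.B) = q () i0 := rfl

theorem evQ_put (i0 : Fin 2) (p : (qSD C wt (fun _ : Unit => wt i0)).V) (i l : Fin 2) :
    ((evA U).f ((lPutH C i0).f p) : Matrix (Fin 2) (Fin 2) U.B) i l
      = if l = i0 then ((evQ U wt (fun _ : Unit => wt i0)).f p : Matrix (Fin 2) Unit U.B) i ()
        else 0 := by
  refine Subtype.ext ?_
  have h1 : (((evA U).f ((lPutH C i0).f p) : Matrix (Fin 2) (Fin 2) U.B) i l : F)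
      = U.g ^ (-(wt l - wt i)) * j (if l = i0 then qv C wt (fun _ : Unit => wt i0) p U.e i ()
        else 0) := rfl
  rw [h1]
  split_ifs with h
  · subst h
    rfl
  · rw [map_zero, mul_zero]
    rfl

theorem evQ_get (i0 : Fin 2) (a : (AA C).V) (i : Fin 2) :
    ((evQ U wt (fun _ : Unit => wt i0)).f ((lGetH C i0).f a) : Matrix (Fin 2) Unit U.B) i ()
      = ((evA U).f a : Matrix (Fin 2) (Fin 2) U.B) i i0 := rfl

theorem frAug_row (a : (AA C).V) (q : Matrix Unit (Fin 2) U.B) :
    ((frAug (rowA U Unit)).f (Wd.nil (a ⊗ₜ[k] q)) : Matrix Unit (Fin 2) U.B)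
      = q * ((evA U).f a : Matrix (Fin 2) (Fin 2) U.B) := by
  have h0 := frAug_nil (rowA U Unit) a q
  have h1 : (evA U).f ((AA C).P a) = (evA U).f a := (evA U).P a
  have h2 : (evA U).f (a - (AA C).P a) = 0 := by rw [map_sub, h1, sub_self]
  refine h0.trans ?_
  change (q * ((evA U).f ((AA C).P a) : Matrix (Fin 2) (Fin 2) U.B) : Matrix Unit (Fin 2) U.B)
    + ((QU U).E q : Matrix Unit (Fin 2) U.B)
      * ((evA U).f (a - (AA C).P a) : Matrix (Fin 2) (Fin 2) U.B) = _
  rw [h1, h2]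
  refine (congrArg (fun z : Matrix Unit (Fin 2) U.B =>
    q * ((evA U).f a : Matrix (Fin 2) (Fin 2) U.B) + z) (Matrix.mul_zero _)).trans ?_
  exact add_zero _

/-- **the augmentation on a column of `AA C` is a quasi-isomorphism**: it is a retract of the augmentation of the
free bimodule -/
theorem cl_col (i0 : Fin 2) : (epsQ U (fun _ : Unit => wt i0)).QI := by
  have hE : ∀ q : Matrix Unit (Fin 2) U.B, (QU U).E q = q := fun q => by
    rw [SD.E_apply]
    change (q : Matrix Unit (Fin 2) U.B) + q - q = q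
    rw [add_sub_cancel_right]
  refine (frAug_QI (rowA U Unit) (rowA_one U Unit)).of_retract (f' := epsQ U (fun _ : Unit => wt i0))
    (hcT U (lPutH C i0) (lPutH_left C i0)) (hcT U (lGetH C i0) (lGetH_left C i0))
    (rowIn U i0) (rowOut U i0) (fun x _ => ?_) (fun x _ => ?_) (fun x => ?_) (fun x => ?_)
  · have h0 : ∀ x : Wd k ((qSD C wt (fun _ : Unit => wt i0)).V ⊗[k] Matrix Unit (Fin 2) U.B)
        (AA C).V, (hcT U (lGetH C i0) (lGetH_left C i0)).f
          ((hcT U (lPutH C i0) (lPutH_left C i0)).f x) = x := by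
      intro x
      refine Wd.ext_apply (f := (hcT U (lGetH C i0) (lGetH_left C i0)).f ∘ₗ
        (hcT U (lPutH C i0) (lPutH_left C i0)).f) (g := LinearMap.id) (fun n => ?_)
        (fun w hw r => ?_) x
      · refine tens_ext (f := (hcT U (lGetH C i0) (lGetH_left C i0)).f ∘ₗ
          (hcT U (lPutH C i0) (lPutH_left C i0)).f ∘ₗ Wd.nil) (g := Wd.nil) (fun p q => ?_) n
        have h1 : (hcT U (lPutH C i0) (lPutH_left C i0)).f (Wd.nil (p ⊗ₜ q))
            = Wd.nil ((lPutH C i0).f p ⊗ₜ q) :=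
          hcN_nil _ _ _ (bPQ_isHom U (lPutH_left C i0)) (p ⊗ₜ q)
        have h2 : (hcT U (lGetH C i0) (lGetH_left C i0)).f (Wd.nil ((lPutH C i0).f p ⊗ₜ q))
            = Wd.nil ((lGetH C i0).f ((lPutH C i0).f p) ⊗ₜ q) :=
          hcN_nil _ _ _ (bPQ_isHom U (lGetH_left C i0)) ((lPutH C i0).f p ⊗ₜ q)
        change (hcT U (lGetH C i0) (lGetH_left C i0)).f
          ((hcT U (lPutH C i0) (lPutH_left C i0)).f (Wd.nil (p ⊗ₜ q))) = Wd.nil (p ⊗ₜ q)
        rw [h1, h2, lGetH_lPutH]
      · have h1 : (hcT U (lPutH C i0) (lPutH_left C i0)).f (Wd.snoc w r)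
            = Wd.snoc ((hcT U (lPutH C i0) (lPutH_left C i0)).f w) r :=
          hcN_snoc _ _ _ (bPQ_isHom U (lPutH_left C i0)) w r
        have h2 : (hcT U (lGetH C i0) (lGetH_left C i0)).f
            (Wd.snoc ((hcT U (lPutH C i0) (lPutH_left C i0)).f w) r)
            = Wd.snoc ((hcT U (lGetH C i0) (lGetH_left C i0)).f
              ((hcT U (lPutH C i0) (lPutH_left C i0)).f w)) r :=
          hcN_snoc _ _ _ (bPQ_isHom U (lGetH_left C i0)) _ r
        have hw' : (hcT U (lGetH C i0) (lGetH_left C i0)).f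
            ((hcT U (lPutH C i0) (lPutH_left C i0)).f w) = w := hw
        change (hcT U (lGetH C i0) (lGetH_left C i0)).f
          ((hcT U (lPutH C i0) (lPutH_left C i0)).f (Wd.snoc w r)) = Wd.snoc w r
        rw [h1, h2, hw']
    have h3 := h0 x
    rw [h3]
    exact SD.Hml.refl _
  · have h4 : (rowOut U i0).f ((rowIn U i0).f x) = x := by
      change (if i0 = i0 then x else 0) = x
      rw [if_pos rfl]
    rw [h4]
    exact SD.Hml.refl _
  · refine Wd.ext_apply (f := (frAug (rowA U Unit)).f ∘ₗ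
        (hcT U (lPutH C i0) (lPutH_left C i0)).f)
        (g := (rowIn U i0).f ∘ₗ (epsQ U (fun _ : Unit => wt i0)).f) (fun n => ?_)
        (fun w hw r => ?_) x
    · refine tens_ext (f := (frAug (rowA U Unit)).f ∘ₗ
        (hcT U (lPutH C i0) (lPutH_left C i0)).f ∘ₗ Wd.nil)
        (g := (rowIn U i0).f ∘ₗ (epsQ U (fun _ : Unit => wt i0)).f ∘ₗ Wd.nil) (fun p q => ?_) n
      have h1 : (hcT U (lPutH C i0) (lPutH_left C i0)).f (Wd.nil (p ⊗ₜ q))
          = Wd.nil ((lPutH C i0).f p ⊗ₜ q) :=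
        hcN_nil _ _ _ (bPQ_isHom U (lPutH_left C i0)) (p ⊗ₜ q)
      change (frAug (rowA U Unit)).f ((hcT U (lPutH C i0) (lPutH_left C i0)).f
        (Wd.nil (p ⊗ₜ q))) = (rowIn U i0).f ((epsQ U (fun _ : Unit => wt i0)).f (Wd.nil (p ⊗ₜ q)))
      rw [h1]
      refine (frAug_row U _ q).trans ?_
      have h5 : (epsQ U (fun _ : Unit => wt i0)).f (Wd.nil (p ⊗ₜ q))
          = rowCol U q ((evQ U wt (fun _ : Unit => wt i0)).f p) :=
        (eps_nil U (qLA C (fun _ : Unit => wt i0)) (evQ U wt (fun _ : Unit => wt i0))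
          (evQ_isHomL U (fun _ : Unit => wt i0)) (p ⊗ₜ q)).trans (epsL_tmul U _ p q)
      rw [h5]
      refine Matrix.ext fun i l => ?_
      rw [Matrix.mul_apply]
      refine Eq.trans ?_ (rowIn_apply U i0 _ l).symm
      rw [Fin.sum_univ_two, evQ_put, evQ_put]
      split_ifs
      · rw [rowCol_apply, Matrix.mul_apply, Fin.sum_univ_two]
      · rw [mul_zero, mul_zero, add_zero]
    · have h1 : (hcT U (lPutH C i0) (lPutH_left C i0)).f (Wd.snoc w r)
          = Wd.snoc ((hcT U (lPutH C i0) (lPutH_left C i0)).f w) r :=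
        hcN_snoc _ _ _ (bPQ_isHom U (lPutH_left C i0)) w r
      change (frAug (rowA U Unit)).f ((hcT U (lPutH C i0) (lPutH_left C i0)).f (Wd.snoc w r))
        = (rowIn U i0).f ((epsQ U (fun _ : Unit => wt i0)).f (Wd.snoc w r))
      have h6 : (epsQ U (fun _ : Unit => wt i0)).f (Wd.snoc w r) = 0 :=
        eps_snoc U (qLA C (fun _ : Unit => wt i0)) (evQ U wt (fun _ : Unit => wt i0))
          (evQ_isHomL U (fun _ : Unit => wt i0)) w r
      rw [h1, h6, map_zero]
      exact frAug_snoc (rowA U Unit) _ r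
  · refine Wd.ext_apply (f := (epsQ U (fun _ : Unit => wt i0)).f ∘ₗ
        (hcT U (lGetH C i0) (lGetH_left C i0)).f)
        (g := (rowOut U i0).f ∘ₗ (frAug (rowA U Unit)).f) (fun n => ?_)
        (fun w hw r => ?_) x
    · refine tens_ext (f := (epsQ U (fun _ : Unit => wt i0)).f ∘ₗ
        (hcT U (lGetH C i0) (lGetH_left C i0)).f ∘ₗ Wd.nil)
        (g := (rowOut U i0).f ∘ₗ (frAug (rowA U Unit)).f ∘ₗ Wd.nil) (fun p q => ?_) n
      have h1 : (hcT U (lGetH C i0) (lGetH_left C i0)).f (Wd.nil (p ⊗ₜ q))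
          = Wd.nil ((lGetH C i0).f p ⊗ₜ q) :=
        hcN_nil _ _ _ (bPQ_isHom U (lGetH_left C i0)) (p ⊗ₜ q)
      change (epsQ U (fun _ : Unit => wt i0)).f ((hcT U (lGetH C i0) (lGetH_left C i0)).f
        (Wd.nil (p ⊗ₜ q))) = (rowOut U i0).f ((frAug (rowA U Unit)).f (Wd.nil (p ⊗ₜ q)))
      have h5 : (epsQ U (fun _ : Unit => wt i0)).f (Wd.nil ((lGetH C i0).f p ⊗ₜ q))
          = rowCol U q ((evQ U wt (fun _ : Unit => wt i0)).f ((lGetH C i0).f p)) :=
        (eps_nil U (qLA C (fun _ : Unit => wt i0)) (evQ U wt (fun _ : Unit => wt i0))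
          (evQ_isHomL U (fun _ : Unit => wt i0)) _).trans (epsL_tmul U _ _ q)
      rw [h1, h5]
      refine Eq.trans ?_ (congrArg (fun z : Matrix Unit (Fin 2) U.B => (z () i0 : U.B))
        (frAug_row U p q)).symm
      rw [rowCol_apply, Matrix.mul_apply, Fin.sum_univ_two]
      change _ = (q * ((evA U).f p : Matrix (Fin 2) (Fin 2) U.B) : Matrix Unit (Fin 2) U.B) () i0
      rw [Matrix.mul_apply, Fin.sum_univ_two, evQ_get, evQ_get]
    · have h1 : (hcT U (lGetH C i0) (lGetH_left C i0)).f (Wd.snoc w r)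
          = Wd.snoc ((hcT U (lGetH C i0) (lGetH_left C i0)).f w) r :=
        hcN_snoc _ _ _ (bPQ_isHom U (lGetH_left C i0)) w r
      change (epsQ U (fun _ : Unit => wt i0)).f ((hcT U (lGetH C i0) (lGetH_left C i0)).f
        (Wd.snoc w r)) = (rowOut U i0).f ((frAug (rowA U Unit)).f (Wd.snoc w r))
      have h6 : (epsQ U (fun _ : Unit => wt i0)).f
          (Wd.snoc ((hcT U (lGetH C i0) (lGetH_left C i0)).f w) r) = 0 :=
        eps_snoc U (qLA C (fun _ : Unit => wt i0)) (evQ U wt (fun _ : Unit => wt i0))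
          (evQ_isHomL U (fun _ : Unit => wt i0)) _ r
      have h7 : (frAug (rowA U Unit)).f (Wd.snoc w r) = 0 := frAug_snoc (rowA U Unit) _ r
      rw [h1, h6, h7, map_zero]

end H36.NX
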