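import Pool.Agent.H15.NX.Cht
import Pool.Agent.H15.NX.Ev
import Pool.Agent.H9.NC.Lin

/-!
# EvC : evaluation of Čech matrices on the piece `e` of a chart
-/

set_option autoImplicit false

open NC

noncomputable section

namespace H36.NX

variable {k : Type} [Field k] {t : k} {R : Type} [CommRing R] [Algebra k R]
  {F : Type} [Field F] [Algebra k F] {I J L : Type}

section

variable (k) (B : Type) [CommRing B] [Algebra k B]

/-- matrices as left module over the 2 x 2 matrices -/
def mLA (J : Type) : LA (M2 k B) (evSD k (Matrix (Fin 2) J B)) where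
  act := matMul k B (Fin 2) (Fin 2) J
  mul_act := fun a b y => Matrix.mul_assoc (a : Matrix (Fin 2) (Fin 2) B) b y
  P_act := fun a y => ev_P_aux (matMul k B (Fin 2) (Fin 2) J) a y
  D_act := fun _ y => ev_D_aux (matMul k B (Fin 2) (Fin 2) J) _ y

/-- matrices as right module over the 2 x 2 matrices -/
def mRA (I : Type) : RA (M2 k B) (evSD k (Matrix I (Fin 2) B)) where
  act := matMul k B I (Fin 2) (Fin 2)
  act_mul := fun y a b => Matrix.mul_assoc (y : Matrix I (Fin 2) B) a b
  P_act := fun a y => ev_P_aux (matMul k B I (Fin 2) (Fin 2)) a y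
  D_act := fun _ y => ev_D_aux (matMul k B I (Fin 2) (Fin 2)) _ y

@[simp] theorem mLA_act (J : Type) (a : Matrix (Fin 2) (Fin 2) B) (y : Matrix (Fin 2) J B) :
    (mLA k B J).act a y = a * y := rfl

@[simp] theorem mRA_act (I : Type) (y : Matrix I (Fin 2) B) (a : Matrix (Fin 2) (Fin 2) B) :
    (mRA k B I).act y a = y * a := rfl

end

variable {C : CubicRing k t R} {j : R →ₐ[k] F} (U : Cht C j)

/-- matrices over the chart ring -/
abbrev MSD (I J : Type) : SD k := evSD k (Matrix I J U.B)

theorem ev_mem (α : I → ℤ) (β : J → ℤ) (f : (fSD U.T α β).V) (i : I) (l : J) :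
    U.g ^ (-(β l - α i)) * fv U.T α β f U.e i l ∈ U.B :=
  (U.hB _ _).1 (fv_mem U.T f U.e i l)

/-- evaluation -/
def evFl (α : I → ℤ) (β : J → ℤ) : (fSD U.T α β).V →ₗ[k] Matrix I J U.B where
  toFun f := Matrix.of (fun i l => ⟨U.g ^ (-(β l - α i)) * fv U.T α β f U.e i l, ev_mem U α β f i l⟩)
  map_add' f f' := by
    ext i l
    change U.g ^ (-(β l - α i)) * fv U.T α β (f + f') U.e i l
      = U.g ^ (-(β l - α i)) * fv U.T α β f U.e i l + U.g ^ (-(β l - α i)) * fv U.T α β f' U.e i l
    rw [map_add, ← mul_add]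
    rfl
  map_smul' c f := by
    ext i l
    change U.g ^ (-(β l - α i)) * fv U.T α β (c • f) U.e i l
      = c • (U.g ^ (-(β l - α i)) * fv U.T α β f U.e i l)
    rw [map_smul, ← mul_smul_comm]
    rfl

theorem evFl_apply (α : I → ℤ) (β : J → ℤ) (f : (fSD U.T α β).V) (i : I) (l : J) :
    ((evFl U α β f i l : U.B) : F) = U.g ^ (-(β l - α i)) * fv U.T α β f U.e i l := rfl

private theorem evc_D (f : Pc → Matrix I J F) : cD k (Matrix I J F) f U.e = 0 := by
  rcases U.he with ⟨h, _⟩ | ⟨h, _⟩ <;> rw [h] <;> rfl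

private theorem evc_P (f : Pc → Matrix I J F) : cP k (Matrix I J F) f U.e = f U.e := by
  rcases U.he with ⟨h, _⟩ | ⟨h, _⟩ <;> rw [h] <;> rfl

theorem evFl_D (α : I → ℤ) (β : J → ℤ) (f : (fSD U.T α β).V) :
    evFl U α β ((fSD U.T α β).D f) = 0 := by
  refine Matrix.ext fun i l => Subtype.ext ?_
  rw [evFl_apply, fv_D, evc_D U]
  exact mul_zero _

theorem evFl_P (α : I → ℤ) (β : J → ℤ) (f : (fSD U.T α β).V) :
    evFl U α β ((fSD U.T α β).P f) = evFl U α β f := by
  refine Matrix.ext fun i l => Subtype.ext ?_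
  rw [evFl_apply, evFl_apply, fv_P, evc_P U]

/-- evaluation, bundled -/
def evF (α : I → ℤ) (β : J → ℤ) : SD.Hom (fSD U.T α β) (MSD U I J) where
  f := evFl U α β
  D f := evFl_D U α β f
  P f := evFl_P U α β f

/-- a section over the chart -/
theorem j_mem_S {s : Pc} {n : ℤ} {r : R} (h : r ∈ C.pc s n) : j r ∈ U.T.S s n :=
  (U.hloc s n (j r)).2 ⟨0, r, by simpa using h, by rw [pow_zero, one_mul]⟩

/-- `j` on Čech matrices -/
def jinl (α : I → ℤ) (β : J → ℤ) : (qSD C α β).V →ₗ[k] (fSD U.T α β).V where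
  toFun f := fmk U.T α β (fun s => (qv C α β f s).map j)
    (fun s i l => j_mem_S U (qv_mem C f s i l))
  map_add' f f' := f_ext U.T (by
    funext s
    ext i l
    have e := map_add (qv C α β) f f'
    change j (qv C α β (f + f') s i l) = j (qv C α β f s i l) + j (qv C α β f' s i l)
    rw [e]
    exact map_add j _ _)
  map_smul' c f := f_ext U.T (by
    funext s
    ext i l
    have e := map_smul (qv C α β) c f
    change j (qv C α β (c • f) s i l) = c • j (qv C α β f s i l)
    rw [e]
    exact map_smul j _ _)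

@[simp] theorem fv_jinl (α : I → ℤ) (β : J → ℤ) (f : (qSD C α β).V) (s : Pc) :
    fv U.T α β (jinl U α β f) s = (qv C α β f s).map j := rfl

/-- `j` on Čech matrices, bundled -/
def jin (α : I → ℤ) (β : J → ℤ) : SD.Hom (qSD C α β) (fSD U.T α β) where
  f := jinl U α β
  D f := by
    refine f_ext U.T ?_
    funext s
    ext i l
    cases s with
    | X => exact map_zero j
    | Y => exact map_zero j
    | R => exact map_sub j _ _
  P f := by
    refine f_ext U.T ?_
    funext s
    ext i l
    cases s with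
    | X => rfl
    | Y => rfl
    | R => exact map_zero j

/-- evaluation of Čech matrices over `R` -/
def evQ (α : I → ℤ) (β : J → ℤ) : SD.Hom (qSD C α β) (MSD U I J) := (evF U α β).comp (jin U α β)

theorem evQ_apply (α : I → ℤ) (β : J → ℤ) (f : (qSD C α β).V) (i : I) (l : J) :
    (((evQ U α β).f f : Matrix I J U.B) i l : F)
      = U.g ^ (-(β l - α i)) * j (qv C α β f U.e i l) := rfl

private theorem evc_key {g : F} (hg : g ≠ 0) (a b c : ℤ) (x y : F) :
    g ^ (-(c - a)) * (x * y) = (g ^ (-(b - a)) * x) * (g ^ (-(c - b)) * y) := by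
  have h : g ^ (-(c - a)) = g ^ (-(b - a)) * g ^ (-(c - b)) := by
    rw [← zpow_add₀ hg]
    congr 1
    ring
  rw [h]
  ring

section

variable [Fintype J]

/-- evaluation is multiplicative -/
theorem evF_L (α : I → ℤ) (β : J → ℤ) (γ : L → ℤ) (a : (qSD C α β).V) (y : (fSD U.T β γ).V) :
    evFl U α γ (fL U.T α β γ a y) = ((evQ U α β).f a : Matrix I J U.B) * evFl U β γ y := by
  refine Matrix.ext fun i l => Subtype.ext ?_
  have h1 : cMul k (matL j I J L) (qv C α β a) (fv U.T β γ y) U.e
      = (qv C α β a U.e).map j * fv U.T β γ y U.e := by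
    rcases U.he with ⟨h, _⟩ | ⟨h, _⟩ <;> rw [h] <;> rfl
  rw [evFl_apply, fv_fL, h1, Matrix.mul_apply, Matrix.mul_apply, Finset.mul_sum,
    AddSubmonoidClass.coe_finsetSum]
  exact Finset.sum_congr rfl fun m _ => evc_key U.g0 (α i) (β m) (γ l) _ _

theorem evF_R (α : I → ℤ) (β : J → ℤ) (γ : L → ℤ) (y : (fSD U.T α β).V) (a : (qSD C β γ).V) :
    evFl U α γ (fR U.T α β γ y a) = evFl U α β y * ((evQ U β γ).f a : Matrix J L U.B) := by
  refine Matrix.ext fun i l => Subtype.ext ?_
  have h1 : cMul k (matR j I J L) (fv U.T α β y) (qv C β γ a) U.e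
      = fv U.T α β y U.e * (qv C β γ a U.e).map j := by
    rcases U.he with ⟨h, _⟩ | ⟨h, _⟩ <;> rw [h] <;> rfl
  rw [evFl_apply, fv_fR, h1, Matrix.mul_apply, Matrix.mul_apply, Finset.mul_sum,
    AddSubmonoidClass.coe_finsetSum]
  exact Finset.sum_congr rfl fun m _ => evc_key U.g0 (α i) (β m) (γ l) _ _

theorem evQ_mul (α : I → ℤ) (β : J → ℤ) (γ : L → ℤ) (a : (qSD C α β).V) (b : (qSD C β γ).V) :
    (evQ U α γ).f (qMul C α β γ a b)
      = ((evQ U α β).f a : Matrix I J U.B) * ((evQ U β γ).f b : Matrix J L U.B) := by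
  refine Matrix.ext fun i l => Subtype.ext ?_
  have h1 : qv C α γ (qMul C α β γ a b) U.e = qv C α β a U.e * qv C β γ b U.e := by
    rw [qv_qMul]
    rcases U.he with ⟨h, _⟩ | ⟨h, _⟩ <;> rw [h] <;> rfl
  rw [evQ_apply, h1, Matrix.mul_apply, Matrix.mul_apply, map_sum, Finset.mul_sum,
    AddSubmonoidClass.coe_finsetSum]
  refine Finset.sum_congr rfl fun m _ => ?_
  rw [map_mul]
  exact evc_key U.g0 (α i) (β m) (γ l) _ _

end

/-- **evaluation is a quasi-isomorphism** -/
theorem evF_QI (α : I → ℤ) (β : J → ℤ) : (evF U α β).QI := by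
  constructor
  · intro x y hx hxy
    have h1 : fv U.T α β x U.e = 0 := by
      ext i l
      have h2 : evFl U α β x = 0 := hxy
      have h3 := evFl_apply U α β x i l
      rw [h2] at h3
      have h4 : U.g ^ (-(β l - α i)) * fv U.T α β x U.e i l = 0 := h3.symm
      exact (mul_eq_zero.1 h4).resolve_left (zpow_ne_zero _ U.g0)
    have h5 : fv U.T α β x Pc.Y - fv U.T α β x Pc.X = 0 :=
      congrFun (congrArg (fv U.T α β) hx) Pc.R
    rcases U.he with ⟨he, he'⟩ | ⟨he, he'⟩
    · rw [he] at h1
      have h6 : fv U.T α β x Pc.Y = 0 := by rw [← sub_eq_zero.1 h5] at h1; exact h1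
      refine ⟨fmk U.T α β (fun s => match s with
          | Pc.X => 0
          | Pc.Y => fv U.T α β x Pc.R
          | Pc.R => 0) ?_, f_ext U.T ?_⟩
      · intro s i l
        cases s with
        | X => exact (U.T.S Pc.X _).zero_mem
        | Y =>
          have h7 := U.hac (β l - α i) (fv_mem U.T x Pc.R i l)
          rw [he'] at h7
          exact h7
        | R => exact (U.T.S Pc.R _).zero_mem
      · funext s
        cases s with
        | X => exact h1.symm
        | Y => exact h6.symm
        | R => exact sub_zero _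
    · rw [he] at h1
      have h6 : fv U.T α β x Pc.X = 0 := by rw [sub_eq_zero.1 h5] at h1; exact h1
      refine ⟨fmk U.T α β (fun s => match s with
          | Pc.X => - fv U.T α β x Pc.R
          | Pc.Y => 0
          | Pc.R => 0) ?_, f_ext U.T ?_⟩
      · intro s i l
        cases s with
        | X =>
          have h7 := U.hac (β l - α i) (fv_mem U.T x Pc.R i l)
          rw [he'] at h7
          exact (U.T.S Pc.X _).neg_mem h7
        | Y => exact (U.T.S Pc.Y _).zero_mem
        | R => exact (U.T.S Pc.R _).zero_mem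
      · funext s
        cases s with
        | X => exact h6.symm
        | Y => exact h1.symm
        | R =>
          change (0 : Matrix I J F) - - fv U.T α β x Pc.R = fv U.T α β x Pc.R
          rw [zero_sub, neg_neg]
  · intro y _
    have hy : ∀ i l, U.g ^ (β l - α i) * ((y : Matrix I J U.B) i l : F) ∈ U.T.S U.e (β l - α i) := by
      intro i l
      rw [U.hB, ← mul_assoc, ← zpow_add₀ U.g0, neg_add_cancel, zpow_zero, one_mul]
      exact Subtype.property _
    have hy' : ∀ i l, U.g ^ (β l - α i) * ((y : Matrix I J U.B) i l : F)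
        ∈ U.T.S U.e' (β l - α i) := fun i l => U.hac _ (U.T.le _ _ (hy i l))
    have hX : ∀ i l, U.g ^ (β l - α i) * ((y : Matrix I J U.B) i l : F)
        ∈ U.T.S Pc.X (β l - α i) := by
      intro i l
      rcases U.he with ⟨he, he'⟩ | ⟨he, he'⟩
      · have h := hy i l
        rw [he] at h
        exact h
      · have h := hy' i l
        rw [he'] at h
        exact h
    have hY : ∀ i l, U.g ^ (β l - α i) * ((y : Matrix I J U.B) i l : F)
        ∈ U.T.S Pc.Y (β l - α i) := by
      intro i l
      rcases U.he with ⟨he, he'⟩ | ⟨he, he'⟩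
      · have h := hy' i l
        rw [he'] at h
        exact h
      · have h := hy i l
        rw [he] at h
        exact h
    let w : Matrix I J F :=
      Matrix.of (fun i l => U.g ^ (β l - α i) * ((y : Matrix I J U.B) i l : F))
    let x : (fSD U.T α β).V := fmk U.T α β (fun s => match s with
          | Pc.X => w
          | Pc.Y => w
          | Pc.R => 0) (by
        intro s i l
        cases s with
        | X => exact hX i l
        | Y => exact hY i l
        | R => exact (U.T.S Pc.R _).zero_mem)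
    have hxe : fv U.T α β x U.e = w := by
      rcases U.he with ⟨h, _⟩ | ⟨h, _⟩ <;> rw [h] <;> rfl
    refine ⟨x, 0, f_ext U.T ?_, ?_⟩
    · funext s
      cases s with
      | X => rfl
      | Y => rfl
      | R => exact sub_self w
    · have h8 : (y : Matrix I J U.B) = evFl U α β x := by
        refine Matrix.ext fun i l => Subtype.ext ?_
        rw [evFl_apply, hxe]
        change _ = U.g ^ (-(β l - α i)) * (U.g ^ (β l - α i) * ((y : Matrix I J U.B) i l : F))
        rw [← mul_assoc, ← zpow_add₀ U.g0, neg_add_cancel, zpow_zero, one_mul]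
      have h9 : (MSD U I J).D 0 = 0 := rfl
      rw [h9, add_zero]
      exact h8

/-- evaluation of the dg algebra -/
def evA : DGA.NHom (AA C) (M2 k U.B) where
  toHom := evQ U wt wt
  mul a b := evQ_mul U wt wt wt a b

theorem evA_one : (evA U).f 1 = 1 := by
  have h1 : qv C wt wt (1 : (AA C).V) U.e = (1 : Matrix (Fin 2) (Fin 2) R) := by
    rcases U.he with ⟨h, _⟩ | ⟨h, _⟩ <;> rw [h] <;> rfl
  refine Matrix.ext fun i l => Subtype.ext ?_
  change U.g ^ (-(wt l - wt i)) * j (qv C wt wt (1 : (AA C).V) U.e i l)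
    = (((1 : Matrix (Fin 2) (Fin 2) U.B) i l : U.B) : F)
  rw [h1, Matrix.one_apply, Matrix.one_apply]
  split_ifs with h
  · subst h
    simp
  · simp

/-- columns as left module over `AA C` -/
def colA (J : Type) : LA (AA C) (MSD U (Fin 2) J) := (mLA k U.B J).res (evA U)

/-- rows as right module over `AA C` -/
def rowA (I : Type) : RA (AA C) (MSD U I (Fin 2)) := (mRA k U.B I).res (evA U)

/-- 2 x 2 matrices as bimodule over `AA C` -/
def nBi : Bi (AA C) (AA C) (M2 k U.B).toSD := (M2 k U.B).diag.res (evA U) (evA U)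

@[simp] theorem colA_act (J : Type) (a : (AA C).V) (y : Matrix (Fin 2) J U.B) :
    (colA U J).act a y = ((evA U).f a : Matrix (Fin 2) (Fin 2) U.B) * y := rfl

@[simp] theorem rowA_act (I : Type) (y : Matrix I (Fin 2) U.B) (a : (AA C).V) :
    (rowA U I).act y a = y * ((evA U).f a : Matrix (Fin 2) (Fin 2) U.B) := rfl

theorem rowA_one (I : Type) (y : Matrix I (Fin 2) U.B) : (rowA U I).act y 1 = y := by
  rw [rowA_act, evA_one]
  exact Matrix.mul_one y

theorem evF_isHomL (β : J → ℤ) : (fLA U.T β).IsHom (colA U J) (evF U wt β) :=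
  fun a n => evF_L U wt wt β a n

theorem evF_isHomBi : (fBi U.T).IsHom (nBi U) (evF U wt wt) :=
  ⟨fun a n => evF_L U wt wt wt a n, fun n a => evF_R U wt wt wt n a⟩

theorem evQ_isHomL (β : J → ℤ) : (qLA C β).IsHom (colA U J) (evQ U wt β) :=
  fun a n => evQ_mul U wt wt β a n

end H36.NX
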