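import Pool.Agent.H36.NX.AA
import Pool.Agent.H16.NC.Act

/-!
# FQ : Čech matrices with entries in an overfield `F` of `R`

`PS C j`: a system of subspaces `S s n` of `F` (piece `s`, weight `n`) stable under the sections of `O(m)`.
`fSD T α β` is the complex of Čech matrices with entry `(i, j)` of piece `s` in `S s (β j - α i)`.
-/

set_option autoImplicit false

open NC

noncomputable section

namespace H36.NX

variable {k : Type} [Field k] {t : k} {R : Type} [CommRing R] [Algebra k R]
  {F : Type} [Field F] [Algebra k F] {I J L M : Type}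

/-- a system of subspaces of `F`, stable under the sections of `O(m)` -/
structure PS (C : CubicRing k t R) (j : R →ₐ[k] F) where
  S : Pc → ℤ → Submodule k F
  mul : ∀ (s : Pc) (m n : ℤ) (r : R) (x : F), r ∈ C.pc s m → x ∈ S s n → j r * x ∈ S s (m + n)
  le : ∀ (s : Pc) (n : ℤ), S s n ≤ S Pc.R n

variable {C : CubicRing k t R} {j : R →ₐ[k] F}

/-- Čech matrices with entries in the subspaces `S s n` -/
def FQ (S : Pc → ℤ → Submodule k F) (α : I → ℤ) (β : J → ℤ) :
    Submodule k (Pc → Matrix I J F) where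
  carrier := {f | ∀ s i l, f s i l ∈ S s (β l - α i)}
  add_mem' := fun ha hb s i l => (S s _).add_mem (ha s i l) (hb s i l)
  zero_mem' := fun s _ _ => (S s _).zero_mem
  smul_mem' := fun c _ ha s i l => (S s _).smul_mem c (ha s i l)

theorem mem_FQ (S : Pc → ℤ → Submodule k F) (α : I → ℤ) (β : J → ℤ)
    (f : Pc → Matrix I J F) : f ∈ FQ S α β ↔ ∀ s i l, f s i l ∈ S s (β l - α i) := Iff.rfl

theorem cD_mem_FQ (T : PS C j) (α : I → ℤ) (β : J → ℤ) (f : Pc → Matrix I J F)
    (hf : f ∈ FQ T.S α β) : cD k _ f ∈ FQ T.S α β := by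
  intro s i l
  cases s with
  | X => exact (T.S Pc.X _).zero_mem
  | Y => exact (T.S Pc.Y _).zero_mem
  | R => exact (T.S Pc.R _).sub_mem (T.le Pc.Y _ (hf Pc.Y i l)) (T.le Pc.X _ (hf Pc.X i l))

theorem cP_mem_FQ (T : PS C j) (α : I → ℤ) (β : J → ℤ) (f : Pc → Matrix I J F)
    (hf : f ∈ FQ T.S α β) : cP k _ f ∈ FQ T.S α β := by
  intro s i l
  cases s with
  | X => exact hf Pc.X i l
  | Y => exact hf Pc.Y i l
  | R => exact (T.S Pc.R _).zero_mem

/-- the complex of Čech matrices -/
def fSD (T : PS C j) (α : I → ℤ) (β : J → ℤ) : SD k where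
  V := FQ T.S α β
  D := (cD k (Matrix I J F)).restrict (fun a ha => cD_mem_FQ T α β a ha)
  P := (cP k (Matrix I J F)).restrict (fun a ha => cP_mem_FQ T α β a ha)
  DD v := Subtype.ext ((cSD k (Matrix I J F)).DD v.1)
  PP v := Subtype.ext ((cSD k (Matrix I J F)).PP v.1)
  DP v := Subtype.ext ((cSD k (Matrix I J F)).DP v.1)

/-- the underlying Čech matrix -/
def fv (T : PS C j) (α : I → ℤ) (β : J → ℤ) :
    (fSD T α β).V →ₗ[k] (Pc → Matrix I J F) where
  toFun f := Subtype.val (p := fun x => x ∈ FQ T.S α β) f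
  map_add' _ _ := rfl
  map_smul' _ _ := rfl

/-- constructor -/
def fmk (T : PS C j) (α : I → ℤ) (β : J → ℤ) (f : Pc → Matrix I J F)
    (hf : f ∈ FQ T.S α β) : (fSD T α β).V :=
  Subtype.mk (p := fun x => x ∈ FQ T.S α β) f hf

section

variable (T : PS C j) {α : I → ℤ} {β : J → ℤ}

@[simp] theorem fv_fmk (f : Pc → Matrix I J F) (hf : f ∈ FQ T.S α β) :
    fv T α β (fmk T α β f hf) = f := rfl

theorem fv_mem (f : (fSD T α β).V) : fv T α β f ∈ FQ T.S α β :=
  Subtype.property (p := fun x => x ∈ FQ T.S α β) f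

theorem fv_injective : Function.Injective (fv T α β) :=
  fun _ _ h => Subtype.ext (p := fun x => x ∈ FQ T.S α β) h

theorem f_ext {f g : (fSD T α β).V} (h : fv T α β f = fv T α β g) : f = g :=
  fv_injective T h

@[simp] theorem fv_D (f : (fSD T α β).V) :
    fv T α β ((fSD T α β).D f) = cD k _ (fv T α β f) := rfl

@[simp] theorem fv_P (f : (fSD T α β).V) :
    fv T α β ((fSD T α β).P f) = cP k _ (fv T α β f) := rfl

theorem fv_E (f : (fSD T α β).V) :
    fv T α β ((fSD T α β).E f) = cP k _ (fv T α β f) + cP k _ (fv T α β f) - fv T α β f := rfl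

end

/-- a matrix over `R` times a matrix over `F` -/
def matL (j : R →ₐ[k] F) (I J L : Type) [Fintype J] :
    Matrix I J R →ₗ[k] Matrix J L F →ₗ[k] Matrix I L F :=
  LinearMap.mk₂ k (fun M N => M.map j * N)
    (fun M M' N => by
      rw [← Matrix.add_mul]
      congr 1
      ext a b
      simp)
    (fun c M N => by
      rw [← Matrix.smul_mul]
      congr 1
      ext a b
      simp)
    (fun _ _ _ => Matrix.mul_add _ _ _) (fun _ _ _ => by simp)

@[simp] theorem matL_apply (j : R →ₐ[k] F) (I J L : Type) [Fintype J] (M : Matrix I J R)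
    (N : Matrix J L F) : matL j I J L M N = M.map j * N := rfl

/-- a matrix over `F` times a matrix over `R` -/
def matR (j : R →ₐ[k] F) (I J L : Type) [Fintype J] :
    Matrix I J F →ₗ[k] Matrix J L R →ₗ[k] Matrix I L F :=
  LinearMap.mk₂ k (fun M N => M * N.map j)
    (fun _ _ _ => Matrix.add_mul _ _ _) (fun _ _ _ => by simp)
    (fun M N N' => by
      rw [← Matrix.mul_add]
      congr 1
      ext a b
      simp)
    (fun c M N => by
      rw [← Matrix.mul_smul]
      congr 1
      ext a b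
      simp)

@[simp] theorem matR_apply (j : R →ₐ[k] F) (I J L : Type) [Fintype J] (M : Matrix I J F)
    (N : Matrix J L R) : matR j I J L M N = M * N.map j := rfl

theorem map_mul_j (j : R →ₐ[k] F) [Fintype J] (a : Matrix I J R) (b : Matrix J L R) :
    (a * b).map j = a.map j * b.map j := by
  ext i l
  simp [Matrix.mul_apply, Matrix.map_apply]

theorem matL_assoc [Fintype J] [Fintype L] (a : Matrix I J R) (b : Matrix J L R)
    (c : Matrix L M F) :
    matL j I L M (matMul k R I J L a b) c = matL j I J M a (matL j J L M b c) := by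
  rw [matL_apply, matL_apply, matL_apply, matMul_apply, map_mul_j, Matrix.mul_assoc]

theorem matR_assoc [Fintype J] [Fintype L] (a : Matrix I J F) (b : Matrix J L R)
    (c : Matrix L M R) :
    matR j I L M (matR j I J L a b) c = matR j I J M a (matMul k R J L M b c) := by
  rw [matR_apply, matR_apply, matR_apply, matMul_apply, map_mul_j, Matrix.mul_assoc]

theorem matLR_assoc [Fintype J] [Fintype L] (a : Matrix I J R) (b : Matrix J L F)
    (c : Matrix L M R) :
    matR j I L M (matL j I J L a b) c = matL j I J M a (matR j J L M b c) := by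
  rw [matR_apply, matL_apply, matR_apply, matL_apply, Matrix.mul_assoc]

theorem matL_mem (T : PS C j) [Fintype J] {a : Matrix I J R} {b : Matrix J L F} {s s' : Pc}
    {α : I → ℤ} {β : J → ℤ} {γ : L → ℤ} (h : ∀ n, C.pc s' n ≤ C.pc s n)
    (ha : ∀ i l, a i l ∈ C.pc s' (β l - α i)) (hb : ∀ i l, b i l ∈ T.S s (γ l - β i)) (i : I)
    (l : L) : matL j I J L a b i l ∈ T.S s (γ l - α i) := by
  rw [matL_apply, Matrix.mul_apply]
  refine Submodule.sum_mem _ (fun m _ => ?_)
  have h1 := T.mul s _ _ _ _ (h _ (ha i m)) (hb m l)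
  rwa [show β m - α i + (γ l - β m) = γ l - α i by ring] at h1

theorem matR_mem (T : PS C j) [Fintype J] {a : Matrix I J F} {b : Matrix J L R} {s s' : Pc}
    {α : I → ℤ} {β : J → ℤ} {γ : L → ℤ} (h : ∀ n, C.pc s' n ≤ C.pc s n)
    (ha : ∀ i l, a i l ∈ T.S s (β l - α i)) (hb : ∀ i l, b i l ∈ C.pc s' (γ l - β i)) (i : I)
    (l : L) : matR j I J L a b i l ∈ T.S s (γ l - α i) := by
  rw [matR_apply, Matrix.mul_apply]
  refine Submodule.sum_mem _ (fun m _ => ?_)
  have h1 := T.mul s _ _ _ _ (h _ (hb m l)) (ha i m)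
  rw [show γ l - β m + (β m - α i) = γ l - α i by ring, mul_comm] at h1
  exact h1

theorem matL_mem_FQ (T : PS C j) [Fintype J] (α : I → ℤ) (β : J → ℤ) (γ : L → ℤ)
    (f : Pc → Matrix I J R) (hf : f ∈ QQ C α β) (g : Pc → Matrix J L F) (hg : g ∈ FQ T.S β γ) :
    cMul k (matL j I J L) f g ∈ FQ T.S α γ := by
  intro s i l
  cases s with
  | X => exact matL_mem T (fun _ => le_rfl) (hf Pc.X) (hg Pc.X) i l
  | Y => exact matL_mem T (fun _ => le_rfl) (hf Pc.Y) (hg Pc.Y) i l
  | R =>
    refine (T.S Pc.R _).add_mem ?_ ?_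
    · exact matL_mem T (fun _ => le_top) (hf Pc.X) (hg Pc.R) i l
    · exact matL_mem T (fun _ => le_rfl) (hf Pc.R) (fun i l => T.le _ _ (hg Pc.Y i l)) i l

theorem matR_mem_FQ (T : PS C j) [Fintype J] (α : I → ℤ) (β : J → ℤ) (γ : L → ℤ)
    (f : Pc → Matrix I J F) (hf : f ∈ FQ T.S α β) (g : Pc → Matrix J L R) (hg : g ∈ QQ C β γ) :
    cMul k (matR j I J L) f g ∈ FQ T.S α γ := by
  intro s i l
  cases s with
  | X => exact matR_mem T (fun _ => le_rfl) (hf Pc.X) (hg Pc.X) i l
  | Y => exact matR_mem T (fun _ => le_rfl) (hf Pc.Y) (hg Pc.Y) i l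
  | R =>
    refine (T.S Pc.R _).add_mem ?_ ?_
    · exact matR_mem T (fun _ => le_rfl) (fun i l => T.le _ _ (hf Pc.X i l)) (hg Pc.R) i l
    · exact matR_mem T (fun _ => le_top) (hf Pc.R) (hg Pc.Y) i l

/-- left multiplication by Čech matrices of sections -/
def fL (T : PS C j) [Fintype J] (α : I → ℤ) (β : J → ℤ) (γ : L → ℤ) :
    (qSD C α β).V →ₗ[k] (fSD T β γ).V →ₗ[k] (fSD T α γ).V :=
  LinearMap.mk₂ k (fun f g => fmk T α γ (cMul k (matL j I J L) (qv C α β f) (fv T β γ g))
      (matL_mem_FQ T α β γ _ (qv_mem C f) _ (fv_mem T g)))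
    (fun f f' g => f_ext T (by
      change cMul k (matL j I J L) (qv C α β (f + f')) (fv T β γ g)
        = cMul k (matL j I J L) (qv C α β f) (fv T β γ g)
          + cMul k (matL j I J L) (qv C α β f') (fv T β γ g)
      rw [map_add, map_add, LinearMap.add_apply]))
    (fun c f g => f_ext T (by
      change cMul k (matL j I J L) (qv C α β (c • f)) (fv T β γ g)
        = c • cMul k (matL j I J L) (qv C α β f) (fv T β γ g)
      rw [map_smul, map_smul, LinearMap.smul_apply]))
    (fun f g g' => f_ext T (by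
      change cMul k (matL j I J L) (qv C α β f) (fv T β γ (g + g'))
        = cMul k (matL j I J L) (qv C α β f) (fv T β γ g)
          + cMul k (matL j I J L) (qv C α β f) (fv T β γ g')
      rw [map_add, map_add]))
    (fun c f g => f_ext T (by
      change cMul k (matL j I J L) (qv C α β f) (fv T β γ (c • g))
        = c • cMul k (matL j I J L) (qv C α β f) (fv T β γ g)
      rw [map_smul, map_smul]))

@[simp] theorem fv_fL (T : PS C j) [Fintype J] (α : I → ℤ) (β : J → ℤ) (γ : L → ℤ)
    (f : (qSD C α β).V) (g : (fSD T β γ).V) :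
    fv T α γ (fL T α β γ f g) = cMul k (matL j I J L) (qv C α β f) (fv T β γ g) := rfl

/-- right multiplication by Čech matrices of sections -/
def fR (T : PS C j) [Fintype J] (α : I → ℤ) (β : J → ℤ) (γ : L → ℤ) :
    (fSD T α β).V →ₗ[k] (qSD C β γ).V →ₗ[k] (fSD T α γ).V :=
  LinearMap.mk₂ k (fun f g => fmk T α γ (cMul k (matR j I J L) (fv T α β f) (qv C β γ g))
      (matR_mem_FQ T α β γ _ (fv_mem T f) _ (qv_mem C g)))
    (fun f f' g => f_ext T (by
      change cMul k (matR j I J L) (fv T α β (f + f')) (qv C β γ g)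
        = cMul k (matR j I J L) (fv T α β f) (qv C β γ g)
          + cMul k (matR j I J L) (fv T α β f') (qv C β γ g)
      rw [map_add, map_add, LinearMap.add_apply]))
    (fun c f g => f_ext T (by
      change cMul k (matR j I J L) (fv T α β (c • f)) (qv C β γ g)
        = c • cMul k (matR j I J L) (fv T α β f) (qv C β γ g)
      rw [map_smul, map_smul, LinearMap.smul_apply]))
    (fun f g g' => f_ext T (by
      change cMul k (matR j I J L) (fv T α β f) (qv C β γ (g + g'))
        = cMul k (matR j I J L) (fv T α β f) (qv C β γ g)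
          + cMul k (matR j I J L) (fv T α β f) (qv C β γ g')
      rw [map_add, map_add]))
    (fun c f g => f_ext T (by
      change cMul k (matR j I J L) (fv T α β f) (qv C β γ (c • g))
        = c • cMul k (matR j I J L) (fv T α β f) (qv C β γ g)
      rw [map_smul, map_smul]))

@[simp] theorem fv_fR (T : PS C j) [Fintype J] (α : I → ℤ) (β : J → ℤ) (γ : L → ℤ)
    (f : (fSD T α β).V) (g : (qSD C β γ).V) :
    fv T α γ (fR T α β γ f g) = cMul k (matR j I J L) (fv T α β f) (qv C β γ g) := rfl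

end H36.NX
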