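import Pool.Agent.H15.NX.FUc
import Pool.Agent.H15.NX.Tau
import Pool.Agent.H15.NX.ClK
import Pool.Agent.H15.NX.Der

/-!
# MV : the Mayer-Vietoris sequence `0 → AA C → NC_X × NC_V → NC_W → 0` of bimodules, comparison of the cycles
-/

set_option autoImplicit false

open NC

noncomputable section

namespace NC

variable {k : Type} [Field k] {A B : DGA k} {X Y : SD k}

/-- product of two right modules -/
def RA.prod (a : RA A X) (b : RA A Y) : RA A (X.prod Y) where
  act := LinearMap.mk₂ k (fun (v : X.V × Y.V) r => ((a.act v.1 r, b.act v.2 r) : X.V × Y.V))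
    (fun _ _ _ => Prod.ext (by simp) (by simp)) (fun _ _ _ => Prod.ext (by simp) (by simp))
    (fun _ _ _ => Prod.ext (map_add _ _ _) (map_add _ _ _))
    (fun _ _ _ => Prod.ext (map_smul _ _ _) (map_smul _ _ _))
  act_mul := fun v r s => Prod.ext (a.act_mul v.1 r s) (b.act_mul v.2 r s)
  P_act := fun v r => Prod.ext (a.P_act v.1 r) (b.P_act v.2 r)
  D_act := fun v r => Prod.ext (a.D_act v.1 r) (b.D_act v.2 r)

@[simp] theorem RA.prod_act (a : RA A X) (b : RA A Y) (r : A.V) (v : X.V × Y.V) :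
    (a.prod b).act v r = ((a.act v.1 r, b.act v.2 r) : X.V × Y.V) := rfl

/-- product of two bimodule structures -/
def Bi.prod (a : Bi A B X) (b : Bi A B Y) : Bi A B (X.prod Y) where
  l := a.l.prod b.l
  r := a.r.prod b.r
  lr := fun r v s => Prod.ext (a.lr r v.1 s) (b.lr r v.2 s)

/-- second inclusion -/
def SD.inr (X Y : SD k) : SD.Hom Y (X.prod Y) where
  f := LinearMap.inr k X.V Y.V
  D := fun _ => Prod.ext (map_zero X.D).symm rfl
  P := fun _ => Prod.ext (map_zero X.P).symm rfl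

end NC

namespace H36.NX

variable {k : Type} [Field k] {t : k} {R : Type} [CommRing R] [Algebra k R]
  {K : Type} [Field K] [Algebra k K] {F : Type} [Field F] [Algebra k F] {I J : Type}
  {C : CubicRing k t R} {j : R →ₐ[k] F}

/-- inclusion of piece systems -/
def fIncl {T T' : PS C j} (h : ∀ s n, T.S s n ≤ T'.S s n) (α : I → ℤ) (β : J → ℤ) :
    SD.Hom (fSD T α β) (fSD T' α β) where
  f :=
    { toFun := fun f => fmk T' α β (fv T α β f) (fun s i l => h s _ (fv_mem T f s i l))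
      map_add' := fun _ _ => rfl
      map_smul' := fun _ _ => rfl }
  D := fun _ => rfl
  P := fun _ => rfl

@[simp] theorem fv_fIncl {T T' : PS C j} (h : ∀ s n, T.S s n ≤ T'.S s n) (α : I → ℤ) (β : J → ℤ)
    (f : (fSD T α β).V) : fv T' α β ((fIncl h α β).f f) = fv T α β f := rfl

theorem fIncl_isHom {T T' : PS C j} (h : ∀ s n, T.S s n ≤ T'.S s n) :
    (fBi T).IsHom (fBi T') (fIncl h wt wt) :=
  ⟨fun _ _ => rfl, fun _ _ => rfl⟩

theorem jin_isHom (U : Cht C j) : (AA C).diag.IsHom (fBi U.T) (jin U wt wt) := by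
  refine ⟨fun a x => ?_, fun x a => ?_⟩
  · refine f_ext U.T ?_
    change (fun s => (cMul k (matMul k R (Fin 2) (Fin 2) (Fin 2)) (qv C wt wt a)
        (qv C wt wt x) s).map j) = cMul k (matL j (Fin 2) (Fin 2) (Fin 2)) (qv C wt wt a)
          (fun s => (qv C wt wt x s).map j)
    funext s
    cases s with
    | X => rw [cMul_X, cMul_X, matMul_apply, map_mul_j, matL_apply]
    | Y => rw [cMul_Y, cMul_Y, matMul_apply, map_mul_j, matL_apply]
    | R =>
      rw [cMul_R, cMul_R, matMul_apply, matMul_apply, matL_apply, matL_apply,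
        Matrix.map_add j (map_add j), map_mul_j, map_mul_j]
  · refine f_ext U.T ?_
    change (fun s => (cMul k (matMul k R (Fin 2) (Fin 2) (Fin 2)) (qv C wt wt x)
        (qv C wt wt a) s).map j) = cMul k (matR j (Fin 2) (Fin 2) (Fin 2))
          (fun s => (qv C wt wt x s).map j) (qv C wt wt a)
    funext s
    cases s with
    | X => rw [cMul_X, cMul_X, matMul_apply, map_mul_j, matR_apply]
    | Y => rw [cMul_Y, cMul_Y, matMul_apply, map_mul_j, matR_apply]
    | R =>
      rw [cMul_R, cMul_R, matMul_apply, matMul_apply, matR_apply, matR_apply,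
        Matrix.map_add j (map_add j), map_mul_j, map_mul_j]

variable (C j)

theorem chXT_le (s : Pc) (n : ℤ) : (chXT C j).S s n ≤ (chWT C j).S s n := by
  intro x hx
  rw [mem_chWT]
  cases s with
  | X => exact C.RX_le_RUV j hx
  | Y =>
    obtain ⟨r, rfl⟩ := (mem_chXT_Y C j n x).1 hx
    exact Algebra.subset_adjoin (Or.inl ⟨r, rfl⟩)
  | R =>
    obtain ⟨r, rfl⟩ := (mem_chXT_R C j n x).1 hx
    exact Algebra.subset_adjoin (Or.inl ⟨r, rfl⟩)

theorem chVT_le (s : Pc) (n : ℤ) : (chVT C j).S s n ≤ (chWT C j).S s n :=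
  (chVT C j).le s n

/-- `(a, b) ↦ a - b` -/
def mvg : SD.Hom ((fSD (chXT C j) wt wt).prod (fSD (chVT C j) wt wt)) (fSD (chWT C j) wt wt) where
  f := ((fIncl (chXT_le C j) wt wt).f).coprod (-(fIncl (chVT_le C j) wt wt).f)
  D := by
    rintro ⟨a, b⟩
    refine f_ext (chWT C j) ?_
    change cD k _ (fv (chXT C j) wt wt a) + -(cD k _ (fv (chVT C j) wt wt b)) =
      cD k _ (fv (chXT C j) wt wt a + -(fv (chVT C j) wt wt b))
    rw [map_add, map_neg]
  P := by
    rintro ⟨a, b⟩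
    refine f_ext (chWT C j) ?_
    change cP k _ (fv (chXT C j) wt wt a) + -(cP k _ (fv (chVT C j) wt wt b)) =
      cP k _ (fv (chXT C j) wt wt a + -(fv (chVT C j) wt wt b))
    rw [map_add, map_neg]

theorem fv_mvg (a : (fSD (chXT C j) wt wt).V) (b : (fSD (chVT C j) wt wt).V) :
    fv (chWT C j) wt wt ((mvg C j).f (a, b)) =
      fv (chXT C j) wt wt a + -(fv (chVT C j) wt wt b) := rfl

theorem mvg_isHom : ((fBi (chXT C j)).prod (fBi (chVT C j))).IsHom (fBi (chWT C j)) (mvg C j) := by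
  refine ⟨fun r v => ?_, fun v r => ?_⟩
  · obtain ⟨a, b⟩ := v
    refine f_ext (chWT C j) ?_
    change cMul k (matL j (Fin 2) (Fin 2) (Fin 2)) (qv C wt wt r) (fv (chXT C j) wt wt a) +
        -(cMul k (matL j (Fin 2) (Fin 2) (Fin 2)) (qv C wt wt r) (fv (chVT C j) wt wt b)) =
      cMul k (matL j (Fin 2) (Fin 2) (Fin 2)) (qv C wt wt r)
        (fv (chXT C j) wt wt a + -(fv (chVT C j) wt wt b))
    rw [map_add, map_neg]
  · obtain ⟨a, b⟩ := v
    refine f_ext (chWT C j) ?_
    change cMul k (matR j (Fin 2) (Fin 2) (Fin 2)) (fv (chXT C j) wt wt a) (qv C wt wt r) +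
        -(cMul k (matR j (Fin 2) (Fin 2) (Fin 2)) (fv (chVT C j) wt wt b) (qv C wt wt r)) =
      cMul k (matR j (Fin 2) (Fin 2) (Fin 2))
        (fv (chXT C j) wt wt a + -(fv (chVT C j) wt wt b)) (qv C wt wt r)
    rw [map_add, map_neg, LinearMap.add_apply, LinearMap.neg_apply]

variable (E : CubeRoot k t K) (hj : Function.Injective j) [CharP k 3] (ht : t ≠ 0)

/-- `f ↦ (f, f)` -/
def mvf : SD.Hom (AA C).toSD ((fSD (chXT C j) wt wt).prod (fSD (chVT C j) wt wt)) :=
  SD.Hom.pair (jin (chX C E j hj ht) wt wt) (jin (chV C E j hj ht) wt wt)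

theorem mvf_isHom :
    (AA C).diag.IsHom ((fBi (chXT C j)).prod (fBi (chVT C j))) (mvf C j E hj ht) :=
  ⟨fun a x => Prod.ext ((jin_isHom (chX C E j hj ht)).l a x)
      ((jin_isHom (chV C E j hj ht)).l a x),
    fun x a => Prod.ext ((jin_isHom (chX C E j hj ht)).r x a)
      ((jin_isHom (chV C E j hj ht)).r x a)⟩

/-- the sequence is exact on each component: `CubicRing.mem_Y_of_mem_RV`, `CubicRing.exists_add` -/
theorem mv_SES : SD.SES (mvf C j E hj ht) (mvg C j) where
  inj := by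
    intro x hx
    have h1 : (jin (chX C E j hj ht) wt wt).f x = 0 := congrArg Prod.fst hx
    have h2 : fv (chXT C j) wt wt ((jin (chX C E j hj ht) wt wt).f x) = 0 :=
      (congrArg (fv (chXT C j) wt wt) h1).trans (map_zero (fv (chXT C j) wt wt))
    refine q_ext C ?_
    refine Eq.trans ?_ (map_zero (qv C wt wt)).symm
    funext s
    ext i l
    have h3 : j (qv C wt wt x s i l) = 0 := congrFun (congrFun (congrFun h2 s) i) l
    exact hj (h3.trans (map_zero j).symm)
  surj := by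
    intro x
    have hx := fv_mem (chWT C j) x
    have hY : ∀ i l : Fin 2, ∃ a b : F, (∃ r, j r = a) ∧
        j (C.u : R) ^ (-(wt l - wt i)) * b ∈ C.RV j ∧
          a + -b = fv (chWT C j) wt wt x Pc.Y i l := by
      intro i l
      have h1 : fv (chWT C j) wt wt x Pc.Y i l ∈ C.RUV j := hx Pc.Y i l
      have hu : j (C.u : R) ≠ 0 := ju_ne C j
      have hz : ∀ n : ℤ, j ((C.u ^ n : Rˣ) : R) = j (C.u : R) ^ n := by
        intro n
        have h1 : j ((C.u ^ n : Rˣ) : R) = ((Units.map (j : R →* F) (C.u ^ n) : Fˣ) : F) := rfl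
        rw [h1, map_zpow, Units.val_zpow_eq_zpow_val]
        rfl
      have h2 : j (C.u : R) ^ (-(wt l - wt i)) * fv (chWT C j) wt wt x Pc.Y i l ∈ C.RUV j := by
        refine (C.RUV j).mul_mem ?_ h1
        rw [← hz]
        exact Algebra.subset_adjoin (Or.inl ⟨_, rfl⟩)
      obtain ⟨r, y, hy, hr⟩ := C.exists_add E j hj _ h2
      refine ⟨j (((C.u ^ (wt l - wt i) : Rˣ) : R) * r), -(j (C.u : R) ^ (wt l - wt i) * y),
        ⟨_, rfl⟩, ?_, ?_⟩
      · rw [mul_neg, ← mul_assoc, ← zpow_add₀ hu, neg_add_cancel, zpow_zero, one_mul]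
        exact (C.RV j).neg_mem hy
      · rw [neg_neg, map_mul, hz, ← mul_add, ← hr, ← mul_assoc, ← zpow_add₀ hu,
          add_neg_cancel, zpow_zero, one_mul]
    choose a b ha hb hab using hY
    let fa : Pc → Matrix (Fin 2) (Fin 2) F := fun s => match s with
      | Pc.X => 0
      | Pc.Y => Matrix.of a
      | Pc.R => 0
    let fb : Pc → Matrix (Fin 2) (Fin 2) F := fun s => match s with
      | Pc.X => -(fv (chWT C j) wt wt x Pc.X)
      | Pc.Y => Matrix.of b
      | Pc.R => -(fv (chWT C j) wt wt x Pc.R)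
    have hfa : fa ∈ FQ (chXT C j).S wt wt := by
      intro s i l
      cases s with
      | X => exact ((chXT C j).S Pc.X _).zero_mem
      | Y => exact (mem_chXT_Y C j _ _).2 (ha i l)
      | R => exact ((chXT C j).S Pc.R _).zero_mem
    have hfb : fb ∈ FQ (chVT C j).S wt wt := by
      intro s i l
      cases s with
      | X => exact ((chVT C j).S Pc.X _).neg_mem ((mem_chVT_X C j _ _).2 (hx Pc.X i l))
      | Y => exact (mem_chVT_Y C j _ _).2 (hb i l)
      | R => exact ((chVT C j).S Pc.R _).neg_mem ((mem_chVT_R C j _ _).2 (hx Pc.R i l))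
    refine ⟨(fmk (chXT C j) wt wt fa hfa, fmk (chVT C j) wt wt fb hfb), ?_⟩
    refine f_ext (chWT C j) ?_
    rw [fv_mvg, fv_fmk, fv_fmk]
    funext s
    ext i l
    cases s with
    | X =>
      change (0 : F) + -(-(fv (chWT C j) wt wt x Pc.X i l)) = _
      rw [neg_neg, zero_add]
    | Y => exact hab i l
    | R =>
      change (0 : F) + -(-(fv (chWT C j) wt wt x Pc.R i l)) = _
      rw [neg_neg, zero_add]
  zero := by
    intro x
    refine f_ext (chWT C j) ?_
    change (fun s => (qv C wt wt x s).map j) + -(fun s => (qv C wt wt x s).map j) = 0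
    exact add_neg_cancel _
  exact := by
    rintro ⟨a, b⟩ hab
    have h1 : fv (chXT C j) wt wt a + -(fv (chVT C j) wt wt b) = 0 := by
      have h2 := congrArg (fv (chWT C j) wt wt) hab
      rw [fv_mvg, map_zero] at h2
      exact h2
    have h2 : fv (chXT C j) wt wt a = fv (chVT C j) wt wt b := by
      rw [← sub_eq_add_neg] at h1
      exact sub_eq_zero.1 h1
    have ha := fv_mem (chXT C j) a
    have hb := fv_mem (chVT C j) b
    have hz : ∀ n : ℤ, j ((C.u ^ n : Rˣ) : R) = j (C.u : R) ^ n := by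
      intro n
      have h1 : j ((C.u ^ n : Rˣ) : R) = ((Units.map (j : R →* F) (C.u ^ n) : Fˣ) : F) := rfl
      rw [h1, map_zpow, Units.val_zpow_eq_zpow_val]
      rfl
    have hr : ∀ (s : Pc) (i l : Fin 2), ∃ r : R, r ∈ C.pc s (wt l - wt i) ∧
        j r = fv (chXT C j) wt wt a s i l := by
      intro s i l
      cases s with
      | X =>
        obtain ⟨r, hr, h⟩ := (mem_chXT_X C j _ _).1 (ha Pc.X i l)
        exact ⟨r, hr, h⟩
      | Y =>
        obtain ⟨r, h⟩ := (mem_chXT_Y C j _ _).1 (ha Pc.Y i l)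
        refine ⟨r, ?_, h⟩
        have h3 := (mem_chVT_Y C j _ _).1 (hb Pc.Y i l)
        rw [← h2, ← h, ← hz, ← map_mul] at h3
        have h4 := C.mem_Y_of_mem_RV E j hj _ h3
        have h5 := C.mul_mem_Y (C.upow_mem_Y (le_refl (wt l - wt i))) h4
        rw [← mul_assoc, ← Units.val_mul, ← zpow_add, add_neg_cancel, zpow_zero, Units.val_one,
          one_mul, add_zero] at h5
        exact h5
      | R =>
        obtain ⟨r, h⟩ := (mem_chXT_R C j _ _).1 (ha Pc.R i l)
        exact ⟨r, Submodule.mem_top, h⟩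
    choose r hr1 hr2 using hr
    refine ⟨qmk C wt wt (fun s => Matrix.of (r s)) (fun s i l => hr1 s i l), ?_⟩
    refine Prod.ext (f_ext (chXT C j) ?_) (f_ext (chVT C j) ?_)
    · funext s
      ext i l
      exact hr2 s i l
    · rw [← h2]
      funext s
      ext i l
      exact hr2 s i l

/-! ### comparison of the cycles -/

/-- `HC (NC_X) → HC (NC_W)` -/
def iXW : SD.Hom (HC (fBi (chXT C j))) (HC (fBi (chWT C j))) :=
  hcN _ _ (fIncl (chXT_le C j) wt wt) (fIncl_isHom (chXT_le C j))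

/-- `HC (NC_V) → HC (NC_W)` -/
def iVW : SD.Hom (HC (fBi (chVT C j))) (HC (fBi (chWT C j))) :=
  hcN _ _ (fIncl (chVT_le C j) wt wt) (fIncl_isHom (chVT_le C j))

theorem iXW_gU (b : C.RX j) : (iXW C j).f (gU (chX C E j hj ht) b)
    = gU (chW C E j hj ht) (⟨b.1, C.RX_le_RUV j b.2⟩ : C.RUV j) := by
  refine (hcN_nil _ _ _ _ _).trans (congrArg Wd.nil ?_)
  exact f_ext (chWT C j) rfl

theorem iXW_zU (b : C.RX j) : (iXW C j).f (zU (chX C E j hj ht) b)
    = zU (chW C E j hj ht) (⟨b.1, C.RX_le_RUV j b.2⟩ : C.RUV j) := by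
  refine (congrArg (iXW C j).f (zU_apply (chX C E j hj ht) b)).trans ?_
  refine (map_sub (iXW C j).f _ _).trans ?_
  refine Eq.trans ?_ (zU_apply (chW C E j hj ht) _).symm
  refine congrArg₂ (· - ·) ?_ ?_
  · refine (hcN_snoc _ _ _ _ _ _).trans ?_
    refine congrArg (fun z => Wd.snoc z _) ?_
    refine (hcN_nil _ _ _ _ _).trans (congrArg Wd.nil ?_)
    exact f_ext (chWT C j) rfl
  · refine (hcN_snoc _ _ _ _ _ _).trans ?_
    refine congrArg (fun z => Wd.snoc z _) ?_
    refine (hcN_nil _ _ _ _ _).trans (congrArg Wd.nil ?_)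
    exact f_ext (chWT C j) rfl

theorem iVW_gU (b : C.RV j) : (iVW C j).f (gU (chV C E j hj ht) b)
    = gU (chW C E j hj ht) (⟨b.1, C.RV_le_RUV j b.2⟩ : C.RUV j) := by
  refine (hcN_nil _ _ _ _ _).trans (congrArg Wd.nil ?_)
  refine f_ext (chWT C j) ?_
  change cst (Matrix.single 0 0 (j (C.u : R) ^ (wt 0 - wt 0) * (b : F))) =
    cst (Matrix.single 0 0 ((1 : F) ^ (wt 0 - wt 0) * (b : F)))
  rw [sub_self, zpow_zero, zpow_zero]

/-- by `exists_tau0` -/
theorem gU_W_inj (b : C.RUV j) (h : ∃ y, (HC (fBi (chWT C j))).D y = gU (chW C E j hj ht) b) :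
    b = 0 := by
  obtain ⟨τ, h0, h1⟩ := exists_tau0 (chWT C j)
  obtain ⟨y, hy⟩ := h
  have h2 : τ (gU (chW C E j hj ht) b) = 0 := by rw [← hy, h0]
  have h3 := (h1 (fc (chW C E j hj ht) 0 0 b)).symm.trans h2
  have h4 : (Matrix.single (0 : Fin 2) (0 : Fin 2)
      ((1 : F) ^ (wt 0 - wt 0) * (b : F))).trace = 0 := h3
  rw [Matrix.trace_single_eq_same, sub_self, zpow_zero, one_mul] at h4
  exact Subtype.ext h4

/-- the value of the second functional -/
theorem tau1_val {T : PS C j} {der : R →ₗ[k] R} {τ : (HC (fBi T)).V →ₗ[k] F}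
    (h1 : ∀ (f : (fSD T wt wt).V) (a : (AA C).V), τ (Wd.snoc (Wd.nil f) a)
        = (fv T wt wt f Pc.X * (qv C wt wt a Pc.X).map (fun r => j (der r))).trace)
    (f : (fSD T wt wt).V) (x : F) (hf : fv T wt wt f Pc.X = Matrix.single 1 0 x) (r : R)
    (hr : ∀ s : Pc, r ∈ C.pc s 1) : τ (Wd.snoc (Wd.nil f) (secA C r hr)) = x * j (der r) := by
  rw [h1, hf]
  have h2 : (qv C wt wt (secA C r hr) Pc.X).map (fun r => j (der r)) =
      Matrix.single (0 : Fin 2) (1 : Fin 2) (j (der r)) := by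
    rw [qv_secA, cst_X]
    exact Matrix.map_single (0 : Fin 2) (1 : Fin 2) r (j.toLinearMap ∘ₗ der)
  rw [h2, Matrix.single_mul_single_same, Matrix.trace_single_eq_same]

theorem der_one {der : R →ₗ[k] R} (h : ∀ a b, der (a * b) = a * der b + der a * b) :
    der 1 = 0 := by
  have h1 := h 1 1
  rw [mul_one, one_mul, mul_one] at h1
  exact (left_eq_add.mp h1)

/-- the functional of degree one on the intersection -/
theorem exists_tauW : ∃ τ : (HC (fBi (chWT C j))).V →ₗ[k] F,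
    (∀ x, τ ((HC (fBi (chWT C j))).D x) = 0) ∧
    (∀ b : C.RUV j, τ (zU (chW C E j hj ht) b) = b) ∧
    (∀ b : C.RV j, τ ((iVW C j).f (zU (chV C E j hj ht) b)) = (b : F) * j C.s) := by
  obtain ⟨der, hd, hu, hw⟩ := exists_der C
  obtain ⟨τ, h0, h1⟩ := exists_tau1 (chWT C j) der hd
  have hu0 : j (C.u : R) ≠ 0 := ju_ne C j
  have e10 : wt 0 - wt 1 = -1 := by simp [wt]
  refine ⟨τ, h0, fun b => ?_, fun b => ?_⟩
  · have hf : ∀ b : C.RUV j, fv (chWT C j) wt wt (fc (chW C E j hj ht) 1 0 b) Pc.X =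
        Matrix.single 1 0 (b : F) := by
      intro b
      change Matrix.single 1 0 ((1 : F) ^ (wt 0 - wt 1) * (b : F)) = _
      rw [one_zpow, one_mul]
    refine (congrArg τ (zU_apply (chW C E j hj ht) b)).trans ((map_sub τ _ _).trans ?_)
    have e1 := tau1_val C j h1 (fc (chW C E j hj ht) 1 0 b) _ (hf b) (C.u : R)
      (chW C E j hj ht).hs1
    have e2 := tau1_val C j h1 (fc (chW C E j hj ht) 1 0
      ((b * ⟨j (C.u : R), C.ju_mem_RUV j⟩ : C.RUV j))) _ (hf _) (1 : R) (chW C E j hj ht).hs0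
    rw [hu, map_one, mul_one] at e1
    rw [der_one hd, map_zero, mul_zero] at e2
    exact (congrArg₂ (· - ·) e1 e2).trans (sub_zero _)
  · have hf : ∀ b : C.RV j, fv (chWT C j) wt wt
        ((fIncl (chVT_le C j) wt wt).f (fc (chV C E j hj ht) 1 0 b)) Pc.X =
        Matrix.single 1 0 ((j (C.u : R))⁻¹ * (b : F)) := by
      intro b
      change Matrix.single 1 0 (j (C.u : R) ^ (wt 0 - wt 1) * (b : F)) = _
      rw [e10, zpow_neg_one]
    have e0 : (iVW C j).f (zU (chV C E j hj ht) b) =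
        Wd.snoc (Wd.nil ((fIncl (chVT_le C j) wt wt).f (fc (chV C E j hj ht) 1 0 b)))
          (secA C C.w (chV C E j hj ht).hs1) -
        Wd.snoc (Wd.nil ((fIncl (chVT_le C j) wt wt).f (fc (chV C E j hj ht) 1 0
          ((b * ⟨j (((C.u⁻¹ : Rˣ) : R) * C.w), C.jw'_mem_RV j⟩ : C.RV j)))))
          (secA C (C.u : R) (chV C E j hj ht).hs0) := by
      refine (congrArg (iVW C j).f (zU_apply (chV C E j hj ht) b)).trans ?_
      refine (map_sub (iVW C j).f _ _).trans ?_
      refine congrArg₂ (· - ·) ?_ ?_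
      · refine (hcN_snoc _ _ _ _ _ _).trans ?_
        refine congrArg (fun z => Wd.snoc z _) ?_
        exact hcN_nil _ _ _ _ _
      · refine (hcN_snoc _ _ _ _ _ _).trans ?_
        refine congrArg (fun z => Wd.snoc z _) ?_
        exact hcN_nil _ _ _ _ _
    rw [e0, map_sub]
    have e1 := tau1_val C j h1 _ _ (hf b) C.w (chV C E j hj ht).hs1
    have e2 := tau1_val C j h1 _ _ (hf (b * ⟨j (((C.u⁻¹ : Rˣ) : R) * C.w), C.jw'_mem_RV j⟩))
      (C.u : R) (chV C E j hj ht).hs0
    rw [hw] at e1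
    rw [hu, map_one, mul_one] at e2
    refine (congrArg₂ (· - ·) e1 e2).trans ?_
    have es : j C.s = 1 - (j (C.u : R))⁻¹ * ((j (C.u : R))⁻¹ * j C.w) := by
      have hz : j ((C.u ^ (-2 : ℤ) : Rˣ) : R) = j (C.u : R) ^ (-2 : ℤ) := by
        have h1 : j ((C.u ^ (-2 : ℤ) : Rˣ) : R) =
          ((Units.map (j : R →* F) (C.u ^ (-2 : ℤ)) : Fˣ) : F) := rfl
        rw [h1, map_zpow, Units.val_zpow_eq_zpow_val]
        rfl
      rw [CubicRing.s, map_sub, map_one, map_mul, hz]
      congr 1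
      rw [zpow_neg, ← mul_assoc, ← mul_inv]
      congr 2
      exact zpow_two _
    have hv : j ((C.u⁻¹ : Rˣ) : R) = (j (C.u : R))⁻¹ := by
      refine eq_inv_of_mul_eq_one_left ?_
      rw [← map_mul, Units.inv_mul, map_one]
    change (j (C.u : R))⁻¹ * (b : F) * j (C.u : R) -
      (j (C.u : R))⁻¹ * ((b : F) * j (((C.u⁻¹ : Rˣ) : R) * C.w)) = (b : F) * j C.s
    rw [es, map_mul, hv]
    field_simp

/-- by `exists_tau1` and `exists_der`: the value of `τ₁` on `zU b` is `b` -/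
theorem zU_W_inj (b : C.RUV j) (h : ∃ y, (HC (fBi (chWT C j))).D y = zU (chW C E j hj ht) b) :
    b = 0 := by
  obtain ⟨τ, h0, h1, -⟩ := exists_tauW C j E hj ht
  obtain ⟨y, hy⟩ := h
  have h2 := h1 b
  rw [← hy, h0] at h2
  exact Subtype.ext h2.symm

theorem s_mul_mem (b : C.RV j) : (b : F) * j C.s ∈ C.RUV j :=
  (C.RUV j).mul_mem (C.RV_le_RUV j b.2) (Algebra.subset_adjoin (Or.inl ⟨C.s, rfl⟩))

/-- `hW` is `hodd_U` of FU for the chart `W`; the value of `τ₁` on the left side is `b s` -/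
theorem iVW_zU (hW : ∀ x : (HC (fBi (chWT C j))).V, (HC (fBi (chWT C j))).P x = 0 →
      (HC (fBi (chWT C j))).D x = 0 → ∃ b : C.RUV j, (HC (fBi (chWT C j))).Hml x
        (zU (chW C E j hj ht) b)) (b : C.RV j) :
    (HC (fBi (chWT C j))).Hml ((iVW C j).f (zU (chV C E j hj ht) b))
      (zU (chW C E j hj ht) (⟨_, s_mul_mem C j b⟩ : C.RUV j)) := by
  obtain ⟨τ, h0, h1, h2⟩ := exists_tauW C j E hj ht
  have hP : (HC (fBi (chWT C j))).P ((iVW C j).f (zU (chV C E j hj ht) b)) = 0 := by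
    have h := (iVW C j).P (zU (chV C E j hj ht) b)
    rw [← h]
    exact (congrArg (iVW C j).f (zU_P (chV C E j hj ht) b)).trans (map_zero _)
  have hD : (HC (fBi (chWT C j))).D ((iVW C j).f (zU (chV C E j hj ht) b)) = 0 := by
    have h := (iVW C j).D (zU (chV C E j hj ht) b)
    rw [← h]
    exact (congrArg (iVW C j).f (zU_D (chV C E j hj ht) b)).trans (map_zero _)
  obtain ⟨b', y, hy⟩ := hW _ hP hD
  have h3 : τ ((iVW C j).f (zU (chV C E j hj ht) b)) = τ (zU (chW C E j hj ht) b') := by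
    have h4 := congrArg τ hy
    rw [h0] at h4
    exact sub_eq_zero.1 ((map_sub τ _ _).symm.trans h4.symm)
  rw [h2, h1] at h3
  have h5 : b' = ⟨_, s_mul_mem C j b⟩ := Subtype.ext h3.symm
  rw [← h5]
  exact ⟨y, hy⟩

end H36.NX
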