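import Pool.Agent.H15.NX.FU
import Pool.Agent.H15.NX.MV

/-!
# HHb : the Hochschild homology of `AA C`: even part spanned by two classes, odd part spanned by two classes
-/

set_option autoImplicit false

open NC

noncomputable section

namespace H36.NX

variable {k : Type} [Field k] {t : k} {R : Type} [CommRing R] [Algebra k R]
  {K : Type} [Field K] [Algebra k K] {F : Type} [Field F] [Algebra k F]
  (C : CubicRing k t R) (j : R →ₐ[k] F)
  (E : CubeRoot k t K) (hj : Function.Injective j)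

/-- the middle term -/
abbrev MXV : SD k := HC ((fBi (chXT C j)).prod (fBi (chVT C j)))

/-- the first inclusion on Hochschild complexes -/
def inX : SD.Hom (HC (fBi (chXT C j))) (MXV C j) :=
  hcN (fBi (chXT C j)) ((fBi (chXT C j)).prod (fBi (chVT C j)))
    (SD.inl (fSD (chXT C j) wt wt) (fSD (chVT C j) wt wt)) (by
    constructor
    · intro a n
      exact Prod.ext rfl (map_zero ((fLA (chVT C j) wt).act a)).symm
    · intro n a
      exact Prod.ext rfl (by
        change (0 : (fSD (chVT C j) wt wt).V) = (fRA (chVT C j) wt).act 0 a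
        rw [map_zero, LinearMap.zero_apply]))

/-- the second inclusion on Hochschild complexes -/
def inV : SD.Hom (HC (fBi (chVT C j))) (MXV C j) :=
  hcN (fBi (chVT C j)) ((fBi (chXT C j)).prod (fBi (chVT C j)))
    (SD.inr (fSD (chXT C j) wt wt) (fSD (chVT C j) wt wt)) (by
    constructor
    · intro a n
      exact Prod.ext (map_zero ((fLA (chXT C j) wt).act a)).symm rfl
    · intro n a
      exact Prod.ext (by
        change (0 : (fSD (chXT C j) wt wt).V) = (fRA (chXT C j) wt).act 0 a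
        rw [map_zero, LinearMap.zero_apply]) rfl)

/-- the first projection on Hochschild complexes -/
def prX : SD.Hom (MXV C j) (HC (fBi (chXT C j))) :=
  hcN ((fBi (chXT C j)).prod (fBi (chVT C j))) (fBi (chXT C j))
    (SD.fst (fSD (chXT C j) wt wt) (fSD (chVT C j) wt wt)) ⟨fun _ _ => rfl, fun _ _ => rfl⟩

/-- the second projection on Hochschild complexes -/
def prV : SD.Hom (MXV C j) (HC (fBi (chVT C j))) :=
  hcN ((fBi (chXT C j)).prod (fBi (chVT C j))) (fBi (chVT C j))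
    (SD.snd (fSD (chXT C j) wt wt) (fSD (chVT C j) wt wt)) ⟨fun _ _ => rfl, fun _ _ => rfl⟩

/-- the second map of the Mayer-Vietoris sequence on Hochschild complexes -/
def hcG : SD.Hom (MXV C j) (HC (fBi (chWT C j))) :=
  hcN _ _ (mvg C j) (mvg_isHom C j)

/-- the first map of the Mayer-Vietoris sequence on Hochschild complexes -/
def hcF [CharP k 3] (ht : t ≠ 0) : SD.Hom (HC (AA C).diag) (MXV C j) :=
  hcN _ _ (mvf C j E hj ht) (mvf_isHom C j E hj ht)

theorem hc_SES [CharP k 3] (ht : t ≠ 0) : SD.SES (hcF C j E hj ht) (hcG C j) :=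
  SES_hc _ _ _ _ (mvf_isHom C j E hj ht) _ (mvg_isHom C j) (mv_SES C j E hj ht)

theorem in_pr (m : (MXV C j).V) :
    (inX C j).f ((prX C j).f m) + (inV C j).f ((prV C j).f m) = m := by
  have h1 : (inX C j).f ((prX C j).f m) = Wd.mh (AA C).V
      ((SD.inl (fSD (chXT C j) wt wt) (fSD (chVT C j) wt wt)).f ∘ₗ
        (SD.fst (fSD (chXT C j) wt wt) (fSD (chVT C j) wt wt)).f) m := Wd.mh_comp _ _ m
  have h2 : (inV C j).f ((prV C j).f m) = Wd.mh (AA C).V
      ((SD.inr (fSD (chXT C j) wt wt) (fSD (chVT C j) wt wt)).f ∘ₗ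
        (SD.snd (fSD (chXT C j) wt wt) (fSD (chVT C j) wt wt)).f) m := Wd.mh_comp _ _ m
  rw [h1, h2]
  refine (Wd.mh_add _ _ m).symm.trans ?_
  refine (Wd.mh_congr (g := LinearMap.id) (fun n => ?_) m).trans (Wd.mh_id m)
  exact Prod.ext (add_zero _) (zero_add _)

theorem hcG_eq (m : (MXV C j).V) :
    (hcG C j).f m = (iXW C j).f ((prX C j).f m) - (iVW C j).f ((prV C j).f m) := by
  have h1 : (iXW C j).f ((prX C j).f m) = Wd.mh (AA C).V
      ((fIncl (chXT_le C j) wt wt).f ∘ₗ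
        (SD.fst (fSD (chXT C j) wt wt) (fSD (chVT C j) wt wt)).f) m := Wd.mh_comp _ _ m
  have h2 : (iVW C j).f ((prV C j).f m) = Wd.mh (AA C).V
      ((fIncl (chVT_le C j) wt wt).f ∘ₗ
        (SD.snd (fSD (chXT C j) wt wt) (fSD (chVT C j) wt wt)).f) m := Wd.mh_comp _ _ m
  rw [h1, h2]
  refine Eq.trans ?_ (Wd.mh_sub _ _ m)
  refine Wd.mh_congr (fun n => ?_) m
  exact (sub_eq_add_neg _ _).symm

theorem prX_inX (x : (HC (fBi (chXT C j))).V) : (prX C j).f ((inX C j).f x) = x :=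
  (Wd.mh_comp _ _ x).trans ((Wd.mh_congr (g := LinearMap.id) (fun _ => rfl) x).trans (Wd.mh_id x))

theorem prV_inV (x : (HC (fBi (chVT C j))).V) : (prV C j).f ((inV C j).f x) = x :=
  (Wd.mh_comp _ _ x).trans ((Wd.mh_congr (g := LinearMap.id) (fun _ => rfl) x).trans (Wd.mh_id x))

theorem prV_inX (x : (HC (fBi (chXT C j))).V) : (prV C j).f ((inX C j).f x) = 0 :=
  (Wd.mh_comp _ _ x).trans ((Wd.mh_congr (g := 0) (fun _ => rfl) x).trans (Wd.mh_zero x))

theorem prX_inV (x : (HC (fBi (chVT C j))).V) : (prX C j).f ((inV C j).f x) = 0 :=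
  (Wd.mh_comp _ _ x).trans ((Wd.mh_congr (g := 0) (fun _ => rfl) x).trans (Wd.mh_zero x))

theorem hcG_inX (x : (HC (fBi (chXT C j))).V) :
    (hcG C j).f ((inX C j).f x) = (iXW C j).f x := by
  rw [hcG_eq, prX_inX, prV_inX, map_zero, sub_zero]

theorem hcG_inV (x : (HC (fBi (chVT C j))).V) :
    (hcG C j).f ((inV C j).f x) = - (iVW C j).f x := by
  rw [hcG_eq, prX_inV, prV_inV, map_zero, zero_sub]

include E hj in
/-- `CubicRing.inf_eq_bot` -/
theorem mem_k {x : F} (hx : x ∈ C.RX j) (hv : x ∈ C.RV j) : ∃ c : k, x = algebraMap k F c := by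
  have h : x ∈ C.RX j ⊓ C.RV j := ⟨hx, hv⟩
  rw [C.inf_eq_bot E j hj, Algebra.mem_bot] at h
  obtain ⟨c, hc⟩ := h
  exact ⟨c, hc.symm⟩

include E hj in
/-- `s` is a unit of `RV` -/
theorem exists_div_s (b : C.RV j) : ∃ b' : C.RV j, (b' : F) * j C.s = b := by
  refine ⟨b * ⟨(j C.s)⁻¹, Algebra.subset_adjoin (Or.inr rfl)⟩, ?_⟩
  change ((b : F) * (j C.s)⁻¹) * j C.s = b
  rw [mul_assoc, inv_mul_cancel₀ (C.s_ne_zero E j hj), mul_one]

theorem hml_add {N : SD k} {x y x' y' : N.V} (h : N.Hml x y) (h' : N.Hml x' y') :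
    N.Hml (x + x') (y + y') := by
  obtain ⟨z, hz⟩ := h
  obtain ⟨z', hz'⟩ := h'
  exact ⟨z + z', by rw [map_add, hz, hz']; abel⟩

theorem hml_sub {N : SD k} {x y x' y' : N.V} (h : N.Hml x y) (h' : N.Hml x' y') :
    N.Hml (x - x') (y - y') := by
  obtain ⟨z, hz⟩ := h
  obtain ⟨z', hz'⟩ := h'
  exact ⟨z - z', by rw [map_sub, hz, hz']; abel⟩

/-! ### the standard cycles with explicit types -/

variable [CharP k 3] (ht : t ≠ 0)

/-- even cycles, chart `x ≠ 0` -/
def gX : C.RX j →ₗ[k] (HC (fBi (chXT C j))).V := gU (chX C E j hj ht)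
/-- odd cycles, chart `x ≠ 0` -/
def zX : C.RX j →ₗ[k] (HC (fBi (chXT C j))).V := zU (chX C E j hj ht)
/-- even cycles, chart `τ ≠ 0` -/
def gV : C.RV j →ₗ[k] (HC (fBi (chVT C j))).V := gU (chV C E j hj ht)
/-- odd cycles, chart `τ ≠ 0` -/
def zV : C.RV j →ₗ[k] (HC (fBi (chVT C j))).V := zU (chV C E j hj ht)
/-- even cycles, intersection -/
def gW : C.RUV j →ₗ[k] (HC (fBi (chWT C j))).V := gU (chW C E j hj ht)
/-- odd cycles, intersection -/
def zW : C.RUV j →ₗ[k] (HC (fBi (chWT C j))).V := zU (chW C E j hj ht)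

theorem gX_D (b : C.RX j) : (HC (fBi (chXT C j))).D (gX C j E hj ht b) = 0 :=
  gU_D (chX C E j hj ht) b
theorem zX_D (b : C.RX j) : (HC (fBi (chXT C j))).D (zX C j E hj ht b) = 0 :=
  zU_D (chX C E j hj ht) b
theorem gV_D (b : C.RV j) : (HC (fBi (chVT C j))).D (gV C j E hj ht b) = 0 :=
  gU_D (chV C E j hj ht) b
theorem zV_D (b : C.RV j) : (HC (fBi (chVT C j))).D (zV C j E hj ht b) = 0 :=
  zU_D (chV C E j hj ht) b

theorem even_X (x : (HC (fBi (chXT C j))).V) (hP : (HC (fBi (chXT C j))).P x = x)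
    (hD : (HC (fBi (chXT C j))).D x = 0) :
    ∃ b, (HC (fBi (chXT C j))).Hml x (gX C j E hj ht b) :=
  heven_U (chX C E j hj ht) x hP hD

theorem odd_X (x : (HC (fBi (chXT C j))).V) (hP : (HC (fBi (chXT C j))).P x = 0)
    (hD : (HC (fBi (chXT C j))).D x = 0) :
    ∃ b, (HC (fBi (chXT C j))).Hml x (zX C j E hj ht b) :=
  hodd_U (chX C E j hj ht) x hP hD

theorem even_V (x : (HC (fBi (chVT C j))).V) (hP : (HC (fBi (chVT C j))).P x = x)
    (hD : (HC (fBi (chVT C j))).D x = 0) :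
    ∃ b, (HC (fBi (chVT C j))).Hml x (gV C j E hj ht b) :=
  heven_U (chV C E j hj ht) x hP hD

theorem odd_V (x : (HC (fBi (chVT C j))).V) (hP : (HC (fBi (chVT C j))).P x = 0)
    (hD : (HC (fBi (chVT C j))).D x = 0) :
    ∃ b, (HC (fBi (chVT C j))).Hml x (zV C j E hj ht b) :=
  hodd_U (chV C E j hj ht) x hP hD

theorem even_W (x : (HC (fBi (chWT C j))).V) (hP : (HC (fBi (chWT C j))).P x = x)
    (hD : (HC (fBi (chWT C j))).D x = 0) :
    ∃ b, (HC (fBi (chWT C j))).Hml x (gW C j E hj ht b) :=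
  heven_U (chW C E j hj ht) x hP hD

theorem odd_W (x : (HC (fBi (chWT C j))).V) (hP : (HC (fBi (chWT C j))).P x = 0)
    (hD : (HC (fBi (chWT C j))).D x = 0) :
    ∃ b, (HC (fBi (chWT C j))).Hml x (zW C j E hj ht b) :=
  hodd_U (chW C E j hj ht) x hP hD

theorem iXW_gX (b : C.RX j) : (iXW C j).f (gX C j E hj ht b)
    = gW C j E hj ht ⟨b.1, C.RX_le_RUV j b.2⟩ := iXW_gU C j E hj ht b

theorem iXW_zX (b : C.RX j) : (iXW C j).f (zX C j E hj ht b)
    = zW C j E hj ht ⟨b.1, C.RX_le_RUV j b.2⟩ := iXW_zU C j E hj ht b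

theorem iVW_gV (b : C.RV j) : (iVW C j).f (gV C j E hj ht b)
    = gW C j E hj ht ⟨b.1, C.RV_le_RUV j b.2⟩ := iVW_gU C j E hj ht b

theorem iVW_zV (b : C.RV j) : (HC (fBi (chWT C j))).Hml ((iVW C j).f (zV C j E hj ht b))
    (zW C j E hj ht ⟨_, s_mul_mem C j b⟩) :=
  iVW_zU C j E hj ht (fun x h h' => hodd_U (chW C E j hj ht) x h h') b

theorem gW_inj (b : C.RUV j) (h : ∃ y, (HC (fBi (chWT C j))).D y = gW C j E hj ht b) :
    b = 0 := gU_W_inj C j E hj ht b h

theorem zW_inj (b : C.RUV j) (h : ∃ y, (HC (fBi (chWT C j))).D y = zW C j E hj ht b) :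
    b = 0 := zU_W_inj C j E hj ht b h

/-- the missing function -/
def kapF : C.RUV j := ⟨j (C.bas (-1, 2)), Algebra.subset_adjoin (Or.inl ⟨_, rfl⟩)⟩

include E hj ht in
/-- **even part** -/
theorem hh_even : ∃ a b : (HC (AA C).diag).V, (HC (AA C).diag).D a = 0 ∧
    (HC (AA C).diag).D b = 0 ∧ (HC (AA C).diag).P a = a ∧ (HC (AA C).diag).P b = b ∧
    ∀ x, (HC (AA C).diag).P x = x → (HC (AA C).diag).D x = 0 →
      ∃ c d : k, (HC (AA C).diag).Hml x (c • a + d • b) := by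
  refine SD.SES.even_bound (hc_SES C j E hj ht)
    ((inX C j).f (gX C j E hj ht 1) + (inV C j).f (gV C j E hj ht 1))
    (zW C j E hj ht (kapF C j)) ?_ ?_
  · rintro m hP hD ⟨n, hn⟩
    obtain ⟨a, ha⟩ := even_X C j E hj ht ((prX C j).f m)
      (((prX C j).P m).symm.trans (congrArg (prX C j).f hP))
      (((prX C j).D m).symm.trans ((congrArg (prX C j).f hD).trans (map_zero _)))
    obtain ⟨b, hb⟩ := even_V C j E hj ht ((prV C j).f m)
      (((prV C j).P m).symm.trans (congrArg (prV C j).f hP))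
      (((prV C j).D m).symm.trans ((congrArg (prV C j).f hD).trans (map_zero _)))
    have h1 := hml_sub (ha.map (iXW C j)) (hb.map (iVW C j))
    rw [iXW_gX, iVW_gV, ← hcG_eq, ← map_sub, ← hn] at h1
    obtain ⟨v, hv⟩ := h1
    have h2 := gW_inj C j E hj ht _ ⟨n - v, by rw [map_sub, hv, sub_sub_cancel]⟩
    have h3 : (a : F) = b := by
      have := congrArg (Subtype.val) h2
      exact sub_eq_zero.1 this
    obtain ⟨c, hc⟩ := mem_k C j E hj a.2 (h3 ▸ b.2)
    refine ⟨c, ?_⟩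
    have ea : a = c • (1 : C.RX j) := Subtype.ext (by
      rw [hc, Algebra.algebraMap_eq_smul_one]; rfl)
    have eb : b = c • (1 : C.RV j) := Subtype.ext (by
      rw [← h3, hc, Algebra.algebraMap_eq_smul_one]; rfl)
    have h4 := hml_add (ha.map (inX C j)) (hb.map (inV C j))
    rw [in_pr, ea, eb, map_smul, map_smul, map_smul, map_smul, ← smul_add] at h4
    exact h4
  · intro n hP hD
    obtain ⟨b, hb⟩ := odd_W C j E hj ht n hP hD
    obtain ⟨a, ha, b1, hb1, c, hc⟩ := C.exists_sum E j hj b.1 b.2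
    obtain ⟨b2, hb2⟩ := exists_div_s C j E hj ⟨b1, hb1⟩
    refine ⟨c, (inX C j).f (zX C j E hj ht ⟨a, ha⟩) - (inV C j).f (zV C j E hj ht b2), ?_, ?_⟩
    · have e1 : (MXV C j).D ((inX C j).f (zX C j E hj ht ⟨a, ha⟩)) = 0 := by
        rw [← (inX C j).D, zX_D, map_zero]
      have e2 : (MXV C j).D ((inV C j).f (zV C j E hj ht b2)) = 0 := by
        rw [← (inV C j).D, zV_D, map_zero]
      rw [map_sub, e1, e2, sub_zero]
    · rw [map_sub, hcG_inX, hcG_inV, sub_neg_eq_add, iXW_zX]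
      obtain ⟨v, hv⟩ := hb
      obtain ⟨v', hv'⟩ := iVW_zV C j E hj ht b2
      have eb : b = c • kapF C j + ((⟨a, C.RX_le_RUV j ha⟩ : C.RUV j) + ⟨_, s_mul_mem C j b2⟩) :=
        Subtype.ext (by
          change (b : F) = c • j (C.bas (-1, 2)) + (a + (b2 : F) * j C.s)
          rw [hb2, hc]
          abel)
      refine ⟨v - v', ?_⟩
      rw [map_sub, hv, hv', eb, map_add, map_smul, map_add]
      abel

include E hj ht in
/-- **odd part** -/
theorem hh_odd : ∃ a b : (HC (AA C).diag).V, (HC (AA C).diag).D a = 0 ∧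
    (HC (AA C).diag).D b = 0 ∧ (HC (AA C).diag).P a = 0 ∧ (HC (AA C).diag).P b = 0 ∧
    ∀ x, (HC (AA C).diag).P x = 0 → (HC (AA C).diag).D x = 0 →
      ∃ c d : k, (HC (AA C).diag).Hml x (c • a + d • b) := by
  obtain ⟨b0, hb0⟩ := exists_div_s C j E hj (1 : C.RV j)
  refine SD.SES.odd_bound (hc_SES C j E hj ht)
    ((inX C j).f (zX C j E hj ht 1) + (inV C j).f (zV C j E hj ht b0))
    (gW C j E hj ht (kapF C j)) ?_ ?_
  · rintro m hP hD ⟨n, hn⟩
    obtain ⟨a, ha⟩ := odd_X C j E hj ht ((prX C j).f m)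
      (((prX C j).P m).symm.trans ((congrArg (prX C j).f hP).trans (map_zero _)))
      (((prX C j).D m).symm.trans ((congrArg (prX C j).f hD).trans (map_zero _)))
    obtain ⟨b, hb⟩ := odd_V C j E hj ht ((prV C j).f m)
      (((prV C j).P m).symm.trans ((congrArg (prV C j).f hP).trans (map_zero _)))
      (((prV C j).D m).symm.trans ((congrArg (prV C j).f hD).trans (map_zero _)))
    have h1 := hml_sub (ha.map (iXW C j)) ((hb.map (iVW C j)).trans (iVW_zV C j E hj ht b))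
    rw [iXW_zX, ← hcG_eq, ← map_sub, ← hn] at h1
    obtain ⟨v, hv⟩ := h1
    have h2 := zW_inj C j E hj ht _ ⟨n - v, by rw [map_sub, hv, sub_sub_cancel]⟩
    have h3 : (a : F) = (b : F) * j C.s := by
      have := congrArg (Subtype.val) h2
      exact sub_eq_zero.1 this
    have h3' : (a : F) ∈ C.RV j := by
      rw [h3]
      exact (C.RV j).mul_mem b.2 (Algebra.subset_adjoin (Or.inl ⟨C.s, C.s_mem_Y, rfl⟩))
    obtain ⟨c, hc⟩ := mem_k C j E hj a.2 h3'
    refine ⟨c, ?_⟩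
    have ea : a = c • (1 : C.RX j) := Subtype.ext (by
      rw [hc, Algebra.algebraMap_eq_smul_one]; rfl)
    have eb : b = c • b0 := Subtype.ext (by
      change (b : F) = c • (b0 : F)
      refine mul_right_cancel₀ (C.s_ne_zero E j hj) ?_
      rw [← h3, smul_mul_assoc, hb0, hc, Algebra.algebraMap_eq_smul_one]
      rfl)
    have h4 := hml_add (ha.map (inX C j)) (hb.map (inV C j))
    rw [in_pr, ea, eb, map_smul, map_smul, map_smul, map_smul, ← smul_add] at h4
    exact h4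
  · intro n hP hD
    obtain ⟨b, hb⟩ := even_W C j E hj ht n hP hD
    obtain ⟨a, ha, b1, hb1, c, hc⟩ := C.exists_sum E j hj b.1 b.2
    refine ⟨c, (inX C j).f (gX C j E hj ht ⟨a, ha⟩) - (inV C j).f (gV C j E hj ht ⟨b1, hb1⟩),
      ?_, ?_⟩
    · have e1 : (MXV C j).D ((inX C j).f (gX C j E hj ht ⟨a, ha⟩)) = 0 := by
        rw [← (inX C j).D, gX_D, map_zero]
      have e2 : (MXV C j).D ((inV C j).f (gV C j E hj ht ⟨b1, hb1⟩)) = 0 := by
        rw [← (inV C j).D, gV_D, map_zero]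
      rw [map_sub, e1, e2, sub_zero]
    · rw [map_sub, hcG_inX, hcG_inV, sub_neg_eq_add, iXW_gX, iVW_gV]
      obtain ⟨v, hv⟩ := hb
      have eb : b = c • kapF C j
          + ((⟨a, C.RX_le_RUV j ha⟩ : C.RUV j) + (⟨b1, C.RV_le_RUV j hb1⟩ : C.RUV j)) :=
        Subtype.ext (by
          change (b : F) = c • j (C.bas (-1, 2)) + (a + b1)
          rw [hc]
          abel)
      refine ⟨v, ?_⟩
      rw [hv, eb, map_add, map_smul, map_add]

include E hj ht in
theorem finH_HC : (HC (AA C).diag).FinH := by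
  classical
  obtain ⟨a, b, -, -, -, -, h⟩ := hh_even C j E hj ht
  obtain ⟨a', b', -, -, -, -, h'⟩ := hh_odd C j E hj ht
  refine SD.FinH.of_subspace (Submodule.span k {a, b, a', b'})
    (FiniteDimensional.span_of_finite k (Set.toFinite _)) (fun x hx => ?_)
  obtain ⟨c, d, hcd⟩ := h ((HC (AA C).diag).P x) ((HC (AA C).diag).PP x) (by
    rw [(HC (AA C).diag).DP, hx, map_zero, sub_zero])
  obtain ⟨c', d', hcd'⟩ := h' (x - (HC (AA C).diag).P x) (by
      rw [map_sub, (HC (AA C).diag).PP, sub_self]) (by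
    rw [map_sub, (HC (AA C).diag).DP, hx, map_zero, sub_zero, sub_zero])
  have h1 := hml_add hcd hcd'
  rw [add_sub_cancel] at h1
  have m1 : a ∈ ({a, b, a', b'} : Set (HC (AA C).diag).V) := by simp
  have m2 : b ∈ ({a, b, a', b'} : Set (HC (AA C).diag).V) := by simp
  have m3 : a' ∈ ({a, b, a', b'} : Set (HC (AA C).diag).V) := by simp
  have m4 : b' ∈ ({a, b, a', b'} : Set (HC (AA C).diag).V) := by simp
  exact ⟨_, Submodule.add_mem _
    (Submodule.add_mem _ (Submodule.smul_mem _ _ (Submodule.subset_span m1))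
      (Submodule.smul_mem _ _ (Submodule.subset_span m2)))
    (Submodule.add_mem _ (Submodule.smul_mem _ _ (Submodule.subset_span m3))
      (Submodule.smul_mem _ _ (Submodule.subset_span m4))), h1⟩

end H36.NX
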