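import Pool.Agent.H15.NX.HHb
import Pool.Agent.H15.NC.Zdim
import Pool.Agent.H36.NX.HPz

/-!
# HHz : finite dimensional Hochschild homology and `dim HP₀ ∈ {1, 2}` for the dg algebra of the example
-/

set_option autoImplicit false

open NC

noncomputable section

namespace H36.NX

variable {k : Type} [Field k] {t : k} {R : Type} [CommRing R] [Algebra k R]
  {K : Type} [Field K] [Algebra k K] {F : Type} [Field F] [Algebra k F]

/-- the data for the assembly: `HT` is finite dimensional and `dim HP₀` is not zero in `k` -/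
theorem AAz_dims (C : CubicRing k t R) (E : CubeRoot k t K) (j : R →ₐ[k] F)
    (hj : Function.Injective j) [CharP k 3] (ht : t ≠ 0) :
    FiniteDimensional k (AAz C).cyc.HT ∧ FiniteDimensional k ((AAz C).HP 0) ∧
      (Module.finrank k ((AAz C).HP 0) : k) ≠ 0 := by
  have h3 : (3 : k) = 0 := by exact_mod_cast CharP.cast_eq_zero k 3
  have h2 : (2 : k) ≠ 0 := by
    intro h
    have : (1 : k) = 3 - 2 := by norm_num
    rw [h3, h, sub_zero] at this
    exact one_ne_zero this
  obtain ⟨a, b, ha, hb, -, -, h⟩ := hh_even C j E hj ht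
  obtain ⟨h4, h5, h6⟩ := (AAz C).dim_bound h2 (finH_HC C j E hj ht) a b ha hb h
  refine ⟨h4, h5, ?_⟩
  have hR : IsDomain R := C.isDomain E
  obtain ⟨x, hx⟩ := AAz_HP_ne_zero C
  have h7 : 0 < Module.finrank k ((AAz C).HP 0) := by
    have : Nontrivial ((AAz C).HP 0) := ⟨⟨x, 0, hx⟩⟩
    exact Module.finrank_pos
  have h8 : Module.finrank k ((AAz C).HP 0) = 1 ∨ Module.finrank k ((AAz C).HP 0) = 2 := by
    omega
  rcases h8 with h8 | h8
  · rw [h8, Nat.cast_one]
    exact one_ne_zero
  · rw [h8]
    exact_mod_cast h2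

end H36.NX
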