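import Pool.Agent.H15.Sig.Parseval

/-!
# Means of real parts of analytic functions on circles, and of logarithms
-/

open Complex Set Filter Topology MeasureTheory
open scoped ComplexConjugate Real

namespace Pool.Agent.H15.NX

open Pool.Agent.H15.Sig

variable {f : PowerSeries ℂ} {G : ℂ → ℂ}

theorem int_re_zero (h : Rep f G) (h0 : PowerSeries.coeff 0 f = 0) {x : ℝ} (hx0 : 0 ≤ x)
    (hx : x < 1) : ∫ t in (-π)..π, (G (x * ec t)).re = 0 := by
  have h1 := h.coeff_integral hx0 hx 0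
  simp only [pow_zero, map_one, one_mul, h0, zero_mul, mul_zero] at h1
  have hc := h.continuous_circle hx0 hx
  have h2 := intervalIntegral.intervalIntegral_re (μ := volume) (a := -π) (b := π)
    (f := fun t : ℝ => G (x * ec t)) (hc.intervalIntegrable _ _)
  simp only [RCLike.re_to_complex] at h2
  rw [h2, h1, zero_re]

theorem int_re_sq (h : Rep f G) (h0 : PowerSeries.coeff 0 f = 0) {x : ℝ} (hx0 : 0 ≤ x)
    (hx : x < 1) :
    ∫ t in (-π)..π, (G (x * ec t)).re ^ 2 = 1 / 2 * ∫ t in (-π)..π, ‖G (x * ec t)‖ ^ 2 := by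
  have hc := h.continuous_circle hx0 hx
  have h1 := int_re_zero (h.mul h) (by
    rw [PowerSeries.coeff_zero_eq_constantCoeff_apply, map_mul,
      ← PowerSeries.coeff_zero_eq_constantCoeff_apply, h0, mul_zero]) hx0 hx
  have h2 : ∀ t : ℝ, (G (x * ec t)).re ^ 2 =
      1 / 2 * ‖G (x * ec t)‖ ^ 2 + 1 / 2 * (G (x * ec t) * G (x * ec t)).re := by
    intro t
    rw [mul_re, Complex.sq_norm, normSq_apply]
    ring
  simp_rw [h2]
  rw [intervalIntegral.integral_add, intervalIntegral.integral_const_mul,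
    intervalIntegral.integral_const_mul, h1, mul_zero, add_zero]
  · exact ((hc.norm.pow 2).const_mul _).intervalIntegrable _ _
  · exact ((continuous_re.comp (hc.mul hc)).const_mul _).intervalIntegrable _ _

/-- the series of `log (1 - u)` -/
noncomputable def la : PowerSeries ℂ := PowerSeries.mk fun k => -(1 / (k : ℂ))

theorem rep_la : Rep la (fun u => log (1 - u)) := by
  intro u hu
  have h := (hasSum_taylorSeries_neg_log hu).neg
  rw [neg_neg] at h
  refine h.congr_fun ?_ |> fun h => h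
  intro k
  simp only [la, PowerSeries.coeff_mk]
  ring

/-- the series of `log (1 - u) - log (1 + u) / 3` -/
noncomputable def lb : PowerSeries ℂ :=
  PowerSeries.mk fun k => -(1 / (k : ℂ)) + (-1) ^ k / (3 * (k : ℂ))

theorem rep_lb : Rep lb (fun u => log (1 - u) - 1 / 3 * log (1 + u)) := by
  intro u hu
  have h := (hasSum_taylorSeries_neg_log hu).neg
  have hu' : ‖-u‖ < 1 := by rwa [norm_neg]
  have h' := (hasSum_taylorSeries_neg_log hu').mul_left (1 / 3)
  have h2 := h.add h'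
  rw [neg_neg, sub_neg_eq_add] at h2
  have e : log (1 - u) - 1 / 3 * log (1 + u) = log (1 - u) + 1 / 3 * -log (1 + u) := by ring
  simp only
  rw [e]
  refine h2.congr_fun ?_ |> fun h => h
  intro k
  simp only [lb, PowerSeries.coeff_mk]
  rw [neg_pow u k]
  rcases Nat.eq_zero_or_pos k with hk | hk
  · subst hk; simp
  · have : (k : ℂ) ≠ 0 := by exact_mod_cast hk.ne'
    field_simp

theorem la_zero : PowerSeries.coeff 0 la = 0 := by simp [la]

theorem lb_zero : PowerSeries.coeff 0 lb = 0 := by simp [lb]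

theorem sum_la_le {z : ℝ} (hz0 : 0 ≤ z) (hz : z < 1) (n : ℕ) :
    ∑ k ∈ Finset.range (n + 5), (1 / (k : ℝ)) ^ 2 * z ^ (2 * k) ≤
      z ^ 2 + z ^ 4 / 4 + z ^ 6 / 9 + z ^ 8 / 16 + z ^ 10 * (1 / 4 - 1 / ((n : ℝ) + 4)) := by
  induction n with
  | zero => simp [Finset.sum_range_succ]; ring_nf; rfl
  | succ n ih =>
    rw [show n + 1 + 5 = (n + 5) + 1 by ring, Finset.sum_range_succ]
    have h1 : z ^ (2 * (n + 5)) ≤ z ^ 10 := pow_le_pow_of_le_one hz0 hz.le (by omega)
    have h2 : (1 / (((n + 5 : ℕ)) : ℝ)) ^ 2 ≤ 1 / ((n : ℝ) + 4) - 1 / ((n : ℝ) + 5) := by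
      push_cast
      have h3 : (0 : ℝ) < (n : ℝ) + 4 := by positivity
      have h4 : (0 : ℝ) < (n : ℝ) + 5 := by positivity
      rw [div_pow, one_pow, div_sub_div _ _ h3.ne' h4.ne', div_le_div_iff₀ (by positivity)
        (by positivity)]
      nlinarith
    have h5 : (1 / (((n + 5 : ℕ)) : ℝ)) ^ 2 * z ^ (2 * (n + 5)) ≤
        (1 / ((n : ℝ) + 4) - 1 / ((n : ℝ) + 5)) * z ^ 10 :=
      mul_le_mul h2 h1 (by positivity) (le_trans (by positivity) h2)
    push_cast at *
    have h6 : (n : ℝ) + 1 + 4 = (n : ℝ) + 5 := by ring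
    rw [h6]
    linarith

/-- upper bound for the quadratic mean of `log |1 - z u|` -/
theorem int_la_le {z : ℝ} (hz0 : 0 ≤ z) (hz : z < 1) :
    ∫ t in (-π)..π, ‖log (1 - z * ec t)‖ ^ 2 ≤
      2 * π * (z ^ 2 + z ^ 4 / 4 + z ^ 6 / 9 + z ^ 8 / 16 + z ^ 10 / 4) := by
  have h := (rep_la.parseval_self hz0 hz).tendsto_sum_nat
  have h' := h.comp (tendsto_add_atTop_nat 5)
  refine le_of_tendsto' h' fun n => ?_
  simp only [Function.comp]
  have h1 : ∑ k ∈ Finset.range (n + 5), 2 * π * ‖PowerSeries.coeff k la‖ ^ 2 * z ^ (2 * k) =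
      2 * π * ∑ k ∈ Finset.range (n + 5), (1 / (k : ℝ)) ^ 2 * z ^ (2 * k) := by
    rw [Finset.mul_sum]
    refine Finset.sum_congr rfl fun k _ => ?_
    simp only [la, PowerSeries.coeff_mk, norm_neg, norm_div, norm_one, Complex.norm_natCast]
    ring
  rw [h1]
  refine mul_le_mul_of_nonneg_left ((sum_la_le hz0 hz n).trans ?_) (by positivity)
  have h2 : 0 ≤ z ^ 10 * (1 / ((n : ℝ) + 4)) := by positivity
  nlinarith

/-- lower bound for the quadratic mean of `log |1 - w| - log |1 + w| / 3` -/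
theorem int_lb_ge {z : ℝ} (hz0 : 0 ≤ z) (hz : z < 1) :
    2 * π * (16 / 9 * z ^ 2) ≤
      ∫ t in (-π)..π, ‖log (1 - z * ec t) - 1 / 3 * log (1 + z * ec t)‖ ^ 2 := by
  have h := rep_lb.parseval_self hz0 hz
  have h1 := sum_le_hasSum {1} (fun k _ => by positivity) h
  rw [Finset.sum_singleton] at h1
  refine le_trans (le_of_eq ?_) h1
  have : ‖PowerSeries.coeff 1 lb‖ = 4 / 3 := by
    simp only [lb, PowerSeries.coeff_mk]
    norm_num
  rw [this]
  ring

end Pool.Agent.H15.NX
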