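import Mathlib

/-!
# Exponentials of two functions that cross twice
-/

open Set Filter Topology

namespace Pool.Agent.H15.NX

/-- A quadratic polynomial touching `exp (p x)` to first order of its derivative at two points. -/
theorem quad_touch {p x1 x2 : ℝ} (hp : 0 < p) (h : x2 < x1) :
    ∃ β γ : ℝ, 0 < γ ∧
      MonotoneOn (fun x => Real.exp (p * x) - (β * x + γ * x ^ 2)) (Ici x1) ∧
      AntitoneOn (fun x => Real.exp (p * x) - (β * x + γ * x ^ 2)) (Icc x2 x1) ∧
      MonotoneOn (fun x => Real.exp (p * x) - (β * x + γ * x ^ 2)) (Iic x2) := by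
  have hE : StrictConvexOn ℝ univ (fun x : ℝ => p * Real.exp (p * x)) := by
    refine ⟨convex_univ, fun x _ y _ hxy u v hu hv huv => ?_⟩
    have k := strictConvexOn_exp.2 (mem_univ (p * x)) (mem_univ (p * y))
      (fun hh => hxy (mul_left_cancel₀ hp.ne' hh)) hu hv huv
    simp only [smul_eq_mul] at k ⊢
    have e : p * (u * x + v * y) = u * (p * x) + v * (p * y) := by ring
    rw [e]
    nlinarith
  obtain ⟨γ, hγ⟩ : ∃ γ, γ = (p * Real.exp (p * x1) - p * Real.exp (p * x2)) / (2 * (x1 - x2)) :=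
    ⟨_, rfl⟩
  obtain ⟨β, hβ⟩ : ∃ β, β = p * Real.exp (p * x1) - 2 * γ * x1 := ⟨_, rfl⟩
  have hx : 0 < x1 - x2 := by linarith
  have h1 : p * Real.exp (p * x1) = β + 2 * γ * x1 := by rw [hβ]; ring
  have h2 : p * Real.exp (p * x2) = β + 2 * γ * x2 := by
    rw [hβ, hγ]; field_simp; ring
  have hγ0 : 0 < γ := by
    rw [hγ]
    apply div_pos _ (by linarith)
    have : Real.exp (p * x2) < Real.exp (p * x1) := Real.exp_lt_exp.2 (by nlinarith)
    nlinarith
  have hd : ∀ x : ℝ, HasDerivAt (fun x => Real.exp (p * x) - (β * x + γ * x ^ 2))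
      (p * Real.exp (p * x) - (β + 2 * γ * x)) x := by
    intro x
    have k1 : HasDerivAt (fun x => Real.exp (p * x)) (Real.exp (p * x) * p) x := by
      have := ((hasDerivAt_id x).const_mul p).exp
      simpa using this
    have k2 : HasDerivAt (fun x : ℝ => β * x + γ * x ^ 2) (β + γ * (2 * x)) x := by
      have := ((hasDerivAt_id x).const_mul β).fun_add (((hasDerivAt_id x).pow 2).const_mul γ)
      simpa using this
    have k3 := k1.fun_sub k2
    have e : p * Real.exp (p * x) - (β + 2 * γ * x) =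
        Real.exp (p * x) * p - (β + γ * (2 * x)) := by ring
    rw [e]
    exact k3
  have hc : Continuous (fun x => Real.exp (p * x) - (β * x + γ * x ^ 2)) := by fun_prop
  refine ⟨β, γ, hγ0, ?_, ?_, ?_⟩
  · apply monotoneOn_of_deriv_nonneg (convex_Ici _) hc.continuousOn
      (fun x _ => (hd x).differentiableAt.differentiableWithinAt)
    intro x hxx
    rw [interior_Ici] at hxx
    have hxx' : x1 < x := hxx
    rw [(hd x).deriv]
    have := hE.slope_strict_mono_adjacent (mem_univ x2) (mem_univ x) h hxx'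
    simp only [h1, h2] at this
    have e : (β + 2 * γ * x1 - (β + 2 * γ * x2)) / (x1 - x2) = 2 * γ := by field_simp; ring
    rw [e, lt_div_iff₀ (by linarith)] at this
    nlinarith
  · apply antitoneOn_of_deriv_nonpos (convex_Icc _ _) hc.continuousOn
      (fun x _ => (hd x).differentiableAt.differentiableWithinAt)
    intro x hxx
    rw [interior_Icc] at hxx
    rw [(hd x).deriv]
    have := hE.slope_strict_mono_adjacent (mem_univ x2) (mem_univ x1) hxx.1 hxx.2
    simp only [h1, h2] at this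
    have e1 : 0 < x - x2 := by linarith [hxx.1]
    have e2 : 0 < x1 - x := by linarith [hxx.2]
    rw [div_lt_div_iff₀ e1 e2] at this
    have e3 : (p * Real.exp (p * x) - (β + 2 * γ * x)) * (x1 - x2) < 0 := by nlinarith
    nlinarith
  · apply monotoneOn_of_deriv_nonneg (convex_Iic _) hc.continuousOn
      (fun x _ => (hd x).differentiableAt.differentiableWithinAt)
    intro x hxx
    rw [interior_Iic] at hxx
    have hxx' : x < x2 := hxx
    rw [(hd x).deriv]
    have := hE.slope_strict_mono_adjacent (mem_univ x) (mem_univ x1) hxx' h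
    simp only [h1, h2] at this
    have e : (β + 2 * γ * x1 - (β + 2 * γ * x2)) / (x1 - x2) = 2 * γ := by field_simp; ring
    rw [e, div_lt_iff₀ (by linarith)] at this
    nlinarith

/-- Let `a`, `b` be decreasing on `[-1, 1]` and let `b - a` have the signs `+`, `-`, `+`. Then
`exp (p b) - exp (p a)` dominates a quadratic expression. -/
theorem cross {a b : ℝ → ℝ} {p m : ℝ} (hp : 0 < p) (ha : StrictAntiOn a (Icc (-1) 1))
    (hb : AntitoneOn b (Icc (-1) 1)) (hac : ContinuousOn a (Icc (-1) 1))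
    (hbc : ContinuousOn b (Icc (-1) 1)) (hm : m ∈ Icc (-1 : ℝ) 1)
    (hD1 : AntitoneOn (fun c => b c - a c) (Icc (-1) m))
    (hD2 : MonotoneOn (fun c => b c - a c) (Icc m 1))
    (h1 : 0 ≤ b (-1) - a (-1)) (h2 : 0 ≤ b 1 - a 1) (h3 : b m - a m < 0) :
    ∃ β γ : ℝ, 0 < γ ∧ ∀ c ∈ Icc (-1 : ℝ) 1,
      β * (b c - a c) + γ * (b c ^ 2 - a c ^ 2) ≤ Real.exp (p * b c) - Real.exp (p * a c) := by
  have hDc : ContinuousOn (fun c => b c - a c) (Icc (-1) 1) := hbc.sub hac
  obtain ⟨c1, hc1, hc1'⟩ : ∃ c ∈ Icc (-1) m, b c - a c = 0 :=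
    intermediate_value_Icc' hm.1 (hDc.mono (Icc_subset_Icc_right hm.2)) ⟨h3.le, h1⟩
  obtain ⟨c2, hc2, hc2'⟩ : ∃ c ∈ Icc m 1, b c - a c = 0 :=
    intermediate_value_Icc hm.2 (hDc.mono (Icc_subset_Icc_left hm.1)) ⟨h3.le, h2⟩
  have hc1m : c1 < m := lt_of_le_of_ne hc1.2 (fun h => by rw [h] at hc1'; linarith)
  have hc2m : m < c2 := lt_of_le_of_ne hc2.1 (fun h => by rw [← h] at hc2'; linarith)
  have m1 : c1 ∈ Icc (-1 : ℝ) 1 := ⟨hc1.1, hc1.2.trans hm.2⟩
  have m2 : c2 ∈ Icc (-1 : ℝ) 1 := ⟨hm.1.trans hc2.1, hc2.2⟩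
  have hx : a c2 < a c1 := ha m1 m2 (hc1m.trans hc2m)
  obtain ⟨β, γ, hγ, H1, H2, H3⟩ := quad_touch hp hx
  refine ⟨β, γ, hγ, fun c hc => ?_⟩
  suffices h : Real.exp (p * a c) - (β * a c + γ * a c ^ 2) ≤
      Real.exp (p * b c) - (β * b c + γ * b c ^ 2) by nlinarith
  rcases le_total c c1 with h | h
  · -- both at least `a c1`
    have k1 : a c1 ≤ a c := ha.antitoneOn hc m1 h
    have k2 : b c1 - a c1 ≤ b c - a c := hD1 ⟨hc.1, h.trans hc1.2⟩ hc1 h
    exact H1 k1 (by simp only [mem_Ici]; linarith) (by linarith)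
  · rcases le_total c c2 with h' | h'
    · have k1 : a c ≤ a c1 := ha.antitoneOn m1 hc h
      have k2 : b c2 ≤ b c := hb hc m2 h'
      have k3 : b c - a c ≤ 0 := by
        rcases le_total c m with h4 | h4
        · have := hD1 hc1 ⟨hc.1, h4⟩ h
          simp only at this
          linarith
        · have := hD2 ⟨h4, hc.2⟩ hc2 h'
          simp only at this
          linarith
      exact H2 ⟨by linarith, by linarith⟩ ⟨by linarith, by linarith⟩ (by linarith)
    · have k1 : b c ≤ b c2 := hb m2 hc h'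
      have k2 : b c2 - a c2 ≤ b c - a c := hD2 hc2 ⟨hc2.1.trans h', hc.2⟩ h'
      exact H3 (by simp only [mem_Iic]; linarith) (by simp only [mem_Iic]; linarith) (by linarith)

end Pool.Agent.H15.NX
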