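import Pool.Agent.H15.NX.Rb

/-!
# The two logarithms as functions of the cosine
-/

open Set Filter Topology

namespace Pool.Agent.H15.NX

/-- `log |1 - y ^ 2 u|` for `|u| = 1`, `Re u = c` -/
noncomputable def ga (y c : ℝ) : ℝ := 1 / 2 * Real.log (1 + y ^ 4 - 2 * y ^ 2 * c)

/-- `log |1 - y ^ 3 u| - log |1 + y ^ 3 u| / 3` for `|u| = 1`, `Re u = c` -/
noncomputable def gb (y c : ℝ) : ℝ :=
  1 / 2 * Real.log (1 + y ^ 6 - 2 * y ^ 3 * c) - 1 / 6 * Real.log (1 + y ^ 6 + 2 * y ^ 3 * c)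

variable {y c : ℝ}

theorem pos_a (hy0 : 0 < y) (hy1 : y < 1) (hc : c ∈ Icc (-1 : ℝ) 1) :
    0 < 1 + y ^ 4 - 2 * y ^ 2 * c := by
  have h1 : y ^ 2 < 1 := by nlinarith
  have h2 : 0 < y ^ 2 := by positivity
  have h3 : 0 < (1 - y ^ 2) ^ 2 := by have : 0 < 1 - y ^ 2 := by linarith
                                      positivity
  nlinarith [hc.2, mul_nonneg h2.le (sub_nonneg.2 hc.2)]

theorem cube_lt (hy0 : 0 < y) (hy1 : y < 1) : y ^ 3 < 1 := pow_lt_one₀ hy0.le hy1 (by norm_num)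

theorem pos_b (hy0 : 0 < y) (hy1 : y < 1) (hc : c ∈ Icc (-1 : ℝ) 1) :
    0 < 1 + y ^ 6 - 2 * y ^ 3 * c := by
  have h1 := cube_lt hy0 hy1
  have h2 : 0 < y ^ 3 := by positivity
  have h3 : 0 < (1 - y ^ 3) ^ 2 := by have : 0 < 1 - y ^ 3 := by linarith
                                      positivity
  nlinarith [hc.2, mul_nonneg h2.le (sub_nonneg.2 hc.2)]

theorem pos_b' (hy0 : 0 < y) (hy1 : y < 1) (hc : c ∈ Icc (-1 : ℝ) 1) :
    0 < 1 + y ^ 6 + 2 * y ^ 3 * c := by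
  have h1 := cube_lt hy0 hy1
  have h2 : 0 < y ^ 3 := by positivity
  have h3 : 0 < (1 - y ^ 3) ^ 2 := by have : 0 < 1 - y ^ 3 := by linarith
                                      positivity
  nlinarith [hc.1, mul_nonneg h2.le (by linarith [hc.1] : 0 ≤ 1 + c)]

theorem hasDerivAt_ga (hy0 : 0 < y) (hy1 : y < 1) (hc : c ∈ Icc (-1 : ℝ) 1) :
    HasDerivAt (ga y) (-(y ^ 2) / (1 + y ^ 4 - 2 * y ^ 2 * c)) c := by
  have h := pos_a hy0 hy1 hc
  have k : HasDerivAt (fun c => 1 + y ^ 4 - 2 * y ^ 2 * c) (-(2 * y ^ 2)) c := by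
    simpa using ((hasDerivAt_id c).const_mul (2 * y ^ 2)).const_sub (1 + y ^ 4)
  have k2 := (k.log h.ne').const_mul (1 / 2)
  have e : -(y ^ 2) / (1 + y ^ 4 - 2 * y ^ 2 * c) =
      1 / 2 * (-(2 * y ^ 2) / (1 + y ^ 4 - 2 * y ^ 2 * c)) := by ring
  rw [e]
  exact k2

theorem hasDerivAt_gb (hy0 : 0 < y) (hy1 : y < 1) (hc : c ∈ Icc (-1 : ℝ) 1) :
    HasDerivAt (gb y) (-(y ^ 3) / (1 + y ^ 6 - 2 * y ^ 3 * c) -
      1 / 3 * (y ^ 3 / (1 + y ^ 6 + 2 * y ^ 3 * c))) c := by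
  have h := pos_b hy0 hy1 hc
  have h' := pos_b' hy0 hy1 hc
  have k : HasDerivAt (fun c => 1 + y ^ 6 - 2 * y ^ 3 * c) (-(2 * y ^ 3)) c := by
    simpa using ((hasDerivAt_id c).const_mul (2 * y ^ 3)).const_sub (1 + y ^ 6)
  have k' : HasDerivAt (fun c => 1 + y ^ 6 + 2 * y ^ 3 * c) (2 * y ^ 3) c := by
    simpa using ((hasDerivAt_id c).const_mul (2 * y ^ 3)).const_add (1 + y ^ 6)
  have k2 := ((k.log h.ne').const_mul (1 / 2)).fun_sub ((k'.log h'.ne').const_mul (1 / 6))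
  have e : -(y ^ 3) / (1 + y ^ 6 - 2 * y ^ 3 * c) -
      1 / 3 * (y ^ 3 / (1 + y ^ 6 + 2 * y ^ 3 * c)) =
      1 / 2 * (-(2 * y ^ 3) / (1 + y ^ 6 - 2 * y ^ 3 * c)) -
      1 / 6 * (2 * y ^ 3 / (1 + y ^ 6 + 2 * y ^ 3 * c)) := by ring
  rw [e]
  exact k2

theorem cont_ga (hy0 : 0 < y) (hy1 : y < 1) : ContinuousOn (ga y) (Icc (-1) 1) := fun _ hc =>
  (hasDerivAt_ga hy0 hy1 hc).continuousAt.continuousWithinAt

theorem cont_gb (hy0 : 0 < y) (hy1 : y < 1) : ContinuousOn (gb y) (Icc (-1) 1) := fun _ hc =>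
  (hasDerivAt_gb hy0 hy1 hc).continuousAt.continuousWithinAt

theorem anti_ga (hy0 : 0 < y) (hy1 : y < 1) : StrictAntiOn (ga y) (Icc (-1) 1) := by
  apply strictAntiOn_of_deriv_neg (convex_Icc _ _) (cont_ga hy0 hy1)
  intro c hc
  rw [interior_Icc] at hc
  have hc' : c ∈ Icc (-1 : ℝ) 1 := Ioo_subset_Icc_self hc
  rw [(hasDerivAt_ga hy0 hy1 hc').deriv]
  exact div_neg_of_neg_of_pos (by have : 0 < y ^ 2 := by positivity
                                  linarith) (pos_a hy0 hy1 hc')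

theorem anti_gb (hy0 : 0 < y) (hy1 : y < 1) : AntitoneOn (gb y) (Icc (-1) 1) := by
  apply antitoneOn_of_deriv_nonpos (convex_Icc _ _) (cont_gb hy0 hy1)
  · intro c hc
    rw [interior_Icc] at hc
    exact (hasDerivAt_gb hy0 hy1 (Ioo_subset_Icc_self hc)).differentiableAt.differentiableWithinAt
  · intro c hc
    rw [interior_Icc] at hc
    have hc' : c ∈ Icc (-1 : ℝ) 1 := Ioo_subset_Icc_self hc
    rw [(hasDerivAt_gb hy0 hy1 hc').deriv]
    have h1 := pos_b hy0 hy1 hc'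
    have h2 := pos_b' hy0 hy1 hc'
    have h3 : 0 < y ^ 3 := by positivity
    have h4 : -(y ^ 3) / (1 + y ^ 6 - 2 * y ^ 3 * c) ≤ 0 :=
      div_nonpos_of_nonpos_of_nonneg (by linarith) h1.le
    have h5 : 0 ≤ y ^ 3 / (1 + y ^ 6 + 2 * y ^ 3 * c) := by positivity
    linarith

/-- numerator of the derivative of `gb - ga` -/
noncomputable def nd (y c : ℝ) : ℝ :=
  y ^ 2 * (1 + y ^ 6 - 2 * y ^ 3 * c) * (1 + y ^ 6 + 2 * y ^ 3 * c) -
    y ^ 3 * (1 + y ^ 6 + 2 * y ^ 3 * c) * (1 + y ^ 4 - 2 * y ^ 2 * c) -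
    y ^ 3 / 3 * (1 + y ^ 6 - 2 * y ^ 3 * c) * (1 + y ^ 4 - 2 * y ^ 2 * c)

theorem deriv_D (hy0 : 0 < y) (hy1 : y < 1) (hc : c ∈ Icc (-1 : ℝ) 1) :
    HasDerivAt (fun c => gb y c - ga y c) (nd y c / ((1 + y ^ 6 - 2 * y ^ 3 * c) *
      (1 + y ^ 6 + 2 * y ^ 3 * c) * (1 + y ^ 4 - 2 * y ^ 2 * c))) c := by
  have h := (hasDerivAt_gb hy0 hy1 hc).fun_sub (hasDerivAt_ga hy0 hy1 hc)
  have h1 := (pos_b hy0 hy1 hc).ne'
  have h2 := (pos_b' hy0 hy1 hc).ne'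
  have h3 := (pos_a hy0 hy1 hc).ne'
  have e : nd y c / ((1 + y ^ 6 - 2 * y ^ 3 * c) *
      (1 + y ^ 6 + 2 * y ^ 3 * c) * (1 + y ^ 4 - 2 * y ^ 2 * c)) =
      -(y ^ 3) / (1 + y ^ 6 - 2 * y ^ 3 * c) -
      1 / 3 * (y ^ 3 / (1 + y ^ 6 + 2 * y ^ 3 * c)) - -(y ^ 2) / (1 + y ^ 4 - 2 * y ^ 2 * c) := by
    unfold nd
    clear h
    generalize 1 + y ^ 6 - 2 * y ^ 3 * c = P at *
    generalize 1 + y ^ 6 + 2 * y ^ 3 * c = Q at *
    generalize 1 + y ^ 4 - 2 * y ^ 2 * c = R at *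
    generalize y ^ 3 = a at *
    generalize y ^ 2 = b at *
    rw [div_eq_iff (mul_ne_zero (mul_ne_zero h1 h2) h3)]
    have k1 : P * P⁻¹ = 1 := mul_inv_cancel₀ h1
    have k2 : Q * Q⁻¹ = 1 := mul_inv_cancel₀ h2
    have k3 : R * R⁻¹ = 1 := mul_inv_cancel₀ h3
    rw [div_eq_mul_inv, div_eq_mul_inv, div_eq_mul_inv, div_eq_mul_inv]
    linear_combination (a * Q * R) * k1 + (a * P * R / 3) * k2 - (b * P * Q) * k3
  rw [e]
  exact h

theorem nd_one (hy0 : 0 < y) (hy1 : y < 1) : 0 < nd y 1 := by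
  have e : nd y 1 = y ^ 2 * (1 - y) ^ 2 * ((1 + y + y ^ 2) ^ 2 * (1 + y ^ 3) ^ 2 -
      y * (1 + y) ^ 2 * ((1 + y ^ 3) ^ 2 + (1 - y ^ 3) ^ 2 / 3)) := by unfold nd; ring
  rw [e]
  have h1 : 0 < y ^ 2 * (1 - y) ^ 2 := by
    have : 0 < 1 - y := by linarith
    positivity
  apply mul_pos h1
  have h3 : 0 < y ^ 3 := by positivity
  have h4 : (1 - y ^ 3) ^ 2 ≤ (1 + y ^ 3) ^ 2 := by nlinarith
  have h5 : y * (1 + y) ^ 2 * (9 / 4) ≤ (1 + y + y ^ 2) ^ 2 := by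
    have k1 : 3 / 4 * (1 + y) ^ 2 ≤ 1 + y + y ^ 2 := by nlinarith [sq_nonneg (1 - y)]
    have k2 : (3 / 4 * (1 + y) ^ 2) ^ 2 ≤ (1 + y + y ^ 2) ^ 2 :=
      pow_le_pow_left₀ (by positivity) k1 2
    have k3 : 4 * y ≤ (1 + y) ^ 2 := by nlinarith [sq_nonneg (1 - y)]
    have k4 : 4 * y * (1 + y) ^ 2 ≤ (1 + y) ^ 2 * (1 + y) ^ 2 :=
      mul_le_mul_of_nonneg_right k3 (by positivity)
    nlinarith
  have h6 : 0 < (1 + y ^ 3) ^ 2 := by positivity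
  have h7 : y * (1 + y) ^ 2 * (9 / 4) * (1 + y ^ 3) ^ 2 ≤
      (1 + y + y ^ 2) ^ 2 * (1 + y ^ 3) ^ 2 := mul_le_mul_of_nonneg_right h5 h6.le
  have h8 : y * (1 + y) ^ 2 * ((1 + y ^ 3) ^ 2 + (1 - y ^ 3) ^ 2 / 3) ≤
      y * (1 + y) ^ 2 * ((1 + y ^ 3) ^ 2 * (4 / 3)) := by
    apply mul_le_mul_of_nonneg_left _ (by positivity)
    linarith
  have h9 : 0 < y * (1 + y) ^ 2 * (1 + y ^ 3) ^ 2 := by positivity
  nlinarith

theorem nd_neg_one (hy0 : 4 / 5 ≤ y) (hy1 : y < 1) : nd y (-1) < 0 := by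
  have e : nd y (-1) = y ^ 2 * ((1 - y ^ 6) ^ 2 -
      y * (1 + y ^ 2) ^ 2 * ((1 - y ^ 3) ^ 2 + (1 + y ^ 3) ^ 2 / 3)) := by unfold nd; ring
  rw [e]
  have hy : 0 < y := by linarith
  apply mul_neg_of_pos_of_neg (by positivity)
  have h2 : 16 / 25 ≤ y ^ 2 := by nlinarith
  have h3 : 64 / 125 ≤ y ^ 3 := by nlinarith
  have h6 : 1 / 4 ≤ y ^ 6 := by nlinarith
  have h6' : y ^ 6 < 1 := pow_lt_one₀ hy.le hy1 (by norm_num)
  have k1 : (1 - y ^ 6) ^ 2 ≤ 9 / 16 := by nlinarith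
  have k2 : (41 / 25) ^ 2 ≤ (1 + y ^ 2) ^ 2 := pow_le_pow_left₀ (by norm_num) (by linarith) 2
  have k3 : (189 / 125) ^ 2 ≤ (1 + y ^ 3) ^ 2 := pow_le_pow_left₀ (by norm_num) (by linarith) 2
  have k4 : 4 / 5 * (41 / 25) ^ 2 ≤ y * (1 + y ^ 2) ^ 2 :=
    mul_le_mul hy0 k2 (by positivity) hy.le
  have k5 : 4 / 5 * (41 / 25) ^ 2 * ((189 / 125) ^ 2 / 3) ≤
      y * (1 + y ^ 2) ^ 2 * ((1 - y ^ 3) ^ 2 + (1 + y ^ 3) ^ 2 / 3) := by
    apply mul_le_mul k4 _ (by positivity) (by positivity)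
    have : 0 ≤ (1 - y ^ 3) ^ 2 := sq_nonneg _
    linarith
  norm_num at k5
  linarith

theorem D_neg_one (hy0 : 4 / 5 ≤ y) (hy1 : y < 1) : 0 ≤ gb y (-1) - ga y (-1) := by
  have hy : 0 < y := by linarith
  have h3 := cube_lt hy hy1
  have p3 : 0 < y ^ 3 := by positivity
  have e1 : 1 + y ^ 6 - 2 * y ^ 3 * (-1) = (1 + y ^ 3) ^ 2 := by ring
  have e2 : 1 + y ^ 6 + 2 * y ^ 3 * (-1) = (1 - y ^ 3) ^ 2 := by ring
  have e3 : 1 + y ^ 4 - 2 * y ^ 2 * (-1) = (1 + y ^ 2) ^ 2 := by ring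
  unfold ga gb
  rw [e1, e2, e3, Real.log_pow, Real.log_pow, Real.log_pow]
  have k1 : 1 + y ^ 2 ≤ 11 / 10 * (1 + y ^ 3) := by
    have : 0 ≤ (y - 4 / 5) * (11 * y ^ 2 - 6 / 5 * y - 24 / 25) := by
      apply mul_nonneg (by linarith)
      nlinarith
    nlinarith
  have k2 : (1 + y ^ 2) ^ 3 ≤ (11 / 10 * (1 + y ^ 3)) ^ 3 := pow_le_pow_left₀ (by positivity) k1 3
  have k3 : 64 / 125 ≤ y ^ 3 := by
    have := pow_le_pow_left₀ (by norm_num) hy0 3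
    norm_num at this
    linarith
  have k4 : (1 + y ^ 2) ^ 3 * (1 - y ^ 3) ≤ (1 + y ^ 3) ^ 3 := by
    have k5 : (1 + y ^ 2) ^ 3 * (1 - y ^ 3) ≤ (11 / 10 * (1 + y ^ 3)) ^ 3 * (61 / 125) :=
      mul_le_mul k2 (by linarith) (by linarith) (by positivity)
    have k6 : 0 ≤ (1 + y ^ 3) ^ 3 := by positivity
    rw [mul_pow] at k5
    norm_num at k5
    nlinarith
  have k5 := Real.log_le_log (by have : 0 < 1 - y ^ 3 := by linarith
                                 positivity) k4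
  rw [Real.log_mul (by positivity) (by linarith : (1 - y ^ 3) ≠ 0), Real.log_pow,
    Real.log_pow] at k5
  push_cast at *
  linarith

theorem D_one (hy0 : 0 < y) (hy1 : y < 1) : 0 ≤ gb y 1 - ga y 1 := by
  have h3 := cube_lt hy0 hy1
  have h2 : y ^ 2 < 1 := by nlinarith
  have p3 : 0 < y ^ 3 := by positivity
  have e1 : 1 + y ^ 6 - 2 * y ^ 3 * 1 = (1 - y ^ 3) ^ 2 := by ring
  have e2 : 1 + y ^ 6 + 2 * y ^ 3 * 1 = (1 + y ^ 3) ^ 2 := by ring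
  have e3 : 1 + y ^ 4 - 2 * y ^ 2 * 1 = (1 - y ^ 2) ^ 2 := by ring
  unfold ga gb
  rw [e1, e2, e3, Real.log_pow, Real.log_pow, Real.log_pow]
  have k1 : (1 + y) ^ 3 * (1 + y ^ 3) ≤ (1 + y + y ^ 2) ^ 3 := by
    have h0 : (1 + y) ^ 2 * (3 * y ^ 2) ≤ (1 + y + y ^ 2) ^ 3 - (1 + y) ^ 3 := by
      nlinarith [show (0 : ℝ) ≤ 3 * (1 + y) * y ^ 4 + y ^ 6 by positivity]
    have h1 : (1 + y) ^ 3 * y ^ 3 ≤ (1 + y) ^ 2 * (3 * y ^ 2) := by
      have : (1 + y) * y ^ 3 ≤ 3 * y ^ 2 := by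
        nlinarith [show (0 : ℝ) ≤ y ^ 2 by positivity, mul_nonneg (show (0 : ℝ) ≤ y ^ 2 by positivity)
          (sub_nonneg.2 hy1.le), mul_nonneg (show (0 : ℝ) ≤ y ^ 3 by positivity)
          (sub_nonneg.2 hy1.le)]
      have := mul_le_mul_of_nonneg_left this (show (0 : ℝ) ≤ (1 + y) ^ 2 by positivity)
      nlinarith
    nlinarith
  have k4 : (1 - y ^ 2) ^ 3 * (1 + y ^ 3) ≤ (1 - y ^ 3) ^ 3 := by
    have k5 : (1 - y) ^ 3 * ((1 + y) ^ 3 * (1 + y ^ 3)) ≤ (1 - y) ^ 3 * (1 + y + y ^ 2) ^ 3 :=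
      mul_le_mul_of_nonneg_left k1 (by have : 0 < 1 - y := by linarith
                                       positivity)
    have e4 : (1 - y ^ 2) ^ 3 * (1 + y ^ 3) = (1 - y) ^ 3 * ((1 + y) ^ 3 * (1 + y ^ 3)) := by ring
    have e5 : (1 - y ^ 3) ^ 3 = (1 - y) ^ 3 * (1 + y + y ^ 2) ^ 3 := by ring
    rw [e4, e5]
    exact k5
  have k5 := Real.log_le_log (by have : 0 < 1 - y ^ 2 := by linarith
                                 positivity) k4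
  rw [Real.log_mul (by have : 0 < 1 - y ^ 2 := by linarith
                       positivity) (by positivity), Real.log_pow, Real.log_pow] at k5
  push_cast at *
  linarith

theorem D_zero (hy0 : 0 < y) (hy1 : y < 1) : gb y 0 - ga y 0 < 0 := by
  unfold ga gb
  simp only [mul_zero, sub_zero, add_zero]
  have h : y ^ 6 ≤ y ^ 4 := pow_le_pow_of_le_one hy0.le hy1.le (by norm_num)
  have h1 : Real.log (1 + y ^ 6) ≤ Real.log (1 + y ^ 4) :=
    Real.log_le_log (by positivity) (by linarith)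
  have h2 : 0 < Real.log (1 + y ^ 4) := Real.log_pos (by have : 0 < y ^ 4 := by positivity
                                                         linarith)
  linarith

/-- the two functions cross as required in `cross` -/
theorem exists_m (hy0 : 4 / 5 ≤ y) (hy1 : y < 1) : ∃ m ∈ Icc (-1 : ℝ) 1,
    AntitoneOn (fun c => gb y c - ga y c) (Icc (-1) m) ∧
    MonotoneOn (fun c => gb y c - ga y c) (Icc m 1) ∧ gb y m - ga y m < 0 := by
  have hy : 0 < y := by linarith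
  have hc : Continuous (nd y) := by unfold nd; fun_prop
  obtain ⟨m, hm, hm0⟩ : ∃ m ∈ Icc (-1 : ℝ) 1, nd y m = 0 :=
    intermediate_value_Icc (by norm_num) hc.continuousOn
      ⟨(nd_neg_one hy0 hy1).le, (nd_one hy hy1).le⟩
  have hq : ∀ c, nd y c = nd y c - nd y m := fun c => by rw [hm0, sub_zero]
  have hdiff : ∀ c, nd y c - nd y m = (c - m) * (2 * y ^ 3 * (y ^ 2 * (1 + y ^ 6) * (4 / 3) -
      y ^ 3 * (1 + y ^ 4) * (2 / 3)) - 4 / 3 * y ^ 8 * (c + m)) := by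
    intro c
    unfold nd
    ring
  have hpos : ∀ c ≤ 1, 0 < 2 * y ^ 3 * (y ^ 2 * (1 + y ^ 6) * (4 / 3) -
      y ^ 3 * (1 + y ^ 4) * (2 / 3)) - 4 / 3 * y ^ 8 * (c + m) := by
    intro c hc1
    have h1 := nd_one hy hy1
    rw [hq 1, hdiff 1] at h1
    have h2 : 0 ≤ 1 - m := by linarith [hm.2]
    have h3 : 0 < 2 * y ^ 3 * (y ^ 2 * (1 + y ^ 6) * (4 / 3) -
      y ^ 3 * (1 + y ^ 4) * (2 / 3)) - 4 / 3 * y ^ 8 * (1 + m) := by
      by_contra h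
      push Not at h
      exact absurd h1 (not_lt.2 (mul_nonpos_of_nonneg_of_nonpos h2 h))
    have h4 : 0 < y ^ 8 := by positivity
    nlinarith
  have hsub1 : Icc (-1 : ℝ) m ⊆ Icc (-1) 1 := Icc_subset_Icc_right hm.2
  have hsub2 : Icc m (1 : ℝ) ⊆ Icc (-1) 1 := Icc_subset_Icc_left hm.1
  have hcont : ContinuousOn (fun c => gb y c - ga y c) (Icc (-1) 1) :=
    (cont_gb hy hy1).sub (cont_ga hy hy1)
  have hA : AntitoneOn (fun c => gb y c - ga y c) (Icc (-1) m) := by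
    apply antitoneOn_of_deriv_nonpos (convex_Icc _ _) (hcont.mono hsub1)
    · intro c hc
      rw [interior_Icc] at hc
      exact (deriv_D hy hy1 (hsub1 (Ioo_subset_Icc_self hc))).differentiableAt.differentiableWithinAt
    · intro c hc
      rw [interior_Icc] at hc
      have hc' := hsub1 (Ioo_subset_Icc_self hc)
      rw [(deriv_D hy hy1 hc').deriv]
      apply div_nonpos_of_nonpos_of_nonneg
      · rw [hq c, hdiff c]
        exact mul_nonpos_of_nonpos_of_nonneg (by linarith [hc.2]) (hpos c hc'.2).le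
      · have h1 := pos_b hy hy1 hc'
        have h2 := pos_b' hy hy1 hc'
        have h3 := pos_a hy hy1 hc'
        positivity
  have hB : MonotoneOn (fun c => gb y c - ga y c) (Icc m 1) := by
    apply monotoneOn_of_deriv_nonneg (convex_Icc _ _) (hcont.mono hsub2)
    · intro c hc
      rw [interior_Icc] at hc
      exact (deriv_D hy hy1 (hsub2 (Ioo_subset_Icc_self hc))).differentiableAt.differentiableWithinAt
    · intro c hc
      rw [interior_Icc] at hc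
      have hc' := hsub2 (Ioo_subset_Icc_self hc)
      rw [(deriv_D hy hy1 hc').deriv]
      apply div_nonneg
      · rw [hq c, hdiff c]
        exact mul_nonneg (by linarith [hc.1]) (hpos c hc'.2).le
      · have h1 := pos_b hy hy1 hc'
        have h2 := pos_b' hy hy1 hc'
        have h3 := pos_a hy hy1 hc'
        positivity
  refine ⟨m, hm, hA, hB, ?_⟩
  have h0 := D_zero hy hy1
  rcases le_total 0 m with h | h
  · have := hA ⟨by norm_num, h⟩ (right_mem_Icc.2 hm.1) h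
    simp only at this
    linarith
  · have := hB (left_mem_Icc.2 hm.2) ⟨h, by norm_num⟩ h
    simp only at this
    linarith

theorem cross_ab {p : ℝ} (hp : 0 < p) (hy0 : 4 / 5 ≤ y) (hy1 : y < 1) :
    ∃ β γ : ℝ, 0 < γ ∧ ∀ c ∈ Icc (-1 : ℝ) 1,
      β * (gb y c - ga y c) + γ * (gb y c ^ 2 - ga y c ^ 2) ≤
        Real.exp (p * gb y c) - Real.exp (p * ga y c) := by
  have hy : 0 < y := by linarith
  obtain ⟨m, hm, h1, h2, h3⟩ := exists_m hy0 hy1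
  exact cross hp (anti_ga hy hy1) (anti_gb hy hy1) (cont_ga hy hy1) (cont_gb hy hy1) hm h1 h2
    (D_neg_one hy0 hy1) (D_one hy hy1) h3

end Pool.Agent.H15.NX
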