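import Pool.Agent.H15.NX.Ra
import Pool.Agent.H15.NX.Rc
import Pool.Agent.H15.Sig.Final

/-!
# The function `z (1 + z ^ (-3)) ^ (2 / 3)` and the mean of its derivative
-/

open Complex Set Filter Topology MeasureTheory
open scoped ComplexConjugate Real

namespace Pool.Agent.H15.NX

open Pool.Agent.H15.Sig

/-- the three-fold symmetric analogue of `z + 1 / z` -/
noncomputable def F3 (z : ℂ) : ℂ := z * (1 + (z ^ 3)⁻¹) ^ (2 / 3 : ℂ)

theorem norm_w {z : ℂ} (hz : 1 < ‖z‖) : ‖(z ^ 3)⁻¹‖ < 1 := by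
  rw [norm_inv, norm_pow]
  exact inv_lt_one_of_one_lt₀ (one_lt_pow₀ hz (by norm_num))

theorem slit {w : ℂ} (hw : ‖w‖ < 1) : 1 + w ∈ slitPlane := by
  left
  have h := (abs_le.1 ((Complex.abs_re_le_norm w).trans hw.le)).1
  have h' : -1 < w.re := by
    have := abs_lt.1 ((Complex.abs_re_le_norm w).trans_lt hw)
    exact this.1
  simp only [add_re, one_re]
  linarith

theorem F3_cube {z : ℂ} (hz : 1 < ‖z‖) : F3 z ^ 3 = z ^ 3 + 2 + (z ^ 3)⁻¹ := by
  have hz0 : z ≠ 0 := ne_zero_of_one_lt hz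
  have h1 := slitPlane_ne_zero (slit (norm_w hz))
  unfold F3
  rw [mul_pow, ← cpow_nat_mul, show ((3 : ℕ) : ℂ) * (2 / 3) = ((2 : ℕ) : ℂ) by push_cast; ring,
    cpow_natCast]
  field_simp
  ring

theorem classSigma_F3 : ClassSigma F3 := by
  refine ⟨?_, fun n => if n % 3 = 1 then PowerSeries.coeff (n / 3 + 1) (bps (2 / 3)) else 0, ?_⟩
  · intro z hz w hw h
    have hz' : 1 < ‖z‖ := hz
    have hw' : 1 < ‖w‖ := hw
    have hz0 := ne_zero_of_one_lt hz'
    have hw0 := ne_zero_of_one_lt hw'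
    have h1 := F3_cube hz'
    rw [h, F3_cube hw'] at h1
    have h2 : (z ^ 3 - w ^ 3) * (z ^ 3 * w ^ 3 - 1) = 0 := by
      field_simp at h1
      linear_combination -h1
    have h3 : z ^ 3 = w ^ 3 := by
      rcases mul_eq_zero.1 h2 with h3 | h3
      · exact sub_eq_zero.1 h3
      · exfalso
        have h4 : ‖z ^ 3 * w ^ 3‖ = 1 := by rw [sub_eq_zero.1 h3, norm_one]
        rw [norm_mul, norm_pow, norm_pow] at h4
        have h5 : 1 < ‖z‖ ^ 3 := one_lt_pow₀ hz' (by norm_num)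
        have h6 : 1 < ‖w‖ ^ 3 := one_lt_pow₀ hw' (by norm_num)
        nlinarith
    have h4 : (1 + (w ^ 3)⁻¹) ^ (2 / 3 : ℂ) ≠ 0 := by
      rw [Ne, cpow_eq_zero_iff, not_and_or]
      left
      exact slitPlane_ne_zero (slit (norm_w hw'))
    unfold F3 at h
    rw [h3] at h
    exact mul_right_cancel₀ h4 h
  · intro z hz
    have hz0 := ne_zero_of_one_lt hz
    have h1 := rep_bps (2 / 3) _ (norm_w hz)
    rw [← hasSum_nat_add_iff' 1] at h1
    simp only [Finset.range_one, Finset.sum_singleton, pow_zero, mul_one] at h1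
    have h0 : PowerSeries.coeff 0 (bps (2 / 3)) = 1 := by simp [bps]
    rw [h0] at h1
    have h2 := h1.mul_left z
    have e : F3 z - z = z * ((1 + (z ^ 3)⁻¹) ^ (((2 / 3 : ℝ)) : ℂ) - 1) := by
      unfold F3
      push_cast
      ring
    rw [e]
    have hinj : Function.Injective (fun j : ℕ => 3 * j + 1) := by
      intro a b hab
      simp only at hab
      omega
    rw [← hinj.hasSum_iff]
    · refine h2.congr_fun ?_ |> fun h => h
      intro j
      simp only [Function.comp]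
      rw [if_pos (by omega), show (3 * j + 1) / 3 + 1 = j + 1 by omega]
      have e2 : z * (z ^ 3)⁻¹ ^ (j + 1) = z⁻¹ ^ (3 * j + 1 + 1) := by
        rw [← inv_pow, ← pow_mul, show 3 * (j + 1) = 3 * j + 1 + 1 + 1 by ring,
          pow_succ z⁻¹ (3 * j + 1 + 1), mul_left_comm, mul_inv_cancel₀ hz0, mul_one]
      rw [mul_left_comm, e2]
    · intro n hn
      simp only
      rw [if_neg, zero_mul]
      intro h3
      exact hn ⟨n / 3, by simp only; omega⟩

theorem deriv_F3 {z : ℂ} (hz : 1 < ‖z‖) :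
    deriv F3 z = (1 - (z ^ 3)⁻¹) * (1 + (z ^ 3)⁻¹) ^ ((-(1 / 3) : ℝ) : ℂ) := by
  have hz0 := ne_zero_of_one_lt hz
  have hs := slit (norm_w hz)
  have h0 := slitPlane_ne_zero hs
  have k1 : HasDerivAt (fun z : ℂ => 1 + (z ^ 3)⁻¹) (-(3 * z ^ 2) / (z ^ 3) ^ 2) z := by
    have := ((hasDerivAt_pow 3 z).inv (pow_ne_zero 3 hz0)).const_add 1
    simpa using this
  have k2 := k1.cpow_const (c := (2 / 3 : ℂ)) hs
  have k3 := (hasDerivAt_id z).mul k2
  have e : F3 = id * fun z : ℂ => (1 + (z ^ 3)⁻¹) ^ (2 / 3 : ℂ) := by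
    funext z; simp [F3]
  rw [e, k3.deriv]
  have e2 : ((2 / 3 : ℂ) - 1) = ((-(1 / 3) : ℝ) : ℂ) := by push_cast; norm_num
  have e3 : (1 + (z ^ 3)⁻¹) ^ (2 / 3 : ℂ) =
      (1 + (z ^ 3)⁻¹) ^ ((-(1 / 3) : ℝ) : ℂ) * (1 + (z ^ 3)⁻¹) := by
    rw [← e2, cpow_sub _ _ h0, cpow_one, div_mul_cancel₀ _ h0]
  rw [e2, e3]
  simp only [id]
  generalize (1 + (z ^ 3)⁻¹) ^ ((-(1 / 3) : ℝ) : ℂ) = A
  field_simp
  ring

theorem one_sub_sq (a t : ℝ) : ‖1 - (a : ℂ) * ec t‖ ^ 2 = 1 + a ^ 2 - 2 * a * Real.cos t := by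
  have h := normSq_one_add_ec (-a) t
  push_cast at h
  rw [show 1 - (a : ℂ) * ec t = 1 + -(a : ℂ) * ec t by ring, h]
  ring

theorem log_one_sub {a : ℝ} (t : ℝ) :
    Real.log ‖1 - (a : ℂ) * ec t‖ = 1 / 2 * Real.log (1 + a ^ 2 - 2 * a * Real.cos t) := by
  rw [← one_sub_sq, Real.log_pow]
  push_cast
  ring

theorem log_one_add {a : ℝ} (t : ℝ) :
    Real.log ‖1 + (a : ℂ) * ec t‖ = 1 / 2 * Real.log (1 + a ^ 2 + 2 * a * Real.cos t) := by
  have h := normSq_one_add_ec a t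
  rw [show 1 + a ^ 2 + 2 * a * Real.cos t = 1 + 2 * a * Real.cos t + a ^ 2 by ring, ← h,
    Real.log_pow]
  push_cast
  ring

variable {y : ℝ}

theorem ga_eq (t : ℝ) : ga y (Real.cos t) = Real.log ‖1 - ((y ^ 2 : ℝ) : ℂ) * ec t‖ := by
  rw [log_one_sub, ga]
  ring_nf

theorem gb_eq (t : ℝ) : gb y (Real.cos t) = Real.log ‖1 - ((y ^ 3 : ℝ) : ℂ) * ec t‖ -
    1 / 3 * Real.log ‖1 + ((y ^ 3 : ℝ) : ℂ) * ec t‖ := by
  rw [log_one_sub, log_one_add, gb]
  ring_nf

theorem re_la (t : ℝ) : (log (1 - ((y ^ 2 : ℝ) : ℂ) * ec t)).re = ga y (Real.cos t) := by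
  rw [log_re, ga_eq]

theorem re_lb (t : ℝ) : (log (1 - ((y ^ 3 : ℝ) : ℂ) * ec t) -
    1 / 3 * log (1 + ((y ^ 3 : ℝ) : ℂ) * ec t)).re = gb y (Real.cos t) := by
  rw [sub_re, log_re, gb_eq]
  congr 1
  rw [show (1 / 3 : ℂ) = ((1 / 3 : ℝ) : ℂ) by push_cast; ring, re_ofReal_mul, log_re]

theorem int_ga_zero (hy0 : 0 < y) (hy1 : y < 1) : ∫ t in (-π)..π, ga y (Real.cos t) = 0 := by
  have h := int_re_zero rep_la la_zero (x := y ^ 2) (by positivity) (by nlinarith)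
  simpa only [re_la] using h

theorem int_gb_zero (hy0 : 0 < y) (hy1 : y < 1) : ∫ t in (-π)..π, gb y (Real.cos t) = 0 := by
  have h := int_re_zero rep_lb lb_zero (x := y ^ 3) (by positivity) (cube_lt hy0 hy1)
  simpa only [re_lb] using h

theorem int_ga_sq (hy0 : 0 < y) (hy1 : y < 1) : ∫ t in (-π)..π, ga y (Real.cos t) ^ 2 ≤
    π * ((y ^ 2) ^ 2 + (y ^ 2) ^ 4 / 4 + (y ^ 2) ^ 6 / 9 + (y ^ 2) ^ 8 / 16 +
      (y ^ 2) ^ 10 / 4) := by
  have h := int_re_sq rep_la la_zero (x := y ^ 2) (by positivity) (by nlinarith)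
  simp only [re_la] at h
  have h2 := int_la_le (z := y ^ 2) (by positivity) (by nlinarith)
  rw [h]
  linarith

theorem int_gb_sq (hy0 : 0 < y) (hy1 : y < 1) :
    π * (16 / 9 * (y ^ 3) ^ 2) ≤ ∫ t in (-π)..π, gb y (Real.cos t) ^ 2 := by
  have h := int_re_sq rep_lb lb_zero (x := y ^ 3) (by positivity) (cube_lt hy0 hy1)
  simp only [re_lb] at h
  have h2 := int_lb_ge (z := y ^ 3) (by positivity) (cube_lt hy0 hy1)
  rw [h]
  linarith

theorem numer {z : ℝ} (h0 : 16 / 25 ≤ z) (h1 : z < 1) :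
    z ^ 2 + z ^ 4 / 4 + z ^ 6 / 9 + z ^ 8 / 16 + z ^ 10 / 4 < 16 / 9 * z ^ 3 := by
  obtain ⟨s, hs⟩ : ∃ s, s = (z - 16 / 25) / (9 / 25) := ⟨_, rfl⟩
  have hs0 : 0 ≤ s := by rw [hs]; apply div_nonneg <;> linarith
  have hs1 : s ≤ 1 := by rw [hs, div_le_one (by norm_num)]; linarith
  have hz : z = (1 - s) * (16 / 25) + s * 1 := by rw [hs]; ring
  have k : ∀ n : ℕ, z ^ n ≤ (1 - s) * (16 / 25) ^ n + s := by
    intro n
    have h := (convexOn_pow n).2 (show (16 / 25 : ℝ) ∈ Ici 0 by simp only [mem_Ici]; norm_num)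
      (show (1 : ℝ) ∈ Ici 0 by simp only [mem_Ici]; norm_num) (sub_nonneg.2 hs1) hs0 (by ring)
    simp only [smul_eq_mul, one_pow, mul_one] at h
    rw [hz, mul_one]
    exact h
  have k2 := k 2
  have k4 := k 4
  have k6 := k 6
  have k8 := k 8
  norm_num at k2 k4 k6 k8
  have h2 : z ^ 2 / 4 + z ^ 4 / 9 + z ^ 6 / 16 + z ^ 8 / 4 < 16 / 9 * z - 1 := by
    rw [hz] at *
    nlinarith
  have h3 : 0 < z ^ 2 := by have : 0 < z := by linarith
                            positivity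
  have h4 := mul_lt_mul_of_pos_left h2 h3
  nlinarith

theorem int_sq_lt (hy0 : 4 / 5 ≤ y) (hy1 : y < 1) :
    ∫ t in (-π)..π, ga y (Real.cos t) ^ 2 < ∫ t in (-π)..π, gb y (Real.cos t) ^ 2 := by
  have hy : 0 < y := by linarith
  refine (int_ga_sq hy hy1).trans_lt (lt_of_lt_of_le ?_ (int_gb_sq hy hy1))
  have h := numer (z := y ^ 2) (by nlinarith) (by nlinarith)
  rw [show (y ^ 3) ^ 2 = (y ^ 2) ^ 3 by ring]
  exact mul_lt_mul_of_pos_left h Real.pi_pos

theorem cos_mem (t : ℝ) : Real.cos t ∈ Icc (-1 : ℝ) 1 := ⟨Real.neg_one_le_cos t, Real.cos_le_one t⟩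

theorem cont_gac (hy0 : 0 < y) (hy1 : y < 1) : Continuous fun t => ga y (Real.cos t) :=
  (cont_ga hy0 hy1).comp_continuous Real.continuous_cos cos_mem

theorem cont_gbc (hy0 : 0 < y) (hy1 : y < 1) : Continuous fun t => gb y (Real.cos t) :=
  (cont_gb hy0 hy1).comp_continuous Real.continuous_cos cos_mem

/-- the comparison of the means in the variable `cos t` -/
theorem int_exp_lt {p : ℝ} (hp : 0 < p) (hy0 : 4 / 5 ≤ y) (hy1 : y < 1) :
    ∫ t in (-π)..π, Real.exp (p * ga y (Real.cos t)) <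
      ∫ t in (-π)..π, Real.exp (p * gb y (Real.cos t)) := by
  have hy : 0 < y := by linarith
  obtain ⟨β, γ, hγ, h⟩ := cross_ab hp hy0 hy1
  have ca := cont_gac hy hy1
  have cb := cont_gbc hy hy1
  have cea : Continuous fun t => Real.exp (p * ga y (Real.cos t)) :=
    Real.continuous_exp.comp (continuous_const.mul ca)
  have ceb : Continuous fun t => Real.exp (p * gb y (Real.cos t)) :=
    Real.continuous_exp.comp (continuous_const.mul cb)
  have h1 : ∫ t in (-π)..π, (β * (gb y (Real.cos t) - ga y (Real.cos t)) +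
      γ * (gb y (Real.cos t) ^ 2 - ga y (Real.cos t) ^ 2)) ≤
      ∫ t in (-π)..π, (Real.exp (p * gb y (Real.cos t)) - Real.exp (p * ga y (Real.cos t))) := by
    apply intervalIntegral.integral_mono_on (by linarith [Real.pi_pos])
    · exact (((cb.sub ca).const_mul β).add (((cb.pow 2).sub (ca.pow 2)).const_mul
        γ)).intervalIntegrable _ _
    · exact (ceb.sub cea).intervalIntegrable _ _
    · intro t _
      exact h _ (cos_mem t)
  have i1 : IntervalIntegrable (fun t => β * (gb y (Real.cos t) - ga y (Real.cos t))) volume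
      (-π) π := ((cb.sub ca).const_mul β).intervalIntegrable _ _
  have i2 : IntervalIntegrable (fun t => γ * (gb y (Real.cos t) ^ 2 - ga y (Real.cos t) ^ 2))
      volume (-π) π := (((cb.pow 2).sub (ca.pow 2)).const_mul γ).intervalIntegrable _ _
  have i3 : IntervalIntegrable (fun t => gb y (Real.cos t) ^ 2) volume (-π) π :=
    (cb.pow 2).intervalIntegrable _ _
  have i4 : IntervalIntegrable (fun t => ga y (Real.cos t) ^ 2) volume (-π) π :=
    (ca.pow 2).intervalIntegrable _ _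
  rw [intervalIntegral.integral_add i1 i2,
    intervalIntegral.integral_const_mul, intervalIntegral.integral_const_mul,
    intervalIntegral.integral_sub (cb.intervalIntegrable _ _) (ca.intervalIntegrable _ _),
    intervalIntegral.integral_sub i3 i4,
    intervalIntegral.integral_sub (ceb.intervalIntegrable _ _) (cea.intervalIntegrable _ _),
    int_ga_zero hy hy1, int_gb_zero hy hy1] at h1
  have h2 := int_sq_lt hy0 hy1
  have h3 := mul_pos hγ (sub_pos.2 h2)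
  linarith

/-- substitution `t ↦ n t` for functions of period `2 π` -/
theorem integral_nat_mul {f : ℝ → ℝ} (hf : Function.Periodic f (2 * π)) (hc : Continuous f)
    {n : ℕ} (hn : 0 < n) : ∫ t in (-π)..π, f (n * t) = ∫ t in (-π)..π, f t := by
  have hn' : (n : ℝ) ≠ 0 := by exact_mod_cast hn.ne'
  rw [intervalIntegral.integral_comp_mul_left f hn']
  have h1 := hf.intervalIntegral_add_zsmul_eq n (n * -π) (fun a b => hc.intervalIntegrable a b)
  have h2 := hf.intervalIntegral_add_eq (n * -π) (-π)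
  rw [show (n : ℝ) * -π + (n : ℤ) • (2 * π) = n * π by simp; ring] at h1
  rw [show -π + 2 * π = π by ring] at h2
  rw [h1, h2, smul_eq_mul]
  simp only [zsmul_eq_mul, Int.cast_natCast]
  field_simp

theorem ec_pow' (t : ℝ) (n : ℕ) : ec t ^ n = ec (n * t) := by
  unfold ec
  rw [← exp_nat_mul]
  congr 1
  push_cast
  ring

theorem circle_inv (r t : ℝ) :
    ((r : ℂ) * exp (t * I))⁻¹ = ((r⁻¹ : ℝ) : ℂ) * ec t := by
  rw [← inv_inv (((r⁻¹ : ℝ) : ℂ) * ec t), inv_ec, inv_inv]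

theorem norm_J' {r : ℝ} (hr : 1 < r) (t : ℝ) :
    ‖1 - (((r : ℂ) * exp (t * I)) ^ 2)⁻¹‖ = Real.exp (ga r⁻¹ (Real.cos ((2 : ℕ) * t))) := by
  have hx0 : 0 < r⁻¹ := by positivity
  have hx1 : r⁻¹ < 1 := inv_lt_one_of_one_lt₀ hr
  have e : (((r : ℂ) * exp (t * I)) ^ 2)⁻¹ = (((r⁻¹) ^ 2 : ℝ) : ℂ) * ec ((2 : ℕ) * t) := by
    rw [← inv_pow, circle_inv, mul_pow, ec_pow']
    push_cast
    ring
  rw [e, ga_eq, Real.exp_log]
  rw [norm_pos_iff]
  intro h0
  have h1 : ‖(((r⁻¹) ^ 2 : ℝ) : ℂ) * ec ((2 : ℕ) * t)‖ = 1 := by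
    rw [← sub_eq_zero.1 h0, norm_one]
  rw [norm_mul_ec (by positivity)] at h1
  nlinarith

theorem norm_F3' {r : ℝ} (hr : 1 < r) (t : ℝ) :
    ‖deriv F3 ((r : ℂ) * exp (t * I))‖ = Real.exp (gb r⁻¹ (Real.cos ((3 : ℕ) * t))) := by
  have hx0 : 0 < r⁻¹ := by positivity
  have hx1 : r⁻¹ < 1 := inv_lt_one_of_one_lt₀ hr
  have hx3 := cube_lt hx0 hx1
  have e : (((r : ℂ) * exp (t * I)) ^ 3)⁻¹ = (((r⁻¹) ^ 3 : ℝ) : ℂ) * ec ((3 : ℕ) * t) := by
    rw [← inv_pow, circle_inv, mul_pow, ec_pow']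
    push_cast
    ring
  have hn : ‖(((r⁻¹) ^ 3 : ℝ) : ℂ) * ec ((3 : ℕ) * t)‖ = r⁻¹ ^ 3 := norm_mul_ec (by positivity) _
  have p1 : 0 < ‖1 - (((r⁻¹) ^ 3 : ℝ) : ℂ) * ec ((3 : ℕ) * t)‖ := by
    rw [norm_pos_iff]
    intro h0
    rw [← sub_eq_zero.1 h0, norm_one] at hn
    linarith
  have p2 : 0 < ‖1 + (((r⁻¹) ^ 3 : ℝ) : ℂ) * ec ((3 : ℕ) * t)‖ := by
    rw [norm_pos_iff]
    intro h0
    rw [← neg_eq_of_add_eq_zero_right h0, norm_neg, norm_one] at hn
    linarith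
  rw [deriv_F3 (norm_circle_pt hr t), e, norm_mul, norm_cpow_real, gb_eq, Real.exp_sub,
    Real.exp_log p1, mul_comm (1 / 3) (Real.log _), Real.exp_mul, Real.exp_log p2,
    Real.rpow_neg p2.le]
  rfl

/-- For all `1 < r ≤ 5 / 4` and all orders `lam > 0` the derivative of
`z (1 + z ^ (-3)) ^ (2 / 3)` has a larger mean than `1 - z ^ (-2)`. -/
theorem deriv_small_radius {lam r : ℝ} (hl : 0 < lam) (hr : 1 < r) (hr1 : r ≤ 5 / 4) :
    integralMean lam r (fun z => 1 - (z ^ 2)⁻¹) < integralMean lam r (deriv F3) := by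
  have hx0 : 0 < r⁻¹ := by positivity
  have hx1 : r⁻¹ < 1 := inv_lt_one_of_one_lt₀ hr
  have hx2 : 4 / 5 ≤ r⁻¹ := by
    rw [show (4 / 5 : ℝ) = (5 / 4)⁻¹ by norm_num]
    exact inv_anti₀ (by linarith) hr1
  rw [integralMean_eq lam r (deriv F3)]
  apply (integralMean_mono hl).2
  have ca := cont_gac hx0 hx1
  have cb := cont_gbc hx0 hx1
  have e1 : ∫ t in (-π)..π, ‖(fun z : ℂ => 1 - (z ^ 2)⁻¹) (r * exp (t * I))‖ ^ lam =
      ∫ t in (-π)..π, Real.exp (lam * ga r⁻¹ (Real.cos t)) := by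
    rw [← integral_nat_mul (f := fun t => Real.exp (lam * ga r⁻¹ (Real.cos t))) (n := 2)
      (fun t => by simp only [Real.cos_add_two_pi])
      (Real.continuous_exp.comp (continuous_const.mul ca)) (by norm_num)]
    apply intervalIntegral.integral_congr
    intro t _
    simp only
    rw [norm_J' hr, mul_comm lam, Real.exp_mul]
  have e2 : ∫ t in (-π)..π, ‖deriv F3 (r * exp (t * I))‖ ^ lam =
      ∫ t in (-π)..π, Real.exp (lam * gb r⁻¹ (Real.cos t)) := by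
    rw [← integral_nat_mul (f := fun t => Real.exp (lam * gb r⁻¹ (Real.cos t))) (n := 3)
      (fun t => by simp only [Real.cos_add_two_pi])
      (Real.continuous_exp.comp (continuous_const.mul cb)) (by norm_num)]
    apply intervalIntegral.integral_congr
    intro t _
    simp only
    rw [norm_F3' hr, mul_comm lam, Real.exp_mul]
  rw [e1, e2]
  exact int_exp_lt hl hx2 hx1

end Pool.Agent.H15.NX
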